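import Pool.Agent.P.MP_12d50c_ag.BT.IfaceD

/-! Step ADM. -/

set_option autoImplicit false
set_option linter.unusedSectionVars false

namespace Pool.Agent.P.MP_12d50c_ag.BT

open Finset Function Polynomial CategoryTheory AlgebraicGeometry
open scoped TensorProduct

theorem max_adm (hDIM : S_DIM) (hFM : S_FM) {F : Type} [Field F] {m n : ℕ}
    {w : PrimeSpectrum (AS F (n + 1))} (hw : AdmA w) {g : Fin (m + 1) → Fin (n + 2)}
    (hg : Function.Injective g) {j : Fin (n + 2)} (hj : j ∉ Set.range g)
    (z : PrimeSpectrum (AS F m)) (hz : w.asIdeal ≤ z.asIdeal.comap (fm F g)) :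
    z.asIdeal.IsMaximal := by
  obtain ⟨h0, h1⟩ := (hFM F m (n + 1)).1 g
  have hs := (h1 hg).2
  let P : PrimeSpectrum (AS F (n + 1)) := ⟨z.asIdeal.comap (fm F g), inferInstance⟩
  have hP : tt F j ∈ P.asIdeal := by
    change fm F g (tt F j) ∈ z.asIdeal
    rw [h0 j hj]; exact zero_mem _
  have hlt : w.asIdeal < P.asIdeal := lt_of_le_of_ne hz fun e => hw.one j (e ▸ hP)
  have h2 := Ideal.height_add_one_le_of_lt_of_isPrime hlt
  rw [(hDIM F n).2.2 w hw.dim] at h2
  obtain ⟨h3, h4⟩ := (hDIM F (n + 1)).2.1 P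
  have hPm : P.asIdeal.IsMaximal := h4.2 (le_antisymm h3 (by rw [Nat.cast_succ]; exact h2))
  have h5 := Ideal.map_eq_top_or_isMaximal_of_surjective (fm F g) hs hPm
  rw [Ideal.map_comap_of_surjective (fm F g) hs] at h5
  exact h5.resolve_left z.isPrime.ne_top

theorem card_adm {m n : ℕ} {g : Fin (m + 1) → Fin (n + 2)} {j : Fin (n + 2)}
    (h : ∀ j', j' ≠ j → j' ∈ Set.range g) : n ≤ m := by
  have h1 : (univ.erase j) ⊆ univ.image g := fun j' hj' => by
    obtain ⟨i, hi⟩ := h j' (mem_erase.1 hj').1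
    exact mem_image.2 ⟨i, mem_univ _, hi⟩
  have h2 := (card_le_card h1).trans card_image_le
  rw [card_erase_of_mem (mem_univ _), card_univ, card_univ, Fintype.card_fin,
    Fintype.card_fin] at h2
  omega

theorem p_ADM (hDIM : S_DIM) (hFM : S_FM) :
    S_ADM := by
  intro F _ n
  refine ⟨fun w hw m g z hz => ?_, fun w hw => ?_, fun z j hj => ?_⟩
  · obtain ⟨h0, h1⟩ := (hFM F m (n + 1)).1 g
    by_cases hs : Function.Surjective g
    · have hm : m = n + 1 := by
        have := Fintype.card_of_bijective ⟨g.injective, hs⟩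
        rw [Fintype.card_fin, Fintype.card_fin] at this
        omega
      subst hm
      have hid : ∀ i, g i = i := fun i => g.strictMono.apply_eq
      have he : fm F g = AlgHom.id F _ := as_ext fun i => by
        have := (h1 g.injective).1 i
        rwa [hid i] at this
      rw [← (hDIM F n).2.2 w hw.dim]
      refine Ideal.height_mono fun x hx => ?_
      have := hz hx
      rwa [Ideal.mem_comap, he] at this
    · obtain ⟨j, hj⟩ : ∃ j, j ∉ Set.range g := not_forall.1 hs
      have hmax := max_adm hDIM hFM hw g.injective hj z hz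
      rw [((hDIM F m).2.1 z).2.1 hmax, Nat.cast_le]
      refine card_adm (g := g) (j := j) fun j' hj' => by_contra fun hn => ?_
      have ht : w.asIdeal ⊔ Ideal.span {tt F j', tt F j} ≤ z.asIdeal.comap (fm F g) := by
        refine sup_le hz (Ideal.span_le.2 ?_)
        rintro x (rfl | rfl)
        · change fm F g (tt F j') ∈ z.asIdeal
          rw [h0 j' hn]; exact zero_mem _
        · change fm F g (tt F j) ∈ z.asIdeal
          rw [h0 j hj]; exact zero_mem _
      rw [hw.two j' j hj'] at ht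
      exact (Ideal.comap_ne_top (fm F g) z.isPrime.ne_top) (top_le_iff.1 ht)
  · have hmax : ∀ (j : Fin (n + 2)) (z : PrimeSpectrum (AS F n)),
        w.asIdeal.map (fm F j.succAbove) ≤ z.asIdeal → z.asIdeal.IsMaximal := fun j z hz =>
      max_adm hDIM hFM hw Fin.succAbove_right_injective (j := j)
        (by rintro ⟨i, hi⟩; exact Fin.succAbove_ne j i hi) z (Ideal.map_le_iff_le_comap.1 hz)
    have hfin : {z : PrimeSpectrum (AS F n) |
        ∃ j : Fin (n + 2), w.asIdeal.map (fm F j.succAbove) ≤ z.asIdeal}.Finite := by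
      rw [Set.ofPred_exists]
      refine Set.finite_iUnion fun j => ?_
      refine Set.Finite.of_finite_image (f := PrimeSpectrum.asIdeal)
        ((Ideal.finite_minimalPrimes_of_isNoetherianRing _
          (w.asIdeal.map (fm F j.succAbove))).subset ?_) fun _ _ _ _ e => PrimeSpectrum.ext e
      rintro _ ⟨z, hz, rfl⟩
      exact ⟨⟨z.isPrime, hz⟩, fun q hq hle =>
        ((hmax j ⟨q, hq.1⟩ hq.2).eq_of_le z.isPrime.ne_top hle).ge⟩
    exact ⟨hfin.toFinset, fun j z hz => hfin.mem_toFinset.2 ⟨j, hz⟩,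
      fun z hz => let ⟨j, hj⟩ := hfin.mem_toFinset.1 hz; hmax j z hj⟩
  · have hs := (((hFM F n (n + 1)).1 j.succAbove).2 Fin.succAbove_right_injective).2
    have hk : RingHom.ker (fm F j.succAbove) ≤ z.asIdeal := by
      rw [(hFM F n n).2 j, Ideal.span_le, Set.singleton_subset_iff]; exact hj
    refine ⟨⟨z.asIdeal.map (fm F j.succAbove), Ideal.map_isPrime_of_surjective hs hk⟩, ?_⟩
    change _ = Ideal.comap _ (Ideal.map _ _)
    rw [Ideal.comap_map_of_surjective _ hs, ← RingHom.ker_eq_comap_bot, sup_eq_left.2 hk]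

end Pool.Agent.P.MP_12d50c_ag.BT
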