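import Pool.Agent.P.MP_12d50c_ag.BT.IfaceA

/-! Statements, parts B and C: general position. -/

set_option autoImplicit false
set_option linter.unusedSectionVars false

namespace Pool.Agent.P.MP_12d50c_ag.BT

open Finset Function Filter

-- deps:
def S_KO : Prop := ∀ (Ω : Type) [Field Ω] (k : Subfield Ω) (d : ℕ), Cst k d → Infinite k ∧
  ∀ c : Ω, c ∈ k → c ≠ 0 →
    (∃ N : ℕ, 0 < N ∧ c ^ N = 1) ∧ ∀ O : ValuationSubring Ω, O.valuation c = 1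

-- deps:
def S_GA : Prop := ∀ (k Ω : Type) [Field k] [Field Ω] [Algebra k Ω] (d : ℕ) (I : Type) [Fintype I]
  [DecidableEq I] (T : Finset I) (u : I → I → Ω), Algebra.trdeg k Ω ≤ d → T.card = d + 1 →
  ∃ Φ : MvPolynomial I k, Φ ≠ 0 ∧ ∀ y : I → Ω,
    (∀ t ∈ T, y t + ∑ x ∈ Tᶜ, u t x * y x = 0) → MvPolynomial.aeval y Φ = 0

-- deps: KO GA
def S_GEN0 : Prop := ∀ (Ω : Type) [Field Ω] (k : Subfield Ω) (d : ℕ) (ι : Type) [Fintype ι]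
  (A : ι → Finset Ω), Cst k d → (∀ s, ∀ a ∈ A s, a ≠ 0) →
  ∃ G : ι → Ω, (∀ s, G s ∈ sp k (A s)) ∧ ∀ O : ValuationSubring Ω,
    {s | ∃ a ∈ A s, O.valuation (G s) < O.valuation a}.ncard ≤ d

-- deps: GEN0
def S_GEN : Prop := ∀ (Ω : Type) [Field Ω] (k : Subfield Ω) (d : ℕ) (ι : Type) [Fintype ι]
  (A : ι → Finset Ω), Cst k d → (∀ s, (A s).Nonempty ∧ ∀ a ∈ A s, a ≠ 0) →
  ∃ G : ι → Ω, (∀ s, G s ∈ sp k (A s) ∧ G s ≠ 0) ∧ ∀ O : ValuationSubring Ω,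
    {s | ∃ a ∈ A s, O.valuation (G s) < O.valuation a}.ncard ≤ d

-- deps:
def S_PIG : Prop := ∀ (k R : Type) [Field k] [CommRing R] [Algebra k R] (Λ : Finset R) (r j : ℕ),
  Λ.card * r < j + (r + 1) → sp k Λ ^ (j + (r + 1)) ≤ ⨆ a ∈ Λ, ln1 k (a ^ (r + 1)) * sp k Λ ^ j

-- deps:
def S_RED0 : Prop := ∀ (k Ω : Type) [Field k] [Field Ω] [Algebra k Ω] (Λ Q : Finset Ω) (e : ℕ)
  (a : Ω), a ∈ Λ → (∀ g ∈ Q, g ∈ sp k Λ ^ e) →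
  (∀ O : ValuationSubring Ω, ∃ g ∈ Q, ∀ x ∈ Λ, O.valuation x ^ e ≤ O.valuation g) →
  ∀ᶠ c in atTop, a ^ (c + e + 1) ∈ sp k Q * sp k Λ ^ (c + 1)

-- deps: PIG RED0
def S_RED : Prop := ∀ (k Ω : Type) [Field k] [Field Ω] [Algebra k Ω] (Λ Q : Finset Ω) (e : ℕ),
  (∀ g ∈ Q, g ∈ sp k Λ ^ e) →
  (∀ O : ValuationSubring Ω, ∃ g ∈ Q, ∀ x ∈ Λ, O.valuation x ^ e ≤ O.valuation g) →
  ∀ᶠ c in atTop, sp k Λ ^ (c + e) ≤ sp k Q * sp k Λ ^ c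

-- deps: PIG
def S_THETA : Prop := ∀ (k R : Type) [Field k] [CommRing R] [Algebra k R] (L : Submodule k R)
  (d : ℕ) (θ : Fin (d + 1) → R), (∀ j, θ j ∈ L) →
  (∀ᶠ c in atTop, L ^ (c + 1) ≤ Submodule.span k (Set.range θ) * L ^ c) →
  ∀ᶠ b in atTop, L ^ (2 * ((d + 1) * b + 1)) ≤
    ⨆ α : Fin (d + 1) → Fin (d + 1), ln1 k (∏ j, θ (α j) ^ b) * L ^ ((d + 1) * b + 2)

-- deps: GEN RED
def S_WG : Prop := ∀ (Ω : Type) [Field Ω] (k : Subfield Ω) (d K n : ℕ) (f : Fin n → Ω)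
  (e : Fin n → Bool), Cst k d → (∀ i, f i ≠ 0) → KGen K f →
  ∃ g : Fin n → Ω, (∀ i, g i ∈ sp k (Lam0 f i)) ∧ ∀ᶠ c in atTop, ∀ G : Finset (Fin n),
    K + d + 1 ≤ G.card →
      sp k (Lam f) ^ (c + 2) ≤ ⨆ i ∈ G, ln1 k ((cc f e i * g i) ^ 2) * sp k (Lam f) ^ c

-- deps: GEN RED THETA
def S_WT : Prop := ∀ (Ω : Type) [Field Ω] (k : Subfield Ω) (d : ℕ) (Λ : Finset Ω), Cst k d →
  Λ.Nonempty → (∀ a ∈ Λ, a ≠ 0) → ∃ θ : Fin (d + 1) → Ω, (∀ j, θ j ∈ sp k Λ) ∧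
    ∀ᶠ b in atTop, sp k Λ ^ (2 * ((d + 1) * b + 1)) ≤
      ⨆ α : Fin (d + 1) → Fin (d + 1), ln1 k (∏ j, θ (α j) ^ b) * sp k Λ ^ ((d + 1) * b + 2)

-- deps:
def S_GRP : Prop := ∀ (A ι : Type) [Fintype A] [Nonempty A] (T : Finset ι) (r : ℕ),
  T.card = Fintype.card A * r →
  ∃ al : ι → A, ∀ α, ∃ G : Finset ι, G ⊆ T ∧ r ≤ G.card ∧ ∀ i ∈ G, al i = α

-- deps: WG WT GRP
def S_WIT : Prop := ∀ (Ω : Type) [Field Ω] (k : Subfield Ω) (d K n : ℕ) (f : Fin n → Ω),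
  Cst k d → (∀ i, f i ≠ 0) → KGen K f → ∃ m : ℕ, ∀ (e : Fin n → Bool) (T : Finset (Fin n)),
    T.card = (d + 1) ^ (d + 1) * (K + d + 1) → ∃ z : Fin n → Ω,
      (∀ i, z i ∈ sp k (Lam0 f i) * sp k (Lam f) ^ m) ∧ sp k (Lam f) ^ (2 * (m + 1)) ≤
        ⨆ i ∈ T, ln1 k (cc f e i ^ 2 * z i) * (sp k (Lam0 f i) * sp k (Lam f) ^ m)

-- deps: WIT
def S_DATB : Prop := ∀ (Ω : Type) [Field Ω] (k : Subfield Ω) (d K n : ℕ) (f : Fin n → Ω),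
  Cst k d → (∀ i, f i ≠ 0) → KGen K f → ∃ (W : Fin n → Submodule k Ω) (V : Submodule k Ω),
    Dat k ((d + 1) ^ (d + 1) * (K + d + 1)) W V (cc f)

-- deps: TAK DATB
def S_TB : Prop := ∀ (Ω : Type) [Field Ω] (k : Subfield Ω) (d K n : ℕ) (f : Fin n → Ω)
  (ω : Alt (MM Ω) n), Cst k d → 4 * ((d + 1) ^ (d + 1) * (K + d + 1)) ≤ n → St3 ω →
  (∀ i, f i ≠ 0) → KGen K f → ω (fun i => lg (f i)) = 0

-- deps: KO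
def S_DEP : Prop := ∀ (Ω : Type) [Field Ω] (k : Subfield Ω) (d : ℕ), Cst k d → (vs Ω).Dep d

-- deps:
def S_TRC : Prop := ∀ (M : Type) [AddCommGroup M] (Y : VS M),
  (∀ h h', Y.Trop h → Y.Trop h' → Y.Trop (h + h') ∧ Y.Trop (h ⊓ h')) ∧
  (∀ h, Y.Trop h → Y.Trop (-h)) ∧ Y.Trop 0 ∧ ∀ 𝒜 e, Y.Trop (Y.ev 𝒜 e)

-- deps:
def S_NEW : Prop := ∀ (M : Type) [AddCommGroup M] (Y : VS M) (d n : ℕ),
  (∀ (p : ℕ) (𝒜 : ℕ → NF M) (m : Y.H), Y.Trop m → ∃ (𝒜' : ℕ → NF M) (ρ : EE M),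
    (∀ s < p, 𝒜' s = 𝒜 s) ∧ (∀ s, ρ.2 s ≠ 0 → p ≤ s ∧ s < p + 2) ∧ Y.ev 𝒜' ρ = m) ∧
  ∀ (p : ℕ) (𝒜 : ℕ → NF M) (l : List (Fin n → EE M)),
    (∀ e ∈ l, Sta p e ∧ Y.Cl d fun i => Y.ev 𝒜 (e i)) →
    ∃ p' 𝒜', p ≤ p' ∧ (∀ s < p, 𝒜' s = 𝒜 s) ∧ ∀ ω, Y.Kil d p' 𝒜' ω → ∀ e ∈ l, ω e = 0

-- deps: TRC NEW
def S_RR1 : Prop := ∀ (M : Type) [AddCommGroup M] (Y : VS M) (d n : ℕ),
  Y.R1 (Y.Cl d : (Fin n → Y.H) → Prop)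

-- deps: TRC NEW
def S_RR2 : Prop := ∀ (M : Type) [AddCommGroup M] (Y : VS M) (d n : ℕ),
  Y.R2 (Y.Cl d : (Fin n → Y.H) → Prop)

-- deps: TRC
def S_RR3 : Prop := ∀ (M : Type) [AddCommGroup M] (Y : VS M) (d n : ℕ), Y.Dep d →
  Y.R3 d (Y.Cl d : (Fin n → Y.H) → Prop)

-- deps:
def S_CV : Prop := ∀ (M : Type) [AddCommGroup M] (Y : VS M) (n : ℕ) (S : Finset (Fin n))
  (h : Fin n → Y.H) (j j' : Fin n), j ≠ j' → j ∈ S → j' ∈ S → (∀ i v, 0 ≤ h i v) →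
  Y.Sub (Y.up2 h j j' (h j - h j ⊓ h j') (h j' - h j ⊓ h j')) h ∧
  Y.Sub (Y.up2 h j j' (h j - h j ⊓ h j') (h j ⊓ h j')) h ∧
  Y.Sub (Y.up2 h j j' (h j ⊓ h j') (h j' - h j ⊓ h j')) h ∧
  Y.NoC S (Y.up2 h j j' (h j - h j ⊓ h j') (h j' - h j ⊓ h j')) ∧
  ∀ C, Y.Cov S h C →
    Y.Cov S (Y.up2 h j j' (h j - h j ⊓ h j') (h j ⊓ h j'))
      (C.map fun c => update c j' (c j + c j')) ∧
    Y.Cov S (Y.up2 h j j' (h j ⊓ h j') (h j' - h j ⊓ h j'))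
      (C.map fun c => update c j (c j + c j'))

-- deps: CV
def S_C1 : Prop := ∀ (M : Type) [AddCommGroup M] (Y : VS M) (n : ℕ)
  (P : (Fin n → Y.H) → Prop) (S : Finset (Fin n)) (h₀ : Fin n → Y.H), Y.R1 P →
  (∀ h, Y.Sub h h₀ → Y.NoC S h → P h) → ∀ C h, Y.Sub h h₀ → Y.Cov S h C → P h

-- deps: C1
def S_COMBI : Prop := ∀ (M : Type) [AddCommGroup M] (Y : VS M) (d n : ℕ)
  (P : (Fin n → Y.H) → Prop), (∀ h, Y.Ovl d h → P h) → Y.R1 P → Y.R2 P → Y.R3 d P → ∀ h, P h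

-- deps: KO GEN
def S_REAL : Prop := ∀ (Ω : Type) [Field Ω] (k : Subfield Ω) (d n p : ℕ) (𝒜 : ℕ → NF (MM Ω)),
  Cst k d → ∃ G : ℕ → MM Ω, ∀ e : Fin n → EE (MM Ω), Sta p e →
    (vs Ω).Ovl d (fun i => (vs Ω).ev 𝒜 (e i)) →
    KGen (3 * d) fun i => ((Additive.toMul (lin (AddMonoidHom.id _) G (e i)) : Ωˣ) : Ω)

-- deps: TB DEP RR1 RR2 RR3 COMBI REAL
def S_CORE : Prop := ∀ (Ω : Type) [Field Ω] (k : Subfield Ω) (d n : ℕ) (ω : Alt (MM Ω) n),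
  Cst k d → 4 * ((d + 1) ^ (d + 1) * (4 * d + 1)) ≤ n → St3 ω → ω = 0

end Pool.Agent.P.MP_12d50c_ag.BT
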