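import Pool.Agent.P.MP_12d50c_ag.BT.IfaceD
import Pool.Agent.P.MP_12d50c_ag.BT.IfaceB

/-! Step ALT. -/

set_option autoImplicit false
set_option linter.unusedSectionVars false

namespace Pool.Agent.P.MP_12d50c_ag.BT

open Finset Function Polynomial CategoryTheory AlgebraicGeometry
open scoped TensorProduct

theorem scale_alt {E : Type} [Field E] {n : ℕ} {Φ : (Fin (n + 1) → E) → ℚ} (hA : Aff Φ)
    {y : Fin (n + 1) → E} (hy : ∀ i, y i ≠ 0) (i : Fin (n + 1)) {ζ : E} (h0 : ζ ≠ 0) {N : ℕ}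
    (hN : 0 < N) (h : ζ ^ N = 1) : Φ (update y i (ζ * y i)) = Φ y := by
  have h1 : ∀ m : ℕ, Φ (update y i (ζ ^ m)) - Φ (update y i 1) =
      m * (Φ (update y i ζ) - Φ (update y i 1)) := fun m => by
    induction m with
    | zero => simp
    | succ m ih =>
      have := hA i y (ζ ^ m) ζ hy (pow_ne_zero m h0) h0
      rw [pow_succ]
      push_cast
      linear_combination ih + this
  have h2 := h1 N
  rw [h, sub_self, eq_comm, mul_eq_zero, Nat.cast_eq_zero] at h2
  have h3 := hA i y ζ (y i) hy h0 (hy i)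
  rw [update_eq_self] at h3
  linear_combination h3 + h2.resolve_left hN.ne'

theorem p_ALT (hKO : S_KO) (hALT0 : S_ALT0) :
    S_ALT := by
  intro E _ k d n Φ hk hC hA j x hx e
  classical
  obtain ⟨hinf, hN⟩ := hKO E k d hk
  have key : ∀ u ∈ k, ∀ w ∈ k, u ≠ 0 → w ≠ 0 →
      Φ (update (update x j.castSucc (u * x j.succ)) j.succ (w * x j.succ)) = Φ x :=
    fun u hu w hw u0 w0 => by
      obtain ⟨⟨N, a1, a2⟩, -⟩ := hN u hu u0
      obtain ⟨⟨M, b1, b2⟩, -⟩ := hN w hw w0
      have c1 := scale_alt hA hx j.castSucc u0 a1 a2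
      have c2 := scale_alt hA (y := update x j.castSucc (u * x j.succ)) (fun i => by
        by_cases c : i = j.castSucc
        · rw [c, update_self]; exact mul_ne_zero u0 (hx _)
        · rw [update_of_ne c]; exact hx i) j.succ w0 b1 b2
      rw [update_of_ne (Fin.castSucc_lt_succ (i := j)).ne'] at c2
      rw [e] at c1
      rw [c2, c1]
  obtain ⟨⟨b, hb⟩, h⟩ := Infinite.exists_notMem_finset ({0, 1, -1} : Finset k)
  simp only [mem_insert, mem_singleton, not_or, Subtype.ext_iff] at h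
  obtain ⟨b0, b1, b2⟩ : b ≠ 0 ∧ b ≠ 1 ∧ b ≠ -1 := h
  have s0 := hx j.succ
  have b3 : -1 - b ≠ 0 := sub_ne_zero.2 b2.symm
  have b4 : b - 1 ≠ 0 := sub_ne_zero.2 b1
  have k3 : -1 - b ∈ k := k.sub_mem (k.neg_mem k.one_mem) hb
  have k4 : b - 1 ∈ k := k.sub_mem hb k.one_mem
  have H := hALT0 E n Φ j x 1 b (-1 - b) 0 (x j.succ) (b * x j.succ) hC hx one_ne_zero b0 b3
    (by ring) s0.symm (fun c => b1 (mul_right_cancel₀ s0 (c.symm.trans (one_mul _).symm)))
    (mul_ne_zero b0 s0).symm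
  rw [show b * (0 - x j.succ) = -b * x j.succ by ring,
    show (-1 - b) * (0 - b * x j.succ) = (-1 - b) * -b * x j.succ by ring,
    show (-1 - b) * (x j.succ - b * x j.succ) = -((-1 - b) * (b - 1)) * x j.succ by ring,
    show 1 * (b * x j.succ - 0) = b * x j.succ by ring,
    show b * (b * x j.succ - x j.succ) = b * (b - 1) * x j.succ by ring, sub_zero,
    key _ (k.neg_mem hb) _ (k.mul_mem k3 (k.neg_mem hb)) (neg_ne_zero.2 b0)
      (mul_ne_zero b3 (neg_ne_zero.2 b0)),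
    key _ k.one_mem _ (k.neg_mem (k.mul_mem k3 k4)) one_ne_zero
      (neg_ne_zero.2 (mul_ne_zero b3 b4)),
    key _ hb _ (k.mul_mem hb k4) b0 (mul_ne_zero b0 b4)] at H
  linear_combination H

end Pool.Agent.P.MP_12d50c_ag.BT
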