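import Pool.Agent.P.MP_12d50c_ag.BT.IfaceD

/-! Step ALT0. -/

set_option autoImplicit false
set_option linter.unusedSectionVars false

namespace Pool.Agent.P.MP_12d50c_ag.BT

open Finset Function Polynomial CategoryTheory AlgebraicGeometry
open scoped TensorProduct

/-- Three consecutive slots with given values. -/
def tri_alt0 {T : Type} {n : ℕ} (c : Fin (n + 2) → T) (j : Fin (n + 1)) (a b d : T)
    (i : Fin (n + 3)) : T :=
  if i.1 = j.1 then a else if i.1 = j.1 + 1 then b else if i.1 = j.1 + 2 then d else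
    c ⟨if i.1 < j.1 then i.1 else i.1 - 1, by split_ifs <;> omega⟩

theorem val_alt0 {n : ℕ} (k : Fin (n + 1)) (i : Fin n) :
    i.1 < k.1 ∧ (k.succAbove i).1 = i.1 ∨ k.1 ≤ i.1 ∧ (k.succAbove i).1 = i.1 + 1 := by
  unfold Fin.succAbove
  by_cases h : i.1 < k.1
  · rw [if_pos (show i.castSucc < k from h)]; exact .inl ⟨h, rfl⟩
  · rw [if_neg (show ¬ i.castSucc < k from h)]; exact .inr ⟨not_lt.1 h, rfl⟩

theorem del_alt0 {T : Type} {n : ℕ} (c : Fin (n + 2) → T) (j : Fin (n + 1)) (a b d u v : T)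
    (k : Fin (n + 3)) (hk : k.1 = j.1 ∧ u = b ∧ v = d ∨ k.1 = j.1 + 1 ∧ u = a ∧ v = d ∨
      k.1 = j.1 + 2 ∧ u = a ∧ v = b) :
    (fun i => tri_alt0 c j a b d (k.succAbove i)) =
      update (update c j.castSucc u) j.succ v := by
  funext i
  have e := val_alt0 k i
  generalize k.succAbove i = w at e ⊢
  by_cases h1 : i = j.succ
  · subst h1
    rw [update_self, tri_alt0]
    rw [Fin.val_succ] at e
    rcases hk with ⟨h, -, rfl⟩ | ⟨h, -, rfl⟩ | ⟨h, -, rfl⟩
    · rw [if_neg (by omega), if_neg (by omega), if_pos (by omega)]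
    · rw [if_neg (by omega), if_neg (by omega), if_pos (by omega)]
    · rw [if_neg (by omega), if_pos (by omega)]
  rw [update_of_ne h1]
  by_cases h2 : i = j.castSucc
  · subst h2
    rw [update_self, tri_alt0]
    rw [Fin.val_castSucc] at e
    rcases hk with ⟨h, rfl, -⟩ | ⟨h, rfl, -⟩ | ⟨h, rfl, -⟩
    · rw [if_neg (by omega), if_pos (by omega)]
    · rw [if_pos (by omega)]
    · rw [if_pos (by omega)]
  rw [update_of_ne h2, tri_alt0]
  have h3 : i.1 ≠ j.1 + 1 := fun h => h1 (Fin.ext h)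
  have h4 : i.1 ≠ j.1 := fun h => h2 (Fin.ext h)
  rw [if_neg (by omega), if_neg (by omega), if_neg (by omega)]
  refine congrArg c (Fin.ext ?_)
  dsimp only
  split_ifs <;> omega

theorem sum_alt0 {M : Type} [AddCommMonoid M] {n : ℕ} (j : Fin (n + 1)) (g : Fin (n + 3) → M)
    (h : ∀ i : Fin (n + 3), i.1 ≠ j.1 → i.1 ≠ j.1 + 1 → i.1 ≠ j.1 + 2 → g i = 0) :
    ∑ i, g i = g ⟨j.1, by omega⟩ + g ⟨j.1 + 1, by omega⟩ + g ⟨j.1 + 2, by omega⟩ := by
  rw [← sum_subset (subset_univ ({⟨j.1, by omega⟩, ⟨j.1 + 1, by omega⟩, ⟨j.1 + 2, by omega⟩} :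
    Finset (Fin (n + 3)))) fun i _ hi => ?_]
  · rw [sum_insert (by simp [Fin.ext_iff]), sum_pair (by simp [Fin.ext_iff]), add_assoc]
  · simp only [mem_insert, mem_singleton, Fin.ext_iff, not_or] at hi
    exact h i hi.1 hi.2.1 hi.2.2

theorem p_ALT0 :
    S_ALT0 := by
  intro E _ n Φ j c α β γ x y z hC hc ha hb hg h0 hxy hyz hxz
  have ev : ∀ t i, (pp (tri_alt0 c j α β γ) (tri_alt0 (fun _ => ∅) j {x} {y} {z}) i).eval t =
      tri_alt0 c j (α * (t - x)) (β * (t - y)) (γ * (t - z)) i := by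
    intro t i
    unfold pp tri_alt0
    split_ifs <;> simp
  have lin : ∀ i, pp (tri_alt0 c j α β γ) (tri_alt0 (fun _ => ∅) j {x} {y} {z}) i =
      C (tri_alt0 c j (-(α * x)) (-(β * y)) (-(γ * z)) i) +
        C (tri_alt0 (fun _ => 0) j α β γ i) * X := by
    intro i
    unfold pp tri_alt0
    split_ifs <;> simp <;> ring
  have cur : Cur (tri_alt0 c j α β γ) (tri_alt0 (fun _ => ∅) j {x} {y} {z}) := by
    refine ⟨fun i => ?_, fun i i' hi => ?_, ⟨j.1, by omega⟩, ?_⟩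
    · unfold tri_alt0
      split_ifs <;> first | assumption | exact hc _
    · have : i.1 ≠ i'.1 := fun h => hi (Fin.ext h)
      unfold tri_alt0
      split_ifs <;> first | omega | simp [hxy, hyz, hxz, hxy.symm, hyz.symm, hxz.symm]
    · have s0 : ∑ i, tri_alt0 (fun _ => (0 : E)) j α β γ i = 0 := by
        rw [sum_alt0 j _ fun i h1 h2 h3 => by simp [tri_alt0, h1, h2, h3]]
        simpa [tri_alt0] using h0
      simp only [ss, lin, sum_add_distrib, ← sum_mul, ← map_sum, s0, map_zero, zero_mul, add_zero]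
      refine degree_C_le.trans_lt ?_
      simp [tri_alt0]
  have h := hC _ _ cur
  simp only [ev] at h
  rw [sum_alt0 j _ fun i h1 h2 h3 => by simp [tri_alt0, h1, h2, h3]] at h
  have t0 : tri_alt0 (fun _ => (∅ : Finset E)) j {x} {y} {z} ⟨j.1, by omega⟩ = {x} := by
    simp [tri_alt0]
  have t1 : tri_alt0 (fun _ => (∅ : Finset E)) j {x} {y} {z} ⟨j.1 + 1, by omega⟩ = {y} := by
    simp [tri_alt0]
  have t2 : tri_alt0 (fun _ => (∅ : Finset E)) j {x} {y} {z} ⟨j.1 + 2, by omega⟩ = {z} := by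
    simp [tri_alt0]
  rw [t0, t1, t2, sum_singleton, sum_singleton, sum_singleton,
    del_alt0 c j _ _ _ _ _ _ (.inl ⟨rfl, rfl, rfl⟩),
    del_alt0 c j _ _ _ _ _ _ (.inr (.inl ⟨rfl, rfl, rfl⟩)),
    del_alt0 c j _ _ _ _ _ _ (.inr (.inr ⟨rfl, rfl, rfl⟩))] at h
  have hne : ((-1 : ℚ) ^ j.1) ≠ 0 := pow_ne_zero _ (by norm_num)
  refine mul_left_cancel₀ hne ?_
  rw [mul_zero, ← h]
  simp only [pow_succ]
  ring

end Pool.Agent.P.MP_12d50c_ag.BT
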