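import Pool.Agent.P.MP_12d50c_ag.BT.IfaceA

/-! Step BJD. -/

set_option autoImplicit false
set_option linter.unusedSectionVars false

namespace Pool.Agent.P.MP_12d50c_ag.BT

open Finset Function

section
variable {ι : Type} [Fintype ι] [DecidableEq ι] {K : Type} [Field K] {W : ι → Type}
  [∀ i, AddCommGroup (W i)] [∀ i, Module K (W i)] [∀ i, Fintype (W i)]

theorem mem_bjd {T : Finset ι} {x : ∀ i, W i} : x ∈ GT K W T ↔ ∀ i ∉ T, x i = 0 :=
  mem_GT.trans mem_XT

variable (K) in
theorem split_bjd (J : Finset ι) (F : (∀ i, W i) → ℝ) :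
    ∑ a, F a = ∑ s ∈ GT K W Jᶜ, ∑ x ∈ GT K W J, F (s + x) := by
  have e : ∀ a : ∀ i, W i, Jᶜ.piecewise a 0 + J.piecewise a 0 = a := fun a => by
    funext i
    by_cases h : i ∈ J <;> simp [h]
  rw [← sum_product']
  refine sum_nbij' (fun a => (Jᶜ.piecewise a 0, J.piecewise a 0)) (fun p => p.1 + p.2)
    (fun a _ => ?_) (fun _ _ => mem_univ _) (fun a _ => e a) (fun p hp => ?_)
    fun a _ => by rw [e]
  · exact mem_product.2 ⟨mem_bjd.2 fun i hi => piecewise_eq_of_notMem _ _ _ hi,
      mem_bjd.2 fun i hi => piecewise_eq_of_notMem _ _ _ hi⟩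
  · have h1 := mem_bjd.1 (mem_product.1 hp).1
    have h2 := mem_bjd.1 (mem_product.1 hp).2
    refine Prod.ext (funext fun i => ?_) (funext fun i => ?_) <;> by_cases h : i ∈ J
    · simp [h, h1 i]
    · simp [h, h2 i]
    · simp [h, h1 i]
    · simp [h, h2 i]

end

theorem p_BJD :
    S_BJD := by
  intro ι _ _ K _ W _ _ _ V _ _ _ β v₀ J
  classical
  refine ⟨split_bjd K J, fun s => ?_, fun g => ?_⟩
  · simp only [ws, ← eq_sub_iff_add_eq']
    rw [sum_comm]
    simp
  · rw [BJ, split_bjd K J]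
    refine sum_congr rfl fun s hs => sum_congr rfl fun x hx => ?_
    rw [split_bjd K J, sum_comm]
    refine sum_congr rfl fun y hy => ?_
    rw [ws, sum_mul, sum_mul]
    refine sum_congr rfl fun s' hs' => ?_
    have e1 : bb β (s + x) (s' + y) = bb β s s' + bb β x y := by
      simp only [map_add, LinearMap.add_apply,
        bb_eq_zero β (mem_GT.1 hs) (mem_GT.1 hy) disjoint_compl_left,
        bb_eq_zero β (mem_GT.1 hx) (mem_GT.1 hs') disjoint_compl_right, add_zero, zero_add]
    have e2 : J.piecewise (s' + y) (s + x) = s + y := by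
      funext i
      by_cases h : i ∈ J
      · simp [h, mem_bjd.1 hs i, mem_bjd.1 hs' i]
      · simp [h, mem_bjd.1 hx i, mem_bjd.1 hy i]
    rw [e1, e2]
    split_ifs <;> simp

end Pool.Agent.P.MP_12d50c_ag.BT
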