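import Pool.Agent.P.MP_12d50c_ag.BT.IfaceA

/-! Step BJL. -/

set_option autoImplicit false
set_option linter.unusedSectionVars false

namespace Pool.Agent.P.MP_12d50c_ag.BT

open Finset Function

theorem three_bjl {ι : Type} [DecidableEq ι] (J : Finset ι) (m : ℕ) (h : 3 * m ≤ J.card) :
    ∃ J₁ J₂ J₃ : Finset ι, J₁ ⊆ J ∧ J₂ ⊆ J ∧ J₃ ⊆ J ∧ J₁.card = m ∧ J₂.card = m ∧ J₃.card = m ∧
      Disjoint J₁ J₂ ∧ Disjoint (J₁ ∪ J₂) J₃ := by
  obtain ⟨J₁, a1, c1⟩ := exists_subset_card_eq (s := J) (n := m) (by omega)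
  obtain ⟨J₂, a2, c2⟩ := exists_subset_card_eq (s := J \ J₁) (n := m)
    (by rw [card_sdiff_of_subset a1]; omega)
  have a3 : J₁ ∪ J₂ ⊆ J := union_subset a1 (a2.trans sdiff_subset)
  obtain ⟨J₃, a4, c3⟩ := exists_subset_card_eq (s := J \ (J₁ ∪ J₂)) (n := m)
    (by rw [card_sdiff_of_subset a3]; have := card_union_le J₁ J₂; omega)
  exact ⟨J₁, J₂, J₃, a1, a2.trans sdiff_subset, a4.trans sdiff_subset, c1, c2, c3,
    disjoint_sdiff.mono_right a2, disjoint_sdiff.mono_right a4⟩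

theorem p_BJL (hLJ : S_LJ) (hBJD : S_BJD) (hNJ : S_NJ) :
    S_BJL := by
  intro ι _ _ K _ _ W _ _ _ V _ _ _ β v₀ m g ε J hs hg hε hq hm
  obtain ⟨J₁, J₂, J₃, s1, s2, s3, c1, c2, c3, d12, d3⟩ := three_bjl J m hm
  obtain ⟨h1, h2, h3⟩ := hBJD ι K W V β v₀ J
  have hV : (0 : ℝ) < Fintype.card V := by exact_mod_cast Fintype.card_pos
  have hK : (0 : ℝ) < (Nat.card K - 1 : ℕ) := by
    have : 1 < Nat.card K := Finite.one_lt_card
    exact_mod_cast (show 0 < Nat.card K - 1 by omega)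
  let b : (∀ i, W i) →+ (∀ i, W i) →+ V :=
    AddMonoidHom.mk' (fun x => (bb β x).toAddMonoidHom) fun x y => by rw [map_add]; rfl
  have hX : ∀ T : Finset ι, T ⊆ J → ∀ z ∈ GT K W J, ∀ y ∈ (XT K W T).toAddSubgroup,
      z + y ∈ GT K W J := fun T hT z hz y hy =>
    mem_GT.2 (add_mem (mem_GT.1 hz) (mem_XT.2 fun i hi => mem_XT.1 hy i fun e => hi (hT e)))
  have key : ∀ s ∈ GT K W Jᶜ, -(ε * Fintype.card (∀ i, W i) * ∑ x ∈ GT K W J, g (s + x) ^ 2) ≤
      (Fintype.card V : ℝ) * ∑ x ∈ GT K W J, ∑ y ∈ GT K W J,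
        ws β v₀ Jᶜ s (bb β x y) * g (s + x) * g (s + y) := fun s hs' => by
    have a := hLJ (∀ i, W i) V b (XT K W (J₁ ∪ J₂)).toAddSubgroup (XT K W J₃).toAddSubgroup
      (GT K W J) (ws β v₀ Jᶜ s) (fun x => g (s + x)) ((GT K W Jᶜ).card / Fintype.card V) ε
      (bb_symm β hs) (fun x hx y hy => bb_eq_zero β hx hy d3) (hX _ (union_subset s1 s2))
      (hX _ s3) (fun v => sum_nonneg fun _ _ => by split_ifs <;> norm_num)
      (by rw [h2, div_mul_cancel₀ _ hV.ne']) hε fun x hx hne => by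
        have gn : ∀ T : Finset ι, T ⊆ J → T.card = m → Gn β T x := fun T hT c =>
          ((hg _ hne).2 T c).congr β fun i hi => by
            rw [Pi.add_apply, mem_XT.1 (mem_GT.1 hs') i (by simpa using hT hi), zero_add]
        refine ⟨(gn _ s1 c1).mono β subset_union_left, gn _ s3 c3, ?_⟩
        have n := hNJ ι K W V β J J₁ J₂ x s2 d12 (gn _ s1 c1) (gn _ s2 c2)
        have n' := (Nat.cast_le (α := ℝ)).2 n
        simp only [Nat.cast_mul, Nat.cast_ofNat] at n'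
        refine le_of_mul_le_mul_left ?_ hK
        have p : (0 : ℝ) ≤ (GT K W J).card := Nat.cast_nonneg _
        have q := mul_le_mul_of_nonneg_right hq p
        rw [mul_left_comm]
        exact (mul_le_mul_of_nonneg_left n' zero_le_two).trans (by linarith)
    have c : (Fintype.card (∀ i, W i) : ℝ) = (GT K W Jᶜ).card * (GT K W J).card := by
      simpa using h1 fun _ => 1
    refine le_trans (le_of_eq ?_) (mul_le_mul_of_nonneg_left a hV.le)
    rw [c]
    field_simp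
  rw [h3, h1, mul_sum, mul_sum, ← sum_neg_distrib]
  exact sum_le_sum key

end Pool.Agent.P.MP_12d50c_ag.BT
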