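import Pool.Agent.P.MP_12d50c_ag.BT.IfaceA

/-! Step BJS. -/

set_option autoImplicit false
set_option linter.unusedSectionVars false

namespace Pool.Agent.P.MP_12d50c_ag.BT

open Finset Function

theorem key_bjs (hCL : S_CL) {ι : Type} [Fintype ι] [DecidableEq ι] {K : Type} [Field K]
    {W : ι → Type} [∀ i, AddCommGroup (W i)] [∀ i, Module K (W i)] [∀ i, Fintype (W i)] {V : Type}
    [AddCommGroup V] [Module K V] [Fintype V] (β : ∀ i, W i →ₗ[K] W i →ₗ[K] V) (v₀ : V)
    {S : Finset ι} {s : ∀ i, W i} (h : Gn β S s) (v : V) :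
    (Fintype.card V : ℝ) * ws β v₀ S s v = (GT K W S).card := by
  classical
  have := hCL (∀ i, W i) V (bb β s).toAddMonoidHom (XT K W S).toAddSubgroup (GT K W S)
    (fun u => if u = v₀ - v then 1 else 0) h
    (fun z hz y hy => mem_GT.2 (add_mem (mem_GT.1 hz) hy))
  rw [sum_ite_eq', if_pos (mem_univ _), mul_one] at this
  rw [← this, ws]
  congr 1
  refine sum_congr rfl fun z _ => ?_
  rw [LinearMap.toAddMonoidHom_coe]
  by_cases e : bb β s z + v = v₀
  · rw [if_pos e, if_pos (eq_sub_of_add_eq e)]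
  · rw [if_neg e, if_neg fun e' => e (add_eq_of_eq_sub e')]

theorem p_BJS (hCL : S_CL) (hBJD : S_BJD) :
    S_BJS := by
  intro ι _ _ K _ W _ _ _ V _ _ _ β v₀ m g hg
  have hV : (0 : ℝ) < Fintype.card V := Nat.cast_pos.2 Fintype.card_pos
  refine ⟨fun J hJ => ?_, fun hm => ?_⟩
  · rw [(hBJD ι K W V β v₀ J).2.2 g]
    refine sum_nonneg fun s _ => ?_
    by_cases e : ∀ x ∈ GT K W J, g (s + x) = 0
    · exact (sum_eq_zero fun x hx => sum_eq_zero fun y _ => by rw [e x hx, mul_zero, zero_mul]).ge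
    · simp only [not_forall] at e
      obtain ⟨x₀, hx₀, e⟩ := e
      have h1 : Gn β Jᶜ s := ((hg _ e).gn β hJ).congr β fun i hi => by
        rw [Pi.add_apply, mem_XT.1 (mem_GT.1 hx₀) i (mem_compl.1 hi), add_zero]
      have h2 : ∀ v, ws β v₀ Jᶜ s v = (GT K W Jᶜ).card / Fintype.card V := fun v => by
        rw [eq_div_iff hV.ne', mul_comm, key_bjs hCL β v₀ h1 v]
      simp only [h2, mul_assoc, ← mul_sum, ← sum_mul]
      exact mul_nonneg (by positivity) (mul_self_nonneg _)
  · rw [BJ, mul_sum, mul_sum]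
    refine sum_congr rfl fun a _ => ?_
    simp only [piecewise_empty]
    by_cases e : g a = 0
    · simp [e]
    · have h1 := key_bjs hCL β v₀ ((hg a e).gn β (T := univ) hm) 0
      have h2 : GT K W (univ : Finset ι) = univ :=
        eq_univ_of_forall fun x => mem_GT.2 (mem_XT.2 fun i hi => absurd (mem_univ i) hi)
      rw [ws, h2, card_univ] at h1
      rw [← h1, mul_assoc, sum_mul]
      congr 1
      refine sum_congr rfl fun z _ => ?_
      rw [add_zero]
      by_cases e' : bb β a z = v₀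
      · rw [if_pos e', if_pos e', one_mul, sq]
      · rw [if_neg e', if_neg e', zero_mul]

end Pool.Agent.P.MP_12d50c_ag.BT
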