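import Pool.Agent.P.MP_12d50c_ag.BT.IfaceB

/-! Step C1. -/

set_option autoImplicit false
set_option linter.unusedSectionVars false

namespace Pool.Agent.P.MP_12d50c_ag.BT

open Finset Function Filter

theorem drop_c1 {M : Type} [AddCommGroup M] (Y : VS M) {n : ℕ} {S : Finset (Fin n)}
    {h : Fin n → Y.H} {c : Fin n → ℤ} {C : List (Fin n → ℤ)} (hc : Y.Cov S h (c :: C))
    (hs : (∀ i, 0 ≤ c i) ∨ ∀ i, c i ≤ 0) : Y.Cov S h C := by
  refine ⟨fun c' hc' => hc.1 c' (List.mem_cons_of_mem _ hc'), fun v hv => ?_⟩
  obtain ⟨c', hc', he⟩ := hc.2 v hv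
  rcases List.mem_cons.1 hc' with rfl | hc'
  · exfalso
    obtain ⟨h0, hS⟩ := hc.1 c' List.mem_cons_self
    obtain ⟨i, hi⟩ := Function.ne_iff.1 h0
    have hiS : i ∈ S := by
      by_contra a
      exact hi (hS i a)
    have hi' : c' i ≠ 0 := hi
    rcases hs with hs | hs
    · refine (Finset.sum_pos' (fun k _ => ?_) ⟨i, mem_univ _, ?_⟩).ne' he
      · by_cases a : k ∈ S
        · exact zsmul_nonneg (hv k a).le (hs k)
        · rw [hS k a, zero_smul]
      · exact zsmul_pos (hv i hiS) (lt_of_le_of_ne (hs i) hi'.symm)
    · have he' : ∑ k, (-c' k) • h k v = 0 := by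
        simp only [neg_smul, Finset.sum_neg_distrib, he, neg_zero]
      refine (Finset.sum_pos' (fun k _ => ?_) ⟨i, mem_univ _, ?_⟩).ne' he'
      · by_cases a : k ∈ S
        · exact zsmul_nonneg (hv k a).le (neg_nonneg.2 (hs k))
        · rw [hS k a, neg_zero, zero_smul]
      · exact zsmul_pos (hv i hiS) (neg_pos.2 (lt_of_le_of_ne (hs i) hi'))
  · exact ⟨c', hc', he⟩

theorem sub_c1 {M : Type} [AddCommGroup M] (Y : VS M) {n : ℕ} {a b c : Fin n → Y.H}
    (h1 : Y.Sub a b) (h2 : Y.Sub b c) : Y.Sub a c :=
  fun i v => ⟨(h1 i v).1, fun h => (h2 i v).2 ((h1 i v).2 h)⟩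

theorem cnt_c1 {n : ℕ} {c : Fin n → ℤ} {p q x : ℤ} {j : Fin n} {r : ℕ}
    (hj : c j = p ∨ c j = -q) (h1 : -q < x) (h2 : x < p)
    (hr : (univ.filter fun i => c i = p ∨ c i = -q).card ≤ r + 1) :
    (univ.filter fun i => update c j x i = p ∨ update c j x i = -q).card ≤ r := by
  have : (univ.filter fun i => update c j x i = p ∨ update c j x i = -q) ⊆
      (univ.filter fun i => c i = p ∨ c i = -q).erase j := by
    intro i hi
    rw [mem_filter] at hi
    have hij : i ≠ j := by
      rintro rfl
      rw [update_self] at hi
      omega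
    rw [update_of_ne hij] at hi
    exact mem_erase.2 ⟨hij, mem_filter.2 hi⟩
  have a := card_le_card this
  have hm : j ∈ univ.filter fun i => c i = p ∨ c i = -q := mem_filter.2 ⟨mem_univ _, hj⟩
  rw [card_erase_of_mem hm] at a
  omega

theorem bnd_c1 {n : ℕ} {c : Fin n → ℤ} {p q x : ℤ} (j : Fin n)
    (hb : ∀ i, -q ≤ c i ∧ c i ≤ p) (h1 : -q < x) (h2 : x < p) (i : Fin n) :
    -q ≤ update c j x i ∧ update c j x i ≤ p := by
  by_cases a : i = j
  · subst a
    rw [update_self]
    exact ⟨h1.le, h2.le⟩
  · rw [update_of_ne a]
    exact hb i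

theorem p_C1 (hCV : S_CV) :
    S_C1 := by
  intro M _ Y n P S h₀ hR hN
  have main : ∀ (l : ℕ) (C : List (Fin n → ℤ)) (h : Fin n → Y.H), C.length = l → Y.Sub h h₀ →
      Y.Cov S h C → P h := by
    intro l
    induction l with
    | zero =>
      intro C h hl hs hc
      rw [List.length_eq_zero_iff] at hl
      subst hl
      refine hN h hs fun v => ?_
      by_contra a
      push Not at a
      obtain ⟨c, hc', -⟩ := hc.2 v a
      simp at hc'
    | succ l ihl =>
      have inner : ∀ (s p q : ℕ), p + q = s → ∀ (r : ℕ) (c : Fin n → ℤ) (C : List (Fin n → ℤ))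
          (h : Fin n → Y.H), C.length = l → Y.Sub h h₀ → Y.Cov S h (c :: C) →
          (∀ i, -(q : ℤ) ≤ c i ∧ c i ≤ p) →
          (univ.filter fun i => c i = (p : ℤ) ∨ c i = -(q : ℤ)).card ≤ r → P h := by
        intro s
        induction s using Nat.strong_induction_on with
        | _ s ihs =>
          intro p q hpq r
          have easy : ∀ (c : Fin n → ℤ) (C : List (Fin n → ℤ)) (h : Fin n → Y.H),
              C.length = l → Y.Sub h h₀ → Y.Cov S h (c :: C) → (∀ i, -(q : ℤ) ≤ c i ∧ c i ≤ p) →
              P h ∨ (0 < p ∧ 0 < q ∧ ∃ j j', c j = p ∧ c j' = -(q : ℤ)) := by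
            intro c C h hl hs hc hb
            by_cases a1 : ∀ i, 0 ≤ c i
            · exact Or.inl (ihl C h hl hs (drop_c1 Y hc (Or.inl a1)))
            by_cases a2 : ∀ i, c i ≤ 0
            · exact Or.inl (ihl C h hl hs (drop_c1 Y hc (Or.inr a2)))
            push Not at a1 a2
            obtain ⟨i1, a1⟩ := a1
            obtain ⟨i2, a2⟩ := a2
            have b1 := (hb i1).1
            have b2 := (hb i2).2
            have hp : 0 < p := by omega
            have hq : 0 < q := by omega
            by_cases a3 : ∃ j, c j = p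
            · by_cases a4 : ∃ j, c j = -(q : ℤ)
              · obtain ⟨j, a3⟩ := a3
                obtain ⟨j', a4⟩ := a4
                exact Or.inr ⟨hp, hq, j, j', a3, a4⟩
              · push Not at a4
                refine Or.inl (ihs (p + (q - 1)) (by omega) p (q - 1) rfl _ c C h hl hs hc
                  (fun i => ?_) le_rfl)
                have := hb i
                have := a4 i
                omega
            · push Not at a3
              refine Or.inl (ihs (p - 1 + q) (by omega) (p - 1) q rfl _ c C h hl hs hc
                (fun i => ?_) le_rfl)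
              have := hb i
              have := a3 i
              omega
          induction r with
          | zero =>
            intro c C h hl hs hc hb hr
            rcases easy c C h hl hs hc hb with a | ⟨-, -, j, -, a, -⟩
            · exact a
            · have : j ∈ univ.filter fun i => c i = (p : ℤ) ∨ c i = -(q : ℤ) :=
                mem_filter.2 ⟨mem_univ _, Or.inl a⟩
              have := card_pos.2 ⟨j, this⟩
              omega
          | succ r ihr =>
            intro c C h hl hs hc hb hr
            rcases easy c C h hl hs hc hb with a | ⟨hp, hq, j, j', a, a'⟩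
            · exact a
            have hS := (hc.1 c List.mem_cons_self).2
            have hjj : j ≠ j' := by
              rintro rfl
              omega
            have hj : j ∈ S := by
              by_contra b
              have := hS j b
              omega
            have hj' : j' ∈ S := by
              by_contra b
              have := hS j' b
              omega
            obtain ⟨s1, s2, s3, n1, hC⟩ := hCV M Y n S h j j' hjj hj hj' fun i v => (hs i v).1
            obtain ⟨c2, c3⟩ := hC _ hc
            rw [List.map_cons] at c2 c3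
            have x1 : -(q : ℤ) < c j + c j' := by omega
            have x2 : c j + c j' < p := by omega
            refine hR h j j' hjj (hN _ (sub_c1 Y s1 hs) n1) ?_ ?_
            · exact ihr _ _ _ (by rw [List.length_map, hl]) (sub_c1 Y s2 hs) c2
                (bnd_c1 j' hb x1 x2) (cnt_c1 (Or.inr a') x1 x2 hr)
            · exact ihr _ _ _ (by rw [List.length_map, hl]) (sub_c1 Y s3 hs) c3
                (bnd_c1 j hb x1 x2) (cnt_c1 (Or.inl a) x1 x2 hr)
      intro C h hl hs hc
      obtain _ | ⟨c, C⟩ := C
      · simp at hl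
      · refine inner _ (∑ i, (c i).natAbs) (∑ i, (c i).natAbs) rfl _ c C h (by simpa using hl)
          hs hc (fun i => ?_) le_rfl
        have := Finset.single_le_sum (f := fun i => (c i).natAbs) (fun _ _ => Nat.zero_le _)
          (mem_univ i)
        omega
  exact fun C h => main _ C h rfl

end Pool.Agent.P.MP_12d50c_ag.BT
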