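import Pool.Agent.P.MP_12d50c_ag.BT.IfaceD

/-! Step CE. -/

set_option autoImplicit false
set_option linter.unusedSectionVars false

namespace Pool.Agent.P.MP_12d50c_ag.BT

open Finset Function Polynomial CategoryTheory AlgebraicGeometry
open scoped TensorProduct

theorem p_CE (hFM : S_FM) (hADM : S_ADM) (hGFIN : S_GFIN) (hLS : S_LS) (hCE0 : S_CE0) (hCE1 : S_CE1) (hCE3 : S_CE3) (hCE4 : S_CE4) :
    S_CE := by
  intro F E _ _ _ _ n φ hφ κ S hc
  by_cases hs : ss κ S = 0
  · refine sum_eq_zero fun j _ => mul_eq_zero_of_right _ (sum_eq_zero fun a ha => ?_)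
    rw [phb, dif_pos (by rw [(hCE3 F E n κ S j a ha).1, hs, eval_zero])]
  obtain ⟨w, hw, ad⟩ := hCE1 F E n κ S hc hs
  obtain ⟨Z, hZ⟩ := (hADM F n).2.1 w ad
  have h0 := hφ w Z ad hZ
  let := (thB F κ S).toRingHom.toAlgebra
  have : Module.Finite (AS F (n + 1)) (Localization.Away (ss κ S)) := (hCE0 F E n κ S hc).2
  have : IsDomain (Localization.Away (ss κ S)) :=
    IsLocalization.isDomain_localization (powers_le_nonZeroDivisors_of_noZeroDivisors hs)
  have hk : RingHom.ker (algebraMap (AS F (n + 1)) (Localization.Away (ss κ S))) = w.asIdeal :=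
    hw.symm
  obtain ⟨δ, -, hδ⟩ := hGFIN (AS F (n + 1)) (Localization.Away (ss κ S)) (by rw [hk, ad.dim])
  have h1 : ∀ j : Fin (n + 2), (Module.finrank F E : ℚ) *
      ∑ a ∈ S j, phb φ (fun i => (pp κ S (j.succAbove i)).eval a) =
      δ * ∑ z ∈ Z, φ z * (ln (w.asIdeal.map (fm F j.succAbove)) z : ℚ) := fun j => by
    rw [← hCE4 F E n κ S j φ Z (hc.ne j) (fun z hz => hZ.mem j z (hw ▸ hz)), mul_sum]
    refine sum_congr rfl fun z _ => ?_
    have e := hδ (tt F j) (fun h => ad.one j (hk ▸ h))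
      (PrimeSpectrum.comap (fm F j.succAbove).toRingHom z)
    rw [hk, ← (hFM F n n).2 j, ← (hLS F _ _ (fm F j.succAbove) w.asIdeal z
      (((hFM F n (n + 1)).1 j.succAbove).2 Fin.succAbove_right_injective).2).1] at e
    have e' := congrArg (Nat.cast : ℕ → ℚ) e
    rw [Nat.cast_mul] at e'
    exact (congrArg (φ z * ·) e').trans (mul_left_comm _ _ _)
  have h2 : (Module.finrank F E : ℚ) ≠ 0 := Nat.cast_ne_zero.2 Module.finrank_pos.ne'
  refine (mul_eq_zero.1 ?_).resolve_left h2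
  rw [← mul_zero (δ : ℚ), ← h0, mul_sum]
  simp only [mul_left_comm (Module.finrank F E : ℚ), h1]
  simp only [mul_sum]
  rw [sum_comm]
  exact sum_congr rfl fun z _ => sum_congr rfl fun j _ => by ring

end Pool.Agent.P.MP_12d50c_ag.BT
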