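import Pool.Agent.P.MP_12d50c_ag.BT.IfaceD

/-! Step CE0. -/

set_option autoImplicit false
set_option linter.unusedSectionVars false

namespace Pool.Agent.P.MP_12d50c_ag.BT

open Finset Function Polynomial CategoryTheory AlgebraicGeometry
open scoped TensorProduct

theorem int_ce0 {F E A B : Type} [Field F] [Field E] [Algebra F E] [FiniteDimensional F E]
    [CommRing A] [CommRing B] [Nontrivial B] [Algebra F A] [Algebra F B] [Algebra A B]
    [IsScalarTower F A B] (φ : E[X] →ₐ[F] B) {s P : E[X]} {v : B} {κ : E} (τ : A)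
    (hv : φ s * v = 1) (hP : P.Monic) (hd : s.degree < P.degree) (hκ : κ ≠ 0)
    (hτ : algebraMap A B τ = φ (C κ * P) * v) (p : E[X]) : IsIntegral A (φ p) := by
  have hC : ∀ e : E, IsIntegral A (φ (C e)) := fun e =>
    ((Algebra.IsIntegral.isIntegral (R := F) e).map (φ.comp (CAlgHom (R := F)))).tower_top
  let ψ : E →+* integralClosure A B :=
    ((φ : E[X] →+* B).comp C).codRestrict (integralClosure A B) hC
  have hψ : ∀ q : E[X], eval₂ (algebraMap (integralClosure A B) B) (φ X) (q.map ψ) = φ q :=
    fun q => by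
      rw [eval₂_map]
      exact ((hom_eval₂ q C (φ : E[X] →+* B) X).symm.trans (by rw [eval₂_C_X]; rfl))
  have hX : IsIntegral (integralClosure A B) (φ X) := by
    refine ⟨P.map ψ - C (ψ κ⁻¹ * algebraMap A _ τ) * s.map ψ, (hP.map ψ).sub_of_left ?_, ?_⟩
    · rw [hP.degree_map, ← smul_eq_C_mul]
      exact ((degree_smul_le _ _).trans degree_map_le).trans_lt hd
    · rw [eval₂_sub, eval₂_mul, eval₂_C, hψ, hψ, map_mul]
      change φ P - φ (C κ⁻¹) * algebraMap A B τ * φ s = 0
      have h1 : φ (C κ⁻¹) * φ (C κ) = 1 := by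
        rw [← map_mul, ← C_mul, inv_mul_cancel₀ hκ, C_1, map_one]
      rw [hτ, map_mul]
      linear_combination (-φ P) * h1 - φ (C κ⁻¹) * φ (C κ) * φ P * hv
  have hX' : IsIntegral A (φ X) := isIntegral_trans _ hX
  induction p using Polynomial.induction_on' with
  | add p q hp hq => rw [map_add]; exact hp.add hq
  | monomial k e => rw [← C_mul_X_pow_eq_monomial, map_mul, map_pow]; exact (hC e).mul (hX'.pow k)

theorem p_CE0 :
    S_CE0 := by
  intro F E _ _ _ _ n κ S h
  have hco : ∀ j j', j ≠ j' → IsCoprime (pp κ S j) (pp κ S j') := fun j j' hj => by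
    unfold pp
    rw [isCoprime_mul_unit_left_left (isUnit_C.2 (h.ne j).isUnit),
      isCoprime_mul_unit_left_right (isUnit_C.2 (h.ne j').isUnit)]
    refine IsCoprime.prod_left fun a ha => IsCoprime.prod_right fun b hb =>
      isCoprime_X_sub_C_of_isUnit_sub (sub_ne_zero.2 fun e => ?_).isUnit
    exact disjoint_left.1 (h.disj j j' hj) ha (e ▸ hb)
  refine ⟨hco, ?_⟩
  let _ : Algebra (AS F (n + 1)) (Localization.Away (ss κ S)) := (thB F κ S).toRingHom.toAlgebra
  have : IsScalarTower F (AS F (n + 1)) (Localization.Away (ss κ S)) :=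
    IsScalarTower.of_algebraMap_eq fun x => ((thB F κ S).commutes x).symm
  change Module.Finite (AS F (n + 1)) (Localization.Away (ss κ S))
  rcases subsingleton_or_nontrivial (Localization.Away (ss κ S)) with _ | _
  · infer_instance
  have ht : ∀ j, algebraMap (AS F (n + 1)) (Localization.Away (ss κ S)) (tt F j) =
      algebraMap E[X] _ (pp κ S j) * IsLocalization.Away.invSelf (ss κ S) := fun j => evA_tt ..
  obtain ⟨j, hj⟩ := h.deg
  have hm : (∏ a ∈ S j, (X - C a) : E[X]).Monic := monic_prod_X_sub_C _ _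
  have hp : ∀ p : E[X], IsIntegral (AS F (n + 1))
      (algebraMap E[X] (Localization.Away (ss κ S)) p) :=
    int_ce0 (IsScalarTower.toAlgHom F E[X] (Localization.Away (ss κ S))) (tt F j)
      (IsLocalization.Away.mul_invSelf (ss κ S)) hm
      (by rwa [degree_eq_natDegree hm.ne_zero, natDegree_finsetProd_X_sub_C_eq_card])
      (h.ne j) (ht j)
  have hv : IsIntegral (AS F (n + 1))
      (IsLocalization.Away.invSelf (S := Localization.Away (ss κ S)) (ss κ S)) := by
    obtain ⟨a, b, e⟩ := hco 0 1 Fin.zero_ne_one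
    have := ((hp a).mul (isIntegral_algebraMap (x := tt F 0))).add
      ((hp b).mul (isIntegral_algebraMap (x := tt F 1)))
    rwa [ht, ht, ← mul_assoc, ← mul_assoc, ← add_mul, ← map_mul, ← map_mul, ← map_add, e, map_one,
      one_mul] at this
  have : Algebra.IsIntegral (AS F (n + 1)) (Localization.Away (ss κ S)) := ⟨fun z => by
    obtain ⟨k, p, e⟩ := IsLocalization.Away.surj (ss κ S) z
    have : z = algebraMap E[X] _ p * IsLocalization.Away.invSelf (ss κ S) ^ k := by
      rw [← e, mul_assoc, ← mul_pow, IsLocalization.Away.mul_invSelf, one_pow, mul_one]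
    rw [this]
    exact (hp p).mul (hv.pow k)⟩
  have : Algebra.FiniteType F E[X] := Algebra.FiniteType.trans (S := E) inferInstance inferInstance
  have : Algebra.FiniteType F (Localization.Away (ss κ S)) :=
    Algebra.FiniteType.trans (S := E[X]) inferInstance
      (IsLocalization.finiteType_of_monoid_fg (Submonoid.powers (ss κ S)) _)
  have := Algebra.FiniteType.of_restrictScalars_finiteType F (AS F (n + 1))
    (Localization.Away (ss κ S))
  exact Algebra.IsIntegral.finite

end Pool.Agent.P.MP_12d50c_ag.BT
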