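import Pool.Agent.P.MP_12d50c_ag.BT.IfaceD

/-! Step CE1. -/

set_option autoImplicit false
set_option linter.unusedSectionVars false

namespace Pool.Agent.P.MP_12d50c_ag.BT

open Finset Function Polynomial CategoryTheory AlgebraicGeometry
open scoped TensorProduct

theorem dom_ce1 {E : Type} [Field E] {s : E[X]} (hs : s ≠ 0) : IsDomain (Localization.Away s) :=
  IsLocalization.isDomain_localization (powers_le_nonZeroDivisors_of_noZeroDivisors hs)

theorem inj_ce1 {E : Type} [Field E] {s : E[X]} (hs : s ≠ 0) :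
    Injective (algebraMap E[X] (Localization.Away s)) :=
  IsLocalization.injective _ (powers_le_nonZeroDivisors_of_noZeroDivisors hs)

theorem dim_ce1 {E : Type} [Field E] {s : E[X]} (hs : s ≠ 0) :
    ringKrullDim (Localization.Away s) = 1 := by
  have := dom_ce1 hs
  have : Algebra.FiniteType E (Localization.Away s) :=
    Algebra.FiniteType.trans (S := E[X]) inferInstance inferInstance
  have : FaithfulSMul E[X] (Localization.Away s) :=
    (faithfulSMul_iff_algebraMap_injective _ _).2 (inj_ce1 hs)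
  have : Algebra.IsAlgebraic E[X] (Localization.Away s) :=
    IsLocalization.isAlgebraic _ (Submonoid.powers s)
  obtain ⟨n, h1, h2⟩ := dim_eq_trdeg (k := E) (A := Localization.Away s)
  rw [← trdeg_add_eq E E[X] (A := Localization.Away s), trdeg_eq_zero (A := Localization.Away s),
    Polynomial.trdeg_of_isDomain, add_zero] at h2
  obtain rfl : 1 = n := by exact_mod_cast h2
  exact h1

theorem quot_ce1 {R B : Type} [CommRing R] [CommRing B] (f : R →+* B) (h : f.IsIntegral) :
    ringKrullDim (R ⧸ RingHom.ker f) = ringKrullDim B := by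
  let _ := (RingHom.kerLift f).toAlgebra
  have : Algebra.IsIntegral (R ⧸ RingHom.ker f) B :=
    ⟨RingHom.IsIntegral.tower_top (Ideal.Quotient.mk _) _ h⟩
  exact (ringKrullDim_eq_of_integral (RingHom.kerLift_injective f)).symm

theorem p_CE1 (hCE0 : S_CE0) :
    S_CE1 := by
  intro F E _ _ _ _ n κ S hC hs
  obtain ⟨hcop, hfin⟩ := hCE0 F E n κ S hC
  have := dom_ce1 hs
  have ht : ∀ j, thB F κ S (tt F j) =
      algebraMap E[X] _ (pp κ S j) * IsLocalization.Away.invSelf (ss κ S) := fun j => evA_tt ..
  have hu : IsUnit (IsLocalization.Away.invSelf (S := Localization.Away (ss κ S)) (ss κ S)) :=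
    IsUnit.of_mul_eq_one_right _ (IsLocalization.Away.mul_invSelf _)
  refine ⟨⟨RingHom.ker (thB F κ S), RingHom.ker_isPrime _⟩, rfl, ?_, fun j h => ?_,
    fun j j' hj => ?_⟩
  · exact (quot_ce1 (thB F κ S).toRingHom hfin.to_isIntegral).trans (dim_ce1 hs)
  · have h' : thB F κ S (tt F j) = 0 := h
    rw [ht, hu.mul_left_eq_zero, map_eq_zero_iff _ (inj_ce1 hs)] at h'
    exact mul_ne_zero (C_ne_zero.2 (hC.ne j))
      (Finset.prod_ne_zero_iff.2 fun a _ => X_sub_C_ne_zero a) h'
  · by_contra hne
    obtain ⟨M, hM, hle⟩ := Ideal.exists_le_maximal _ hne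
    let _ := (thB F κ S).toRingHom.toAlgebra
    have : Algebra.IsIntegral (AS F (n + 1)) (Localization.Away (ss κ S)) := ⟨hfin.to_isIntegral⟩
    obtain ⟨P, hP, e⟩ := Ideal.exists_ideal_over_prime_of_isIntegral_of_isDomain
      (S := Localization.Away (ss κ S)) M (le_sup_left.trans hle)
    have hm : ∀ i, tt F i ∈ M → algebraMap E[X] (Localization.Away (ss κ S)) (pp κ S i) ∈ P := by
      intro i hi
      rw [← e] at hi
      have h' : thB F κ S (tt F i) ∈ P := hi
      rwa [ht, Ideal.mul_unit_mem_iff_mem _ hu] at h'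
    obtain ⟨a, b, hab⟩ := (hcop j j' hj).map (algebraMap E[X] (Localization.Away (ss κ S)))
    refine hP.ne_top ((Ideal.eq_top_iff_one _).2 (hab ▸ P.add_mem (P.mul_mem_left _ (hm j ?_))
      (P.mul_mem_left _ (hm j' ?_))))
    · exact hle (Ideal.mem_sup_right (Ideal.subset_span (by simp)))
    · exact hle (Ideal.mem_sup_right (Ideal.subset_span (by simp)))

end Pool.Agent.P.MP_12d50c_ag.BT
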