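import Pool.Agent.P.MP_12d50c_ag.BT.IfaceD

/-! Step CE2. -/

set_option autoImplicit false
set_option linter.unusedSectionVars false

namespace Pool.Agent.P.MP_12d50c_ag.BT

open Finset Function Polynomial CategoryTheory AlgebraicGeometry
open scoped TensorProduct

theorem ex_ce2 (F : Type) {E : Type} [Field F] [Field E] [Algebra F E] (s : E[X]) (a : E)
    (h : s.eval a ≠ 0) : ∃ χ : Localization.Away s →ₐ[F] E,
      (∀ p : E[X], χ (algebraMap E[X] _ p) = p.eval a) ∧
      RingHom.ker χ = Ideal.span {algebraMap E[X] (Localization.Away s) (X - C a)} := by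
  have hu : ∀ y : Submonoid.powers s, IsUnit (((aeval a : E[X] →ₐ[E] E).restrictScalars F) y) := by
    rintro ⟨_, n, rfl⟩
    simpa using (pow_ne_zero n h).isUnit
  have e : ∀ p : E[X], IsLocalization.liftAlgHom (S := Localization.Away s) hu
      (algebraMap E[X] _ p) = p.eval a := fun p => by
    rw [IsLocalization.liftAlgHom_apply, IsLocalization.lift_eq]
    simp
  refine ⟨_, e, le_antisymm (fun x hx => ?_) ?_⟩
  · obtain ⟨⟨p, y⟩, hp⟩ := IsLocalization.surj (Submonoid.powers s) x
    have k := e p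
    rw [← hp, map_mul, RingHom.mem_ker.1 hx, zero_mul] at k
    rw [Ideal.mem_span_singleton,
      ← (IsLocalization.map_units (Localization.Away s) y).dvd_mul_right, hp]
    exact map_dvd _ (dvd_iff_isRoot.2 k.symm)
  · rw [Ideal.span_singleton_le_iff_mem, RingHom.mem_ker, e]
    simp

theorem p_CE2 :
    S_CE2 := by
  intro F E _ _ _ s c T u hc hu
  classical
  choose χ h1 h2 using fun a : {a // a ∈ T ∧ s.eval a ≠ 0} => ex_ce2 F s a.1 a.2.2
  have fin : Finite {a // a ∈ T ∧ s.eval a ≠ 0} :=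
    (T.finite_toSet.subset fun a (h : a ∈ T ∧ s.eval a ≠ 0) => h.1).to_subtype
  have := Fintype.ofFinite {a // a ∈ T ∧ s.eval a ≠ 0}
  have cop : ∀ a b : {a // a ∈ T ∧ s.eval a ≠ 0}, a ≠ b →
      IsCoprime (algebraMap E[X] (Localization.Away s) (X - C a.1))
        (algebraMap E[X] (Localization.Away s) (X - C b.1)) := fun a b n =>
    (isCoprime_X_sub_C_of_isUnit_sub (sub_ne_zero.2 fun e => n (Subtype.ext e)).isUnit).map _
  have sur : Function.Surjective (LinearMap.pi fun a => (RingHom.ker (χ a)).mkQ) :=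
    Ideal.pi_mkQ_surjective fun a b n => by
      simp only [Function.onFun, h2]
      exact (Ideal.isCoprime_span_singleton_iff _ _).2 (cop a b n)
  refine ⟨χ, fun a => ⟨fun x => ⟨_, (h1 a (C x)).trans eval_C⟩, h1 a⟩,
    ⟨(Submodule.quotEquivOfEq _ _ ?_).trans (LinearMap.quotKerEquivOfSurjective _ sur)⟩⟩
  have u1 : IsUnit (algebraMap E[X] (Localization.Away s) (C c)) := (isUnit_C.2 hc.isUnit).map _
  have u2 : IsUnit (∏ a ∈ T.filter (fun a => ¬s.eval a ≠ 0),
      algebraMap E[X] (Localization.Away s) (X - C a)) := by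
    refine Finset.prod_induction _ IsUnit (fun _ _ => IsUnit.mul) isUnit_one fun a ha => ?_
    exact isUnit_of_dvd_unit (map_dvd _ (dvd_iff_isRoot.2 (not_not.1 (mem_filter.1 ha).2)))
      (IsLocalization.Away.algebraMap_isUnit s)
  rw [LinearMap.ker_pi]
  simp only [Submodule.ker_mkQ, h2]
  rw [Ideal.iInf_span_singleton cop, Ideal.span_singleton_mul_right_unit hu, map_mul,
    Ideal.span_singleton_mul_left_unit u1, map_prod,
    ← prod_filter_mul_prod_filter_not T (fun a => s.eval a ≠ 0),
    Ideal.span_singleton_mul_right_unit u2,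
    prod_subtype (p := fun a => a ∈ T ∧ s.eval a ≠ 0) _ fun a => mem_filter]

end Pool.Agent.P.MP_12d50c_ag.BT
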