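import Pool.Agent.P.MP_12d50c_ag.BT.IfaceD

/-! Step CE3. -/

set_option autoImplicit false
set_option linter.unusedSectionVars false

namespace Pool.Agent.P.MP_12d50c_ag.BT

open Finset Function Polynomial CategoryTheory AlgebraicGeometry
open scoped TensorProduct

theorem p_CE3 (hFM : S_FM) :
    S_CE3 := by
  intro F E _ _ _ n κ S j a ha
  have h0 : (pp κ S j).eval a = 0 := by
    rw [pp, eval_mul, eval_prod, prod_eq_zero ha (by simp), mul_zero]
  have h1 : ∑ i, (pp κ S (j.succAbove i)).eval a = (ss κ S).eval a := by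
    rw [ss, eval_finsetSum, Fin.sum_univ_succAbove _ j, h0, zero_add]
  refine ⟨h1, fun h χ hχ => ?_⟩
  have h2 : χ (IsLocalization.Away.invSelf (ss κ S)) = ((ss κ S).eval a)⁻¹ := by
    refine eq_inv_of_mul_eq_one_right ?_
    rw [← hχ, ← map_mul, IsLocalization.Away.mul_invSelf, map_one]
  obtain ⟨f1, f2⟩ := (hFM F n (n + 1)).1 j.succAbove
  have h3 : χ.comp (thB F κ S) =
      (evA F (fun i => (pp κ S (j.succAbove i)).eval a / ∑ i, (pp κ S (j.succAbove i)).eval a)
        (by rw [← sum_div, div_self h])).comp (fm F j.succAbove) := by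
    refine as_ext fun i => ?_
    rw [AlgHom.comp_apply, AlgHom.comp_apply, thB, evA_tt, map_mul, hχ, h2]
    rcases Fin.eq_self_or_eq_succAbove j i with rfl | ⟨i', rfl⟩
    · rw [h0, zero_mul, f1 _ (by simp), map_zero]
    · rw [(f2 Fin.succAbove_right_injective).1, evA_tt, h1, div_eq_mul_inv]
  ext x
  have h4 := DFunLike.congr_fun h3 x
  rw [AlgHom.comp_apply, AlgHom.comp_apply] at h4
  rw [Ideal.mem_comap, Ideal.mem_comap, RingHom.mem_ker, h4]
  exact Iff.rfl

end Pool.Agent.P.MP_12d50c_ag.BT
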