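import Pool.Agent.P.MP_12d50c_ag.BT.IfaceD

/-! Step CE4. -/

set_option autoImplicit false
set_option linter.unusedSectionVars false

namespace Pool.Agent.P.MP_12d50c_ag.BT

open Finset Function Polynomial CategoryTheory AlgebraicGeometry
open scoped TensorProduct

theorem toNat_sum_ce4 {ι : Type} (s : Finset ι) (g : ι → ℕ∞) (h : ∀ a ∈ s, g a ≠ ⊤) :
    (∑ a ∈ s, g a).toNat = ∑ a ∈ s, (g a).toNat := by
  have e : ∑ a ∈ s, g a = ((∑ a ∈ s, (g a).toNat : ℕ) : ℕ∞) := by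
    rw [Nat.cast_sum]
    exact sum_congr rfl fun a ha => (ENat.natCast_toNat (h a ha)).symm
  rw [e, ENat.toNat_natCast]

theorem abs_ce4 (hLMA : S_LMA) (hLRES : S_LRES) (hLS : S_LS) (F R B E T : Type) [Field F]
    [CommRing R] [CommRing B] [Field E] [CommRing T] [Algebra F R] [Algebra F B] [Algebra F E]
    [Algebra F T] [Algebra R B] [IsScalarTower F R B] [FiniteDimensional F E]
    (f : R →ₐ[F] T) (hf : Surjective f) (ι : Type) [Fintype ι] (χ : ι → B →ₐ[F] E)
    (hχ : ∀ a, Surjective (χ a)) (J : Ideal B) (e : (B ⧸ J) ≃ₗ[B] ∀ a, B ⧸ RingHom.ker (χ a))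
    (P : ι → PrimeSpectrum T)
    (hP : ∀ a, (RingHom.ker (χ a)).comap (algebraMap R B) = (P a).asIdeal.comap f)
    (Z : Finset (PrimeSpectrum T)) (hZ : ∀ a, P a ∈ Z) (φ : PrimeSpectrum T → ℚ) :
    ∑ z ∈ Z, φ z * (LL R (B ⧸ J) (PrimeSpectrum.comap f.toRingHom z)).toNat =
      Module.finrank F E * ∑ a, φ (P a) / Module.finrank F (T ⧸ (P a).asIdeal) := by
  have h1 : ∀ q : PrimeSpectrum R, (LL R (B ⧸ J) q).toNat =
      ∑ a, (LL R (B ⧸ RingHom.ker (χ a)) q).toNat := by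
    intro q
    rw [(hLMA R q).1 _ _ (e.restrictScalars R), (hLMA R q).2.2.1,
      toNat_sum_ce4 _ _ fun a _ => (hLRES F R B E (χ a) q (hχ a)).1]
  simp only [h1, Nat.cast_sum, mul_sum]
  rw [sum_comm]
  refine sum_congr rfl fun a _ => ?_
  rw [sum_eq_single_of_mem (P a) (hZ a)]
  · have h2 := (hLRES F R B E (χ a) (PrimeSpectrum.comap f.toRingHom (P a)) (hχ a)).2.1
      (hP a).symm
    rw [(hLS F R T f ⊥ (P a) hf).2] at h2
    have h3 : 0 < Module.finrank F E := Module.finrank_pos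
    have h4 : Module.finrank F (T ⧸ (P a).asIdeal) ≠ 0 := by
      intro h0
      rw [h0, mul_zero] at h2
      omega
    have h5 : (Module.finrank F (T ⧸ (P a).asIdeal) : ℚ) ≠ 0 := by exact_mod_cast h4
    rw [← h2]
    push_cast
    field_simp
  · intro z _ hz
    rw [(hLRES F R B E (χ a) (PrimeSpectrum.comap f.toRingHom z) (hχ a)).2.2]
    · simp
    · intro h
      rw [hP a] at h
      exact hz (PrimeSpectrum.ext (Ideal.comap_injective_of_surjective f hf h))

theorem p_CE4 (hFM : S_FM) (hLMA : S_LMA) (hLRES : S_LRES) (hLS : S_LS) (hCE2 : S_CE2) (hCE3 : S_CE3) :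
    S_CE4 := by
  intro F E _ _ _ _ n κ S j φ Z hκ hZ
  classical
  let _ := (thB F κ S).toRingHom.toAlgebra
  have hst : IsScalarTower F (AS F (n + 1)) (Localization.Away (ss κ S)) :=
    IsScalarTower.of_algebraMap_eq fun x => ((thB F κ S).commutes x).symm
  have hu : IsUnit (IsLocalization.Away.invSelf (S := Localization.Away (ss κ S)) (ss κ S)) :=
    IsUnit.of_mul_eq_one_right _ (IsLocalization.Away.mul_invSelf (ss κ S))
  obtain ⟨χ, hχ, ⟨e⟩⟩ := hCE2 F E (ss κ S) (κ j) (S j) _ hκ hu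
  have ht : thB F κ S (tt F j) = algebraMap E[X] (Localization.Away (ss κ S))
      (C (κ j) * ∏ a ∈ S j, (X - C a)) * IsLocalization.Away.invSelf (ss κ S) := evA_tt ..
  have hf : Surjective (fm F j.succAbove : AS F (n + 1) →ₐ[F] AS F n) :=
    (((hFM F n (n + 1)).1 j.succAbove).2 Fin.succAbove_right_injective).2
  have hne : ∀ a : {a // a ∈ S j ∧ (ss κ S).eval a ≠ 0},
      ∑ i, (pp κ S (j.succAbove i)).eval a.1 ≠ 0 := fun a => by
    rw [(hCE3 F E n κ S j a.1 a.2.1).1]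
    exact a.2.2
  have hP : ∀ a : {a // a ∈ S j ∧ (ss κ S).eval a ≠ 0},
      (RingHom.ker (χ a)).comap (thB F κ S) =
        (pt F _ (hne a)).asIdeal.comap (fm F j.succAbove) := fun a =>
    (hCE3 F E n κ S j a.1 a.2.1).2 (hne a) (χ a) (hχ a).2
  have hfin : Fintype {a // a ∈ S j ∧ (ss κ S).eval a ≠ 0} :=
    Fintype.subtype ((S j).filter fun a => (ss κ S).eval a ≠ 0) fun a => mem_filter
  have key := abs_ce4 hLMA hLRES hLS F (AS F (n + 1)) (Localization.Away (ss κ S)) E (AS F n)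
    (fm F j.succAbove) hf _ χ (fun a => (hχ a).1) _ e (fun a => pt F _ (hne a)) hP Z
    (fun a => hZ _ (by
      rw [Ideal.map_le_iff_le_comap, ← hP a]
      exact Ideal.ker_le_comap _)) φ
  rw [ht, key]
  refine congrArg _ ?_
  rw [← sum_filter_of_ne (p := fun a => (ss κ S).eval a ≠ 0),
    sum_subtype ((S j).filter fun a => (ss κ S).eval a ≠ 0)
      (p := fun a => a ∈ S j ∧ (ss κ S).eval a ≠ 0) (fun a => mem_filter)]
  · refine sum_congr rfl fun a _ => ?_
    rw [phb, dif_neg (hne a)]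
  · intro a ha h0 h1
    apply h0
    rw [phb, dif_pos]
    rw [(hCE3 F E n κ S j a ha).1]
    exact h1

end Pool.Agent.P.MP_12d50c_ag.BT
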