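import Pool.Agent.P.MP_12d50c_ag.BT.IfaceA

/-! Step CL. -/

set_option autoImplicit false
set_option linter.unusedSectionVars false

namespace Pool.Agent.P.MP_12d50c_ag.BT

open Finset Function

theorem p_CL :
    S_CL := by
  intro X V _ _ _ L H Z w hL hZ
  have key : ∀ v, ∑ z ∈ Z, w (L z) = ∑ z ∈ Z, w (L z + v) := fun v => by
    obtain ⟨y, hy, rfl⟩ := hL v
    refine (Finset.sum_nbij' (fun z => z + y) (fun z => z + -y) (fun z hz => hZ z hz y hy)
      (fun z hz => hZ z hz _ (H.neg_mem hy)) (fun z _ => by simp) (fun z _ => by simp)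
      (fun z _ => by rw [map_add])).symm
  calc (Fintype.card V : ℝ) * ∑ z ∈ Z, w (L z) = ∑ v : V, ∑ z ∈ Z, w (L z + v) := by
        rw [← Finset.sum_congr rfl fun v _ => key v]
        simp
    _ = ∑ z ∈ Z, ∑ v, w v := by
        rw [Finset.sum_comm]
        exact Finset.sum_congr rfl fun z _ => Equiv.sum_comp (Equiv.addLeft (L z)) w
    _ = _ := by simp

end Pool.Agent.P.MP_12d50c_ag.BT
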