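import Pool.Agent.P.MP_12d50c_ag.BT.IfaceB

/-! Step COMBI. -/

set_option autoImplicit false
set_option linter.unusedSectionVars false

namespace Pool.Agent.P.MP_12d50c_ag.BT

open Finset Function Filter

open Classical in
theorem pos_combi (hC1 : S_C1) {M : Type} [AddCommGroup M] (Y : VS M) (d n : ℕ)
    (P : (Fin n → Y.H) → Prop) (h0 : ∀ h, Y.Ovl d h → P h) (h1 : Y.R1 P) (h3 : Y.R3 d P) (N : ℕ) :
    ∀ h : Fin n → Y.H, (∀ i v, 0 ≤ h i v) →
      (univ.filter fun S : Finset (Fin n) => S.card = d + 1 ∧ ¬ Y.NoC S h).card ≤ N → P h := by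
  have base : ∀ h : Fin n → Y.H, (∀ i v, 0 ≤ h i v) →
      (∀ S : Finset (Fin n), S.card = d + 1 → Y.NoC S h) → P h := fun h hp hS => by
    refine h0 h fun v => ?_
    by_contra hc
    rw [not_le, Set.ncard_eq_toFinset_card'] at hc
    obtain ⟨S, hs, hcard⟩ := exists_subset_card_eq (Nat.succ_le_of_lt hc)
    obtain ⟨i, hi, hn⟩ := hS S hcard v
    have hne : h i v ≠ 0 := by simpa using hs hi
    exact hn (lt_of_le_of_ne (hp i v) hne.symm)
  induction N with
  | zero =>
    intro h hp hN
    refine base h hp fun S hS => ?_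
    by_contra hc
    have hm : S ∈ univ.filter fun S : Finset (Fin n) => S.card = d + 1 ∧ ¬ Y.NoC S h :=
      mem_filter.2 ⟨mem_univ _, hS, hc⟩
    rw [card_eq_zero.1 (Nat.le_zero.1 hN)] at hm
    exact notMem_empty _ hm
  | succ N ih =>
    intro h hp hN
    by_cases hall : ∀ S : Finset (Fin n), S.card = d + 1 → Y.NoC S h
    · exact base h hp hall
    · simp only [not_forall] at hall
      obtain ⟨S, hS, hc⟩ := hall
      have hm : S ∈ univ.filter fun S : Finset (Fin n) => S.card = d + 1 ∧ ¬ Y.NoC S h :=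
        mem_filter.2 ⟨mem_univ _, hS, hc⟩
      refine h3 h S hS fun C hC => hC1 M Y n P S h h1 (fun h' hs hn => ?_) C h
        (fun i v => ⟨hp i v, id⟩) hC
      refine ih h' (fun i v => (hs i v).1) ?_
      have hsub : (univ.filter fun S : Finset (Fin n) => S.card = d + 1 ∧ ¬ Y.NoC S h') ⊆
          (univ.filter fun S : Finset (Fin n) => S.card = d + 1 ∧ ¬ Y.NoC S h).erase S := by
        intro T hT
        obtain ⟨-, hT1, hT2⟩ := mem_filter.1 hT
        refine mem_erase.2 ⟨fun e => hT2 (e ▸ hn), mem_filter.2 ⟨mem_univ _, hT1, fun hh => hT2 ?_⟩⟩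
        intro v
        obtain ⟨i, hi, hv⟩ := hh v
        exact ⟨i, hi, fun hpos => hv ((hs i v).2 hpos)⟩
      have c1 := card_le_card hsub
      rw [card_erase_of_mem hm] at c1
      omega

open Classical in
theorem p_COMBI (hC1 : S_C1) :
    S_COMBI := by
  intro M _ Y d n P h0 h1 h2 h3
  have key : ∀ (N : ℕ) (h : Fin n → Y.H),
      (univ.filter fun i => ¬ ∀ v, 0 ≤ h i v).card ≤ N → P h := by
    intro N
    induction N with
    | zero =>
      intro h hN
      refine pos_combi hC1 Y d n P h0 h1 h3 _ h (fun i => ?_) le_rfl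
      by_contra hc
      have hm : i ∈ univ.filter fun i => ¬ ∀ v, 0 ≤ h i v := mem_filter.2 ⟨mem_univ _, hc⟩
      rw [card_eq_zero.1 (Nat.le_zero.1 hN)] at hm
      exact notMem_empty _ hm
    | succ N ih =>
      intro h hN
      by_cases hall : ∀ i v, 0 ≤ h i v
      · exact pos_combi hC1 Y d n P h0 h1 h3 _ h hall le_rfl
      · rw [not_forall] at hall
        obtain ⟨j, hj⟩ := hall
        have hm : j ∈ univ.filter fun i => ¬ ∀ v, 0 ≤ h i v := mem_filter.2 ⟨mem_univ _, hj⟩
        have step : ∀ a : Y.H, (∀ v, 0 ≤ a v) → P (Function.update h j a) := fun a ha => by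
          refine ih _ ?_
          have hsub : (univ.filter fun i => ¬ ∀ v, 0 ≤ Function.update h j a i v) ⊆
              (univ.filter fun i => ¬ ∀ v, 0 ≤ h i v).erase j := by
            intro i hi
            have hi' := (mem_filter.1 hi).2
            have hne : i ≠ j := fun e => hi' (by subst e; simpa using ha)
            rw [Function.update_of_ne hne] at hi'
            exact mem_erase.2 ⟨hne, mem_filter.2 ⟨mem_univ _, hi'⟩⟩
          have c1 := card_le_card hsub
          rw [card_erase_of_mem hm] at c1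
          omega
        refine h2 h j (step _ fun v => ?_) (step _ fun v => ?_)
        · exact sub_nonneg.2 (inf_le_left (a := h j v) (b := 0))
        · exact neg_nonneg.2 (inf_le_right (a := h j v) (b := 0))
  exact fun h => key _ h le_rfl

end Pool.Agent.P.MP_12d50c_ag.BT
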