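import Pool.Agent.P.MP_12d50c_ag.BT.IfaceB

/-! Step CORE. -/

set_option autoImplicit false
set_option linter.unusedSectionVars false

namespace Pool.Agent.P.MP_12d50c_ag.BT

open Finset Function Filter

theorem p_CORE (hTB : S_TB) (hDEP : S_DEP) (hRR1 : S_RR1) (hRR2 : S_RR2) (hRR3 : S_RR3) (hCOMBI : S_COMBI) (hREAL : S_REAL) :
    S_CORE := by
  intro Ω _ k d n ω hk hn hω
  have H : ∀ h : Fin n → (vs Ω).H, (vs Ω).Cl d h :=
    hCOMBI _ (vs Ω) d n _ (fun h ho p 𝒜 e he hv => ⟨p, 𝒜, le_rfl, fun _ _ => rfl,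
      fun ω' hω' => hω' e he (by rw [funext hv]; exact ho)⟩) (hRR1 _ _ d n) (hRR2 _ _ d n)
      (hRR3 _ _ d n (hDEP Ω k d hk))
  ext x
  obtain ⟨p, 𝒜, -, -, h⟩ := H _ 0 (fun _ => ⟨{0}, singleton_nonempty _⟩)
    (fun i => ((x i, 0) : EE (MM Ω))) ⟨fun i s hs => (hs rfl).elim, fun s => by simp⟩ fun _ => rfl
  obtain ⟨G, hG⟩ := hREAL Ω k d n p 𝒜 hk
  have := h (ω.compLinearMap (lin (AddMonoidHom.id _) G).toIntLinearMap) fun e he ho => by
    have := hTB Ω k d (3 * d) n _ ω hk (by rwa [show 3 * d + d + 1 = 4 * d + 1 by ring]) hω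
      (fun i => Units.ne_zero _) (hG e he ho)
    simp only [lg_toMul] at this
    exact this
  simpa [lin_apply] using this

end Pool.Agent.P.MP_12d50c_ag.BT
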