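import Pool.Agent.P.MP_12d50c_ag.BT.IfaceD

/-! Step CST. -/

set_option autoImplicit false
set_option linter.unusedSectionVars false

namespace Pool.Agent.P.MP_12d50c_ag.BT

open Finset Function Polynomial CategoryTheory AlgebraicGeometry
open scoped TensorProduct

theorem gen_cst (R Ω : Type) [Field R] [Finite R] [Field Ω] [IsAlgClosed Ω] [Algebra R Ω] (d : ℕ)
    (h : Algebra.trdeg R Ω ≤ d) : Cst (algebraicClosure R Ω).toSubfield d := by
  classical
  refine ⟨fun S Q hS => ?_, ?_⟩
  · have : IsAlgClosed (algebraicClosure R Ω) :=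
      (algebraicClosure.isAlgClosure R Ω).isAlgClosed
    obtain ⟨T, hT⟩ := Infinite.exists_subset_card_eq (algebraicClosure R Ω) Q
    let U : Finset Ω := S ∪ T.map (Embedding.subtype _)
    have hU : ∀ x ∈ U, x ∈ algebraicClosure R Ω := by
      intro x hx
      rcases mem_union.1 hx with h1 | h1
      · exact hS x h1
      · obtain ⟨y, _, rfl⟩ := Finset.mem_map.1 h1
        exact y.2
    have hfd : FiniteDimensional R (IntermediateField.adjoin R (U : Set Ω)) :=
      IntermediateField.finiteDimensional_adjoin fun x hx =>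
        mem_algebraicClosure_iff'.1 (hU x hx)
    have hfin : Finite (IntermediateField.adjoin R (U : Set Ω)) := Module.finite_of_finite R
    have hsub : ∀ x ∈ U, x ∈ IntermediateField.adjoin R (U : Set Ω) :=
      fun x hx => IntermediateField.subset_adjoin R _ hx
    refine ⟨(IntermediateField.adjoin R (U : Set Ω)).toSubfield, hfin, ?_,
      fun x hx => hsub x (mem_union_left _ hx), ?_⟩
    · exact (IntermediateField.adjoin_le_iff.2 fun x hx => hU x hx :
        IntermediateField.adjoin R (U : Set Ω) ≤ algebraicClosure R Ω)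
    · have h1 : Nat.card T ≤ Nat.card (IntermediateField.adjoin R (U : Set Ω)) := by
        refine Nat.card_le_card_of_injective
          (fun y => ⟨(y.1 : Ω), hsub _ (mem_union_right _ (mem_map_of_mem _ y.2))⟩) ?_
        intro y z hyz
        have h2 : ((y.1 : algebraicClosure R Ω) : Ω) = z.1 :=
          congrArg (fun w : IntermediateField.adjoin R (U : Set Ω) => (w : Ω)) hyz
        exact Subtype.ext (Subtype.ext h2)
      rw [Nat.card_eq_fintype_card, Fintype.card_coe, hT] at h1
      exact h1
  · have h1 := trdeg_add_eq R (algebraicClosure R Ω) (A := Ω)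
    exact (le_add_self.trans h1.le).trans h

theorem p_CST :
    S_CST := by
  intro p _ F _ _ d h
  refine ⟨_, gen_cst (ZMod p) (AlgebraicClosure F) d ?_⟩
  have h1 := trdeg_add_eq (ZMod p) F (A := AlgebraicClosure F)
  rw [trdeg_eq_zero (R := F) (A := AlgebraicClosure F), add_zero] at h1
  exact h1 ▸ h

end Pool.Agent.P.MP_12d50c_ag.BT
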