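import Pool.Agent.P.MP_12d50c_ag.BT.IfaceB

/-! Step CV. -/

set_option autoImplicit false
set_option linter.unusedSectionVars false

namespace Pool.Agent.P.MP_12d50c_ag.BT

open Finset Function Filter

section
variable {M : Type} [AddCommGroup M] (Y : VS M) {n : ℕ} {h : Fin n → Y.H} {j j' : Fin n}

lemma swap_cv (e : j ≠ j') (a a' : Y.H) : Y.up2 h j j' a a' = Y.up2 h j' j a' a :=
  update_comm e _ _ _

lemma sub_cv (h0 : ∀ i v, 0 ≤ h i v) {a a' : Y.H} (ha : ∀ v, 0 ≤ a v ∧ a v ≤ h j v)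
    (ha' : ∀ v, 0 ≤ a' v ∧ a' v ≤ h j' v) : Y.Sub (Y.up2 h j j' a a') h := by
  intro i v
  unfold VS.up2
  by_cases c : i = j'
  · subst c
    rw [update_self]
    exact ⟨(ha' v).1, fun c => c.trans_le (ha' v).2⟩
  rw [update_of_ne c]
  by_cases c' : i = j
  · subst c'
    rw [update_self]
    exact ⟨(ha v).1, fun c => c.trans_le (ha v).2⟩
  rw [update_of_ne c']
  exact ⟨h0 i v, id⟩

lemma cov_cv {S : Finset (Fin n)} (e : j ≠ j') (hj : j ∈ S) (hj' : j' ∈ S)
    {C : List (Fin n → ℤ)} (hC : Y.Cov S h C) :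
    Y.Cov S (Y.up2 h j j' (h j - h j ⊓ h j') (h j ⊓ h j'))
      (C.map fun c => update c j' (c j + c j')) := by
  refine ⟨fun c₀ hc₀ => ?_, fun v hv => ?_⟩
  · obtain ⟨c, hc, rfl⟩ := List.mem_map.1 hc₀
    refine ⟨fun z => (hC.1 c hc).1 (funext fun i => ?_), fun i hi => ?_⟩
    · have z1 := congrFun z j
      have z2 := congrFun z j'
      have z3 := congrFun z i
      rw [update_of_ne e] at z1
      rw [update_self, z1, Pi.zero_apply, zero_add] at z2
      by_cases c : i = j'
      · rw [c]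
        exact z2
      · rwa [update_of_ne c] at z3
    · rw [update_of_ne fun c : i = j' => hi (c ▸ hj')]
      exact (hC.1 c hc).2 i hi
  · have a1 := hv j hj
    have a2 := hv j' hj'
    unfold VS.up2 at a1 a2 hv ⊢
    rw [update_of_ne e, update_self] at a1
    rw [update_self] at a2
    change 0 < h j v - h j v ⊓ h j' v at a1
    change 0 < h j v ⊓ h j' v at a2
    have a3 : h j v ⊓ h j' v = h j' v := by
      rcases le_total (h j v) (h j' v) with c | c
      · rw [inf_eq_left.2 c, sub_self] at a1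
        exact absurd a1 (lt_irrefl _)
      · exact inf_eq_right.2 c
    obtain ⟨c, hc, z⟩ := hC.2 v fun i hi => by
      by_cases c : i = j'
      · exact c ▸ a2.trans_le inf_le_right
      by_cases c' : i = j
      · exact c' ▸ a2.trans_le inf_le_left
      have := hv i hi
      rwa [update_of_ne c, update_of_ne c'] at this
    refine ⟨_, List.mem_map_of_mem hc, ?_⟩
    have m : j ∈ univ.erase j' := mem_erase.2 ⟨e, mem_univ _⟩
    rw [← add_sum_erase _ _ (mem_univ j'), ← add_sum_erase _ _ m] at z ⊢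
    rw [← z, update_self, update_self, update_of_ne e, update_of_ne e, update_self,
      ← add_assoc, ← add_assoc]
    congr 1
    · change (c j + c j') • (h j v ⊓ h j' v) + c j • (h j v - h j v ⊓ h j' v) = _
      rw [a3, add_smul, smul_sub]
      abel
    · refine sum_congr rfl fun i hi => ?_
      have c1 := (mem_erase.1 hi).1
      have c2 := (mem_erase.1 (mem_erase.1 hi).2).1
      rw [update_of_ne c2, update_of_ne c2, update_of_ne c1]

end

theorem p_CV :
    S_CV := by
  intro M _ Y n S h j j' e hj hj' h0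
  have m0 : ∀ v, 0 ≤ (h j ⊓ h j') v := fun v => le_inf (h0 j v) (h0 j' v)
  have p1 : ∀ v, 0 ≤ (h j - h j ⊓ h j') v ∧ (h j - h j ⊓ h j') v ≤ h j v := fun v =>
    ⟨sub_nonneg.2 inf_le_left, sub_le_self _ (m0 v)⟩
  have p2 : ∀ v, 0 ≤ (h j' - h j ⊓ h j') v ∧ (h j' - h j ⊓ h j') v ≤ h j' v := fun v =>
    ⟨sub_nonneg.2 inf_le_right, sub_le_self _ (m0 v)⟩
  refine ⟨sub_cv Y h0 p1 p2, sub_cv Y h0 p1 fun v => ⟨m0 v, inf_le_right⟩,
    sub_cv Y h0 (fun v => ⟨m0 v, inf_le_left⟩) p2, fun v => ?_,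
    fun C hC => ⟨cov_cv Y e hj hj' hC, ?_⟩⟩
  · unfold VS.up2
    rcases le_total (h j v) (h j' v) with c | c
    · refine ⟨j, hj, ?_⟩
      rw [update_of_ne e, update_self]
      change ¬ 0 < h j v - h j v ⊓ h j' v
      rw [inf_eq_left.2 c, sub_self]
      exact lt_irrefl _
    · refine ⟨j', hj', ?_⟩
      rw [update_self]
      change ¬ 0 < h j' v - h j v ⊓ h j' v
      rw [inf_eq_right.2 c, sub_self]
      exact lt_irrefl _
  · have := cov_cv Y e.symm hj' hj hC
    rw [swap_cv Y e.symm, inf_comm] at this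
    simpa only [add_comm] using this

end Pool.Agent.P.MP_12d50c_ag.BT
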