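import Pool.Agent.P.MP_12d50c_ag.BT.IfaceB

/-! Step DATB. -/

set_option autoImplicit false
set_option linter.unusedSectionVars false

namespace Pool.Agent.P.MP_12d50c_ag.BT

open Finset Function Filter

section

variable {Ω : Type} [Field Ω] {n : ℕ} (k : Subfield Ω) (f : Fin n → Ω)

theorem upd_datb (e η : Fin n → Bool) (i : Fin n) (h : η i = false) :
    cc f e i * ∏ j, cc f η j = ∏ j, cc f (update η i (e i)) j := by
  rw [← mul_prod_erase univ _ (mem_univ i), ← mul_prod_erase univ _ (mem_univ i)]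
  have e1 : cc f η i = 1 := by simp [cc, h]
  have e2 : cc f (update η i (e i)) i = cc f e i := by simp [cc]
  rw [e1, e2, one_mul]
  refine congrArg _ (prod_congr rfl fun j hj => ?_)
  simp [cc, update_of_ne (ne_of_mem_erase hj)]

theorem one_datb : ∏ j, cc f (fun _ => false) j = 1 := by simp [cc]

theorem base_datb (e : Fin n → Bool) (i : Fin n) (x : Ω) (hx : x ∈ sp k (Lam0 f i)) :
    cc f e i * x ∈ sp k (Lam f) := by
  induction hx using Submodule.span_induction with
  | mem x hx =>
    obtain ⟨η, h, rfl⟩ := mem_Lam0.1 hx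
    exact Submodule.subset_span (mem_Lam.2 ⟨_, (upd_datb f e η i h).symm⟩)
  | zero => simp
  | add x y _ _ hx hy => rw [mul_add]; exact add_mem hx hy
  | smul r x _ hx => rw [mul_smul_comm]; exact Submodule.smul_mem _ _ hx

theorem step_datb (m : ℕ) (e : Fin n → Bool) (i : Fin n) (x : Ω)
    (hx : x ∈ sp k (Lam0 f i) * sp k (Lam f) ^ m) : cc f e i * x ∈ sp k (Lam f) ^ (m + 1) := by
  refine Submodule.mul_induction_on hx (fun a ha b hb => ?_) fun a b ha hb => ?_
  · rw [← mul_assoc, pow_succ']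
    exact Submodule.mul_mem_mul (base_datb k f e i a ha) hb
  · rw [mul_add]; exact add_mem ha hb

end

theorem p_DATB (hWIT : S_WIT) :
    S_DATB := by
  intro Ω _ k d K n f hC hf hK
  obtain ⟨m, hm⟩ := hWIT Ω k d K n f hC hf hK
  have o1 : (1 : Ω) ∈ sp k (Lam f) := Submodule.subset_span (mem_Lam.2 ⟨_, one_datb f⟩)
  have o2 : ∀ i, (1 : Ω) ∈ sp k (Lam0 f i) := fun i =>
    Submodule.subset_span (mem_Lam0.2 ⟨_, rfl, one_datb f⟩)
  have o3 : ∀ c, (1 : Ω) ∈ sp k (Lam f) ^ c := fun c => by
    simpa using Submodule.pow_mem_pow _ o1 c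
  have fg : ∀ A : Finset Ω, (sp k A).FG := fun A => Submodule.fg_span A.finite_toSet
  refine ⟨fun i => sp k (Lam0 f i) * sp k (Lam f) ^ m, sp k (Lam f) ^ (2 * (m + 1)),
    fun i => (fg _).mul ((fg _).pow m), fun i h => ?_, (fg _).pow _, o3 _, fun e i => ?_,
    fun e i x hx y hy => ?_, hm⟩
  · have := Submodule.mul_mem_mul (o2 i) (o3 m)
    rw [h] at this
    simp at this
  · unfold cc
    split_ifs
    · exact hf i
    · exact one_ne_zero
  · have := Submodule.mul_mem_mul (step_datb k f m e i x hx) (step_datb k f m e i y hy)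
    rw [← pow_add, ← two_mul] at this
    have e1 : cc f e i ^ 2 * x * y = cc f e i * x * (cc f e i * y) := by ring
    rw [e1]
    exact this

end Pool.Agent.P.MP_12d50c_ag.BT
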