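import Pool.Agent.P.MP_12d50c_ag.BT.IfaceA

/-! Step DESC. -/

set_option autoImplicit false
set_option linter.unusedSectionVars false

namespace Pool.Agent.P.MP_12d50c_ag.BT

open Finset Function

theorem sup_desc {k R ι : Type} [Field k] [CommRing R] [Algebra k R] (T : Finset ι) (a : ι → R)
    (S : ι → Finset R) : ⨆ i ∈ T, ln1 k (a i) * sp k (S i) =
      Submodule.span k {w | ∃ i ∈ T, ∃ x ∈ S i, w = a i * x} := by
  refine le_antisymm (iSup₂_le fun i hi => ?_) (Submodule.span_le.2 ?_)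
  · rw [Submodule.span_mul_span]
    refine Submodule.span_mono ?_
    rintro _ ⟨_, rfl, x, hx, rfl⟩
    exact ⟨i, hi, x, hx, rfl⟩
  · rintro _ ⟨i, hi, x, hx, rfl⟩
    exact le_iSup₂ (f := fun i (_ : i ∈ T) => ln1 k (a i) * sp k (S i)) i hi
      (Submodule.mul_mem_mul (Submodule.mem_span_singleton_self _) (Submodule.subset_span hx))

theorem p_DESC (hDS0 : S_DS0) :
    S_DESC := by
  intro Ω _ k d n m E _ W V c hk D
  classical
  obtain ⟨SV, rfl⟩ := D.fgV
  choose S0 h0 using D.fgW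
  choose z hz hV using fun e (T : {T : Finset (Fin n) // T.card = m}) => D.gen e T.1 T.2
  obtain ⟨S, hS, hzS⟩ : ∃ S : Fin n → Finset Ω, (∀ i, W i = sp k (S i)) ∧
      ∀ e T i, z e T i ∈ S i := by
    refine ⟨fun i => S0 i ∪ univ.image fun p : E × _ => z p.1 p.2 i, fun i => ?_,
      fun e T i => mem_union_right _ (mem_image.2 ⟨(e, T), mem_univ _, rfl⟩)⟩
    rw [sp, coe_union, Submodule.span_union, h0, eq_comm, sup_eq_left, Submodule.span_le]
    intro x hx
    obtain ⟨p, -, rfl⟩ := mem_image.1 hx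
    exact hz _ _ _
  obtain rfl : W = fun i => sp k (S i) := funext hS
  obtain ⟨C, c0, c1, c2⟩ := ((hDS0 Ω k _ _ D.one).and ((Filter.eventually_all.2 fun e =>
    Filter.eventually_all.2 fun i => (Filter.eventually_all_finset (S i)).2 fun x hx =>
      (Filter.eventually_all_finset (S i)).2 fun y hy => hDS0 Ω k _ _
        (D.mul e i x (Submodule.subset_span hx) y (Submodule.subset_span hy))).and
    (Filter.eventually_all.2 fun e => Filter.eventually_all.2 fun T =>
      (Filter.eventually_all_finset SV).2 fun v hv => hDS0 Ω k _ _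
        (((hV e T).trans (sup_desc _ _ S).le) (Submodule.subset_span hv))))).exists
  refine ⟨SV.card, fun Q => ?_⟩
  obtain ⟨k₀, f1, -, f2, f3⟩ := hk.lf (C.image (↑)) Q fun x hx => by
    obtain ⟨a, -, rfl⟩ := mem_image.1 hx
    exact a.2
  have hC : ∀ a ∈ C, (a : Ω) ∈ k₀ := fun a ha => f2 _ (mem_image_of_mem _ ha)
  refine ⟨k₀, fun i => sp k₀ (S i), sp k₀ SV, f1, f3, finrank_span_finset_le_card SV,
    fun i => ⟨_, rfl⟩, fun i h => D.neW i (Submodule.span_eq_bot.2 (Submodule.span_eq_bot.1 h)),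
    ⟨_, rfl⟩, c0 k₀ hC, D.ne, fun e i x hx y hy => ?_, fun e T hT => ⟨z e ⟨T, hT⟩,
      fun i => Submodule.subset_span (hzS _ _ _), ?_⟩⟩
  · have : ln1 k₀ (c e i ^ 2) * sp k₀ (S i) * sp k₀ (S i) ≤ sp k₀ SV := by
      rw [Submodule.span_mul_span, Submodule.span_mul_span, Submodule.span_le]
      rintro _ ⟨_, ⟨_, rfl, x, hx, rfl⟩, y, hy, rfl⟩
      exact c1 e i x hx y hy k₀ hC
    exact this (Submodule.mul_mem_mul
      (Submodule.mul_mem_mul (Submodule.mem_span_singleton_self _) hx) hy)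
  · rw [sup_desc, Submodule.span_le]
    exact fun v hv => c2 e ⟨T, hT⟩ v hv k₀ hC

end Pool.Agent.P.MP_12d50c_ag.BT
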