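import Pool.Agent.P.MP_12d50c_ag.BT.IfaceA

/-! Step DET. -/

set_option autoImplicit false
set_option linter.unusedSectionVars false

namespace Pool.Agent.P.MP_12d50c_ag.BT

open Finset Function

theorem p_DET :
    S_DET := by
  intro K Z V _ _ _ _ _ _ L₀ L₁ h0
  classical
  obtain ⟨s, hs⟩ := L₀.exists_rightInverse_of_surjective (LinearMap.range_eq_top.2 h0)
  set A : V →ₗ[K] V := L₁ ∘ₗ s with hA
  have hmem : ∀ t ∈ {t : K | ¬ Surjective (L₀ + t • L₁)},
      -t⁻¹ ∈ (A.charpoly.roots.toFinset : Set K) := by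
    intro t ht
    have ht0 : t ≠ 0 := by
      rintro rfl
      exact ht (by simpa using h0)
    rw [mem_coe, Multiset.mem_toFinset, Polynomial.mem_roots A.charpoly_monic.ne_zero,
      Polynomial.IsRoot.def, LinearMap.eval_charpoly]
    by_contra hd
    have hu : IsUnit (algebraMap K (Module.End K V) (-t⁻¹) - A) :=
      (LinearMap.isUnit_iff_isUnit_det _).2 (isUnit_iff_ne_zero.2 hd)
    refine ht fun v => ?_
    obtain ⟨w, hw⟩ := ((Module.End.isUnit_iff _).1 hu).2 (-t⁻¹ • v)
    refine ⟨s w, ?_⟩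
    have h1 : L₀ (s w) = w := LinearMap.congr_fun hs w
    have h2 : A w = -t⁻¹ • w - -t⁻¹ • v := by
      rw [← hw]
      simp [Module.algebraMap_end_apply]
    have h3 : L₁ (s w) = A w := rfl
    rw [LinearMap.add_apply, LinearMap.smul_apply, h1, h3, h2, smul_sub, smul_smul, smul_smul,
      mul_neg, mul_inv_cancel₀ ht0]
    simp
  refine (Set.ncard_le_ncard_of_injOn (fun t => -t⁻¹) hmem
    (fun a _ b _ h => inv_injective (neg_injective h)) (finite_toSet _)).trans ?_
  rw [Set.ncard_coe_finset, ← A.charpoly_natDegree]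
  exact (Multiset.toFinset_card_le _).trans (Polynomial.card_roots' _)

end Pool.Agent.P.MP_12d50c_ag.BT
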