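import Pool.Agent.P.MP_12d50c_ag.BT.IfaceD

/-! Step DIC. -/

set_option autoImplicit false
set_option linter.unusedSectionVars false

namespace Pool.Agent.P.MP_12d50c_ag.BT

open Finset Function Polynomial CategoryTheory AlgebraicGeometry
open scoped TensorProduct

theorem p_DIC (hISO : S_ISO) (hSPM : S_SPM) (hOPM : S_OPM) :
    S_DIC := by
  intro F _
  obtain ⟨e, he⟩ := hISO F
  refine ⟨fun n => (Scheme.homeoOfIso (e n)).toEquiv, fun n w => ?_, fun m n g w z => ⟨?_, ?_⟩⟩
  · exact ((hOPM.1 _ _ (e n).hom).2 w).symm.trans ((hSPM _).2.1 _)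
  · have h : (e n).hom (face _ g z) =
        Spec.map (CommRingCat.ofHom (fm F g).toRingHom) ((e m).hom z) := by
      rw [← Scheme.Hom.comp_apply, he, Scheme.Hom.comp_apply]
    rw [(hOPM.1 _ _ (e n).hom).1, h, (hSPM _).1]
    rfl
  · exact (hOPM.2 _ _ _ _ (e m).hom (e n).hom _ _ (he m n g) w z).trans
      ((hSPM _).2.2 _ (fm F g).toRingHom _ _).2

end Pool.Agent.P.MP_12d50c_ag.BT
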