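import Pool.Agent.P.MP_12d50c_ag.BT.IfaceD

/-! Step DIM. -/

set_option autoImplicit false
set_option linter.unusedSectionVars false

namespace Pool.Agent.P.MP_12d50c_ag.BT

open Finset Function Polynomial CategoryTheory AlgebraicGeometry
open scoped TensorProduct

noncomputable def eqv_dim (F : Type) [Field F] (n : ℕ) : AS F n ≃ₐ[F] MvPolynomial (Fin n) F :=
  AlgEquiv.ofAlgHom
    (evA F (Fin.cons (1 - ∑ i, MvPolynomial.X i) MvPolynomial.X)
      (by rw [Fin.sum_univ_succ]; simp))
    (MvPolynomial.aeval fun i => tt F i.succ)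
    (MvPolynomial.algHom_ext fun i => by simp)
    (as_ext fun j => by
      refine Fin.cases ?_ (fun i => by simp) j
      have h := sum_tt F (n := n)
      rw [Fin.sum_univ_succ] at h
      simp [← h])

theorem dom_dim (F : Type) [Field F] (n : ℕ) : IsDomain (AS F n) :=
  (eqv_dim F n).toRingEquiv.toMulEquiv.isDomain _

theorem kd_dim (F : Type) [Field F] (n : ℕ) : ringKrullDim (AS F n) = n := by
  rw [ringKrullDim_eq_of_ringEquiv (eqv_dim F n).toRingEquiv,
    MvPolynomial.ringKrullDim_of_isNoetherianRing, ringKrullDim_eq_zero_of_field]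
  simp

theorem num_dim (F : Type) [Field F] (n : ℕ) (z : PrimeSpectrum (AS F n)) :
    ∃ a b : ℕ, z.asIdeal.height = a ∧ ringKrullDim (AS F n ⧸ z.asIdeal) = b ∧ a + b = n := by
  have := dom_dim F n
  have h := height_add_dim (k := F) z.asIdeal
  obtain ⟨b, hb, -⟩ := dim_eq_trdeg (k := F) (A := AS F n ⧸ z.asIdeal)
  rw [kd_dim, hb] at h
  have h' : z.asIdeal.height + (b : ℕ∞) = (n : ℕ∞) := by exact_mod_cast h
  have ht : z.asIdeal.height ≠ ⊤ := by
    intro e
    rw [e] at h'
    simp at h'
  obtain ⟨a, ha⟩ := ENat.ne_top_iff_exists.1 ht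
  refine ⟨a, b, ha.symm, hb, ?_⟩
  rw [← ha] at h'
  exact_mod_cast h'

theorem p_DIM :
    S_DIM := by
  intro F _ n
  refine ⟨dom_dim F n, fun z => ?_, fun w hw => ?_⟩
  · obtain ⟨a, b, ha, hb, hab⟩ := num_dim F n z
    refine ⟨by rw [ha]; exact_mod_cast (by omega : a ≤ n), fun hm => ?_, fun hh => ?_⟩
    · have := dom_dim F n
      have h := dim_le_height_max (k := F) z.asIdeal
      rw [kd_dim, ha] at h
      have h' : n ≤ a := by exact_mod_cast h
      rw [ha]
      exact_mod_cast (by omega : a = n)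
    · rw [ha] at hh
      have h' : a = n := by exact_mod_cast hh
      have b0 : b = 0 := by omega
      subst b0
      have : Ring.KrullDimLE 0 (AS F n ⧸ z.asIdeal) := Ring.krullDimLE_iff.2 hb.le
      exact Ideal.Quotient.maximal_of_isField _
        (Ring.KrullDimLE.isField_of_isDomain (R := AS F n ⧸ z.asIdeal))
  · obtain ⟨a, b, ha, hb, hab⟩ := num_dim F (n + 1) w
    rw [hb] at hw
    have h' : b = 1 := by exact_mod_cast hw
    rw [ha]
    exact_mod_cast (by omega : a = n)

end Pool.Agent.P.MP_12d50c_ag.BT
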