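import Pool.Agent.P.MP_12d50c_ag.BT.IfaceA

/-! Step DS0. -/

set_option autoImplicit false
set_option linter.unusedSectionVars false

namespace Pool.Agent.P.MP_12d50c_ag.BT

open Finset Function

theorem p_DS0 :
    S_DS0 := by
  intro Ω _ k S x hx
  induction hx using Submodule.span_induction with
  | mem y hy => exact Filter.Eventually.of_forall fun C k₀ _ => Submodule.subset_span hy
  | zero => exact Filter.Eventually.of_forall fun C k₀ _ => Submodule.zero_mem _
  | add y z _ _ hy hz =>
    filter_upwards [hy, hz] with C h1 h2 k₀ h using Submodule.add_mem _ (h1 k₀ h) (h2 k₀ h)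
  | smul c y _ hy =>
    filter_upwards [hy, Filter.eventually_ge_atTop ({c} : Finset k)] with C h1 h2 k₀ h
    exact Submodule.smul_mem _ (⟨(c : Ω), h c (h2 (mem_singleton_self c))⟩ : k₀) (h1 k₀ h)

end Pool.Agent.P.MP_12d50c_ag.BT
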