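import Pool.Agent.P.MP_12d50c_ag.BT.IfaceA

/-! Step ERR. -/

set_option autoImplicit false
set_option linter.unusedSectionVars false

namespace Pool.Agent.P.MP_12d50c_ag.BT

open Finset Function

theorem swap_err {X : Type} [Fintype X] (σ : X × X → X × X) (h : Involutive σ)
    (B : X × X → Prop) [DecidablePred B] (hB : ∀ p, B p → B (σ p)) (f : X → ℝ) :
    ∑ p : X × X, (if B p then f (σ p).1 else 0) = ∑ p : X × X, if B p then f p.1 else 0 := by
  rw [← Equiv.sum_comp h.toPerm fun p => if B p then f p.1 else 0]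
  refine sum_congr rfl fun p _ => ?_
  exact if_congr ⟨hB p, fun e => h p ▸ hB _ e⟩ rfl rfl

theorem p_ERR (hBAD : S_BAD) :
    S_ERR := by
  classical
  intro ι _ _ K _ _ W _ _ _ V _ _ _ β v₀ m g hβ h1 h2 hg h0
  obtain ⟨B, hB⟩ : ∃ B : (∀ i, W i) × (∀ i, W i) → Prop, ∀ p, B p ↔
      bb β p.1 p.2 = v₀ ∧ ∃ J : Finset ι, ¬ Good β m (J.piecewise p.2 p.1) := ⟨_, fun _ => Iff.rfl⟩
  have a1 : ∀ J : Finset ι, ∑ p, (if B p then g (J.piecewise p.2 p.1) ^ 2 else 0) =
      ∑ p, if B p then g p.1 ^ 2 else 0 := fun J => by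
    refine swap_err (fun p => (J.piecewise p.2 p.1, J.piecewise p.1 p.2)) (fun p => ?_) B
      (fun p hp => ?_) fun x => g x ^ 2
    · refine Prod.ext (funext fun i => ?_) (funext fun i => ?_) <;>
        by_cases e : i ∈ J <;> simp [piecewise, e]
    · obtain ⟨c1, I, c2⟩ := (hB p).1 hp
      refine (hB _).2 ⟨?_, symmDiff I J, ?_⟩
      · rw [← c1, bb_apply, bb_apply]
        refine sum_congr rfl fun i _ => ?_
        by_cases e : i ∈ J
        · simp only [piecewise, e, if_true]
          exact hβ i _ _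
        · simp only [piecewise, e, if_false]
      · have : (symmDiff I J).piecewise (J.piecewise p.1 p.2) (J.piecewise p.2 p.1) =
            I.piecewise p.2 p.1 := funext fun i => by
          by_cases e : i ∈ J <;> by_cases e' : i ∈ I <;> simp [piecewise, mem_symmDiff, e, e']
        rwa [← this] at c2
  have a2 : ∑ J : Finset ι, BJ β v₀ g J ≤ ∑ J : Finset ι, ∑ p, ((if B p then g p.1 ^ 2 else 0) +
      if B p then g (J.piecewise p.2 p.1) ^ 2 else 0) / 2 := by
    have e : ∀ J : Finset ι, BJ β v₀ g J = ∑ p : (∀ i, W i) × (∀ i, W i),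
        if bb β p.1 p.2 = v₀ then g p.1 * g (J.piecewise p.2 p.1) else 0 := fun J => by
      rw [BJ, Fintype.sum_prod_type]
    rw [sum_congr rfl fun J _ => e J, sum_comm]
    refine le_of_le_of_eq (sum_le_sum fun p _ => ?_) sum_comm
    by_cases c : B p
    · refine sum_le_sum fun J _ => ?_
      rw [if_pos ((hB p).1 c).1, if_pos c, if_pos c]
      nlinarith [sq_nonneg (g p.1 - g (J.piecewise p.2 p.1))]
    · simp only [if_neg c, add_zero, zero_div, sum_const_zero]
      by_cases c' : bb β p.1 p.2 = v₀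
      · simp only [if_pos c']
        rw [← mul_sum, h0 p.1 p.2 c' fun J => by_contra fun e => c ((hB p).2 ⟨c', J, e⟩), mul_zero]
      · simp only [if_neg c', sum_const_zero, le_refl]
  simp only [← sum_div, sum_add_distrib, a1, add_self_div_two] at a2
  rw [sum_const, card_univ, Fintype.card_finset, nsmul_eq_mul, Fintype.sum_prod_type] at a2
  have a3 : ∀ a, ((Nat.card K - 1 : ℕ) : ℝ) * Fintype.card V *
      ∑ a', (if B (a, a') then g a ^ 2 else 0) ≤
      2 ^ Fintype.card ι * (2 ^ Fintype.card ι * Module.finrank K V + Fintype.card ι) *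
        Fintype.card (∀ i, W i) * g a ^ 2 := fun a => by
    by_cases c : g a = 0
    · simp [c]
    · have b1 := hBAD ι K W V β v₀ m a h1 h2 (hg a c)
      have b2 : {a' | bb β a a' = v₀ ∧ ∃ J : Finset ι, ¬ Good β m (J.piecewise a' a)} =
          (univ.filter fun a' => B (a, a') : Finset _) := Set.ext fun a' => by simp [hB]
      rw [b2, Set.ncard_coe_finset] at b1
      rw [← sum_filter, sum_const, nsmul_eq_mul, ← mul_assoc]
      exact mul_le_mul_of_nonneg_right (by exact_mod_cast b1) (sq_nonneg _)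
  have a4 := sum_le_sum fun a (_ : a ∈ univ) => a3 a
  rw [← mul_sum, ← mul_sum] at a4
  have a5 := mul_le_mul_of_nonneg_left a2
    (show (0 : ℝ) ≤ ((Nat.card K - 1 : ℕ) : ℝ) * Fintype.card V by positivity)
  have a6 := mul_le_mul_of_nonneg_left a4 (show (0 : ℝ) ≤ 2 ^ Fintype.card ι by positivity)
  rw [show (4 : ℝ) = 2 * 2 by norm_num, mul_pow]
  push_cast at a5
  linarith

end Pool.Agent.P.MP_12d50c_ag.BT
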