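import Pool.Agent.P.MP_12d50c_ag.BT.IfaceD

/-! Step FL. -/

set_option autoImplicit false
set_option linter.unusedSectionVars false

namespace Pool.Agent.P.MP_12d50c_ag.BT

open Finset Function Polynomial CategoryTheory AlgebraicGeometry
open scoped TensorProduct

theorem art_fl {R : Type} [CommRing R] [IsNoetherianRing R] (w : Ideal R) [w.IsPrime] (a : R)
    (hd : ringKrullDim (R ⧸ w) ≤ 1) (ha : a ∉ w) :
    IsArtinianRing (R ⧸ (w ⊔ Ideal.span {a})) := by
  have h1 : Ring.KrullDimLE 1 (R ⧸ w) := Ring.krullDimLE_iff.2 (by simpa using hd)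
  rw [isArtinianRing_iff_krullDimLE_zero]
  refine Ring.KrullDimLE.mk₀ fun I hI => ?_
  let φ : R ⧸ w →+* R ⧸ (w ⊔ Ideal.span {a}) := Ideal.Quotient.factor le_sup_left
  have hφ : Surjective φ := Ideal.Quotient.factor_surjective _
  have h2 : (I.comap φ).IsMaximal := by
    refine Ring.krullDimLE_one_iff_of_noZeroDivisors.1 h1 _ (fun h => ha ?_) inferInstance
    have : Ideal.Quotient.mk w a ∈ I.comap φ := by
      rw [Ideal.mem_comap]
      have : φ (Ideal.Quotient.mk w a) = 0 := Ideal.Quotient.eq_zero_iff_mem.2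
        (Ideal.mem_sup_right (Ideal.mem_span_singleton_self a))
      rw [this]
      exact I.zero_mem
    rw [h, Ideal.mem_bot] at this
    exact Ideal.Quotient.eq_zero_iff_mem.1 this
  rcases Ideal.map_eq_top_or_isMaximal_of_surjective φ hφ h2 with h | h <;>
    rw [Ideal.map_comap_of_surjective φ hφ] at h
  · exact absurd h hI.ne_top
  · exact h

theorem p_FL (hLMA : S_LMA) :
    S_FL := by
  intro R _ _ w _ a N _ _ _ q hd ha hw hN
  have h1 := art_fl w a hd ha
  have ht : Module.IsTorsionBySet R N (w ⊔ Ideal.span {a} : Ideal R) := by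
    rintro y ⟨x, hx⟩
    obtain ⟨u, hu, v, hv, rfl⟩ := Submodule.mem_sup.1 hx
    obtain ⟨c, rfl⟩ := Ideal.mem_span_singleton'.1 hv
    change (u + c * a) • y = 0
    rw [add_smul, mul_smul, hw u hu, hN, smul_zero, add_zero]
  have h2 : IsArtinian R N := by
    let := ht.module
    have : IsScalarTower R (R ⧸ (w ⊔ Ideal.span {a})) N := ht.isScalarTower
    have : Module.Finite (R ⧸ (w ⊔ Ideal.span {a})) N := .of_restrictScalars_finite R _ _
    exact isArtinian_of_surjective_algebraMap (R := R ⧸ (w ⊔ Ideal.span {a}))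
      Ideal.Quotient.mk_surjective
  have h3 : IsArtinian (Localization.AtPrime q.asIdeal)
      (LocalizedModule q.asIdeal.primeCompl N) :=
    (Submodule.localized'gi (Localization.AtPrime q.asIdeal) q.asIdeal.primeCompl
      (LocalizedModule.mkLinearMap q.asIdeal.primeCompl N)).strictMono_u.wellFoundedLT
  exact Module.length_ne_top

end Pool.Agent.P.MP_12d50c_ag.BT
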