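import Pool.Agent.P.MP_12d50c_ag.BT.IfaceD

/-! Step FM. -/

set_option autoImplicit false
set_option linter.unusedSectionVars false

namespace Pool.Agent.P.MP_12d50c_ag.BT

open Finset Function Polynomial CategoryTheory AlgebraicGeometry
open scoped TensorProduct

theorem zero_fm (F : Type) [Field F] {m n : ℕ} (g : Fin (m + 1) → Fin (n + 1)) (j : Fin (n + 1))
    (hj : j ∉ Set.range g) : fm F g (tt F j) = 0 := by
  rw [fm_tt]
  exact Finset.sum_eq_zero fun i hi => absurd ⟨i, (Finset.mem_filter.1 hi).2⟩ hj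

theorem inj_fm (F : Type) [Field F] {m n : ℕ} (g : Fin (m + 1) → Fin (n + 1))
    (hg : Function.Injective g) (i : Fin (m + 1)) : fm F g (tt F (g i)) = tt F i := by
  rw [fm_tt, Finset.sum_eq_single i]
  · intro b hb hbi
    exact absurd (hg (Finset.mem_filter.1 hb).2) hbi
  · intro h
    exact absurd (by simp) h

theorem ker_fm (F : Type) [Field F] {n : ℕ} {B : Type} [CommRing B] [Algebra F B]
    (j : Fin (n + 2)) (φ : AS F (n + 1) →ₐ[F] B) (hj : φ (tt F j) = 0) (x : AS F (n + 1))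
    (hx : fm F j.succAbove x = 0) : φ x = 0 := by
  have h0 : fm F j.succAbove (tt F j) = 0 :=
    zero_fm F _ j (by rintro ⟨i, hi⟩; exact Fin.succAbove_ne j i hi)
  have hs : ∑ i : Fin (n + 1), φ (tt F (j.succAbove i)) = 1 := by
    have h1 : ∑ k : Fin (n + 2), φ (tt F k) = 1 := by
      rw [← map_sum, sum_tt]; exact map_one φ
    rwa [Fin.sum_univ_succAbove (fun k => φ (tt F k)) j, hj, zero_add] at h1
  have he : (evA F _ hs).comp (fm F j.succAbove) = φ := by
    refine as_ext fun k => ?_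
    rcases eq_or_ne k j with rfl | hk
    · rw [AlgHom.comp_apply, h0, map_zero, hj]
    · obtain ⟨i, rfl⟩ := Fin.exists_succAbove_eq hk
      rw [AlgHom.comp_apply, inj_fm F _ Fin.succAbove_right_injective, evA_tt]
  rw [← he, AlgHom.comp_apply, hx, map_zero]

theorem quo_fm (F A : Type) [Field F] [CommRing A] [Algebra F A] (t x : A)
    (h : ∀ (B : Type) [CommRing B] [Algebra F B] (φ : A →ₐ[F] B), φ t = 0 → φ x = 0) :
    x ∈ Ideal.span {t} :=
  Ideal.Quotient.eq_zero_iff_mem.1 (h _ (Ideal.Quotient.mkₐ F (Ideal.span {t}))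
    (Ideal.Quotient.eq_zero_iff_mem.2 (Ideal.subset_span rfl)))

theorem p_FM :
    S_FM := by
  intro F _ m n
  refine ⟨fun g => ⟨zero_fm F g, fun hg => ⟨inj_fm F g hg, fun y => ?_⟩⟩, fun j => ?_⟩
  · obtain ⟨y, rfl⟩ := Ideal.Quotient.mk_surjective y
    induction y using MvPolynomial.induction_on with
    | C c => exact ⟨algebraMap F _ c, by rw [AlgHom.commutes]; rfl⟩
    | add a b ha hb =>
      obtain ⟨a', ha⟩ := ha
      obtain ⟨b', hb⟩ := hb
      exact ⟨a' + b', by rw [map_add, map_add, ha, hb]⟩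
    | mul_X a i ha =>
      obtain ⟨a', ha⟩ := ha
      exact ⟨a' * tt F (g i), by rw [map_mul, map_mul, ha, inj_fm F g hg]; rfl⟩
  · have h0 : fm F j.succAbove (tt F j) = 0 :=
      zero_fm F _ j (by rintro ⟨i, hi⟩; exact Fin.succAbove_ne j i hi)
    refine le_antisymm (fun x hx => ?_) ?_
    · exact quo_fm F _ _ x fun B _ _ φ hφ => ker_fm F j φ hφ x hx
    · rw [Ideal.span_le, Set.singleton_subset_iff]
      exact h0

end Pool.Agent.P.MP_12d50c_ag.BT
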