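import Pool.Agent.P.MP_12d50c_ag.BT.IfaceD

/-! Step FR. -/

set_option autoImplicit false
set_option linter.unusedSectionVars false

namespace Pool.Agent.P.MP_12d50c_ag.BT

open Finset Function Polynomial CategoryTheory AlgebraicGeometry
open scoped TensorProduct

theorem gen_fr (A M : Type) [CommRing A] [IsDomain A] [AddCommGroup M] [Module A M]
    [Module.Finite A M] : ∃ (δ : ℕ) (l : (Fin δ → A) →ₗ[A] M) (a : A),
      Function.Injective l ∧ a ≠ 0 ∧ ∀ y : M, a • y ∈ LinearMap.range l := by
  classical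
  obtain ⟨n, v, hv⟩ := Module.Finite.exists_fin (R := A) (M := M)
  obtain ⟨s, hs, h⟩ := exists_maximal_linearIndepOn A v
  have h' : ∀ i, ∃ a : A, a ≠ 0 ∧ a • v i ∈ Submodule.span A (v '' s) := fun i => by
    by_cases hi : i ∈ s
    · exact ⟨1, one_ne_zero, by rw [one_smul]; exact Submodule.subset_span ⟨i, hi, rfl⟩⟩
    · exact h i hi
  choose c hc hc' using h'
  let e := Fintype.equivFin s
  let b : Fin (Fintype.card s) → M := fun j => v (e.symm j)
  have hb : LinearIndependent A b := hs.linearIndependent.comp e.symm e.symm.injective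
  have hr : LinearMap.range (Fintype.linearCombination A b) = Submodule.span A (v '' s) := by
    rw [Fintype.range_linearCombination]
    congr 1
    ext y
    exact ⟨fun ⟨j, hj⟩ => ⟨_, (e.symm j).2, hj⟩, fun ⟨i, hi, hy⟩ => ⟨e ⟨i, hi⟩, by simp [b, hy]⟩⟩
  refine ⟨_, Fintype.linearCombination A b, ∏ i, c i,
    linearIndependent_iff_injective_fintypeLinearCombination.1 hb, prod_ne_zero_iff.2 fun i _ => hc i, fun y => ?_⟩
  rw [hr]
  have hy : y ∈ Submodule.span A (Set.range v) := hv ▸ Submodule.mem_top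
  induction hy using Submodule.span_induction with
  | mem x hx =>
    obtain ⟨i, rfl⟩ := hx
    rw [← prod_erase_mul univ c (mem_univ i), mul_smul]
    exact Submodule.smul_mem _ _ (hc' i)
  | zero => rw [smul_zero]; exact Submodule.zero_mem _
  | add x y _ _ hx hy => rw [smul_add]; exact Submodule.add_mem _ hx hy
  | smul t x _ hx => rw [smul_comm]; exact Submodule.smul_mem _ _ hx

theorem p_FR :
    S_FR := by
  intro R B _ _ _ _ _
  have hP : (RingHom.ker (algebraMap R B)).IsPrime := RingHom.ker_isPrime _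
  let _ : Algebra (R ⧸ RingHom.ker (algebraMap R B)) B :=
    (RingHom.kerLift (algebraMap R B)).toAlgebra
  have : IsScalarTower R (R ⧸ RingHom.ker (algebraMap R B)) B :=
    IsScalarTower.of_algebraMap_eq fun _ => rfl
  have : Module.Finite (R ⧸ RingHom.ker (algebraMap R B)) B :=
    Module.Finite.of_restrictScalars_finite R _ _
  obtain ⟨δ, l, a, hl, ha, h⟩ := gen_fr (R ⧸ RingHom.ker (algebraMap R B)) B
  obtain ⟨a, rfl⟩ := Ideal.Quotient.mk_surjective a
  have ha' : algebraMap R B a ≠ 0 := fun h0 => ha (Ideal.Quotient.eq_zero_iff_mem.2 h0)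
  have h' : ∀ y : B, a • y ∈ LinearMap.range (l.restrictScalars R) := fun y => by
    obtain ⟨z, hz⟩ := h y
    exact ⟨z, hz.trans (algebraMap_smul (R ⧸ RingHom.ker (algebraMap R B)) a y)⟩
  refine ⟨δ, l.restrictScalars R, a, Nat.pos_of_ne_zero fun h0 => ha' ?_, hl, ha', h'⟩
  subst h0
  obtain ⟨z, hz⟩ := h' 1
  rw [Algebra.algebraMap_eq_smul_one, ← hz, Subsingleton.elim z 0, map_zero]

end Pool.Agent.P.MP_12d50c_ag.BT
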