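import Pool.Agent.P.MP_12d50c_ag.BT.IfaceB

/-! Step GA. -/

set_option autoImplicit false
set_option linter.unusedSectionVars false

namespace Pool.Agent.P.MP_12d50c_ag.BT

open Finset Function Filter

theorem p_GA :
    S_GA := by
  intro k Ω _ _ _ d I _ _ T u hd hT
  let Y : I → MvPolynomial (Tᶜ : Finset I) Ω := fun x =>
    if h : x ∈ Tᶜ then MvPolynomial.X ⟨x, h⟩
    else -∑ z : (Tᶜ : Finset I), MvPolynomial.C (u x z) * MvPolynomial.X z
  have h : ¬ AlgebraicIndependent k Y := fun h => by
    have a := h.cardinalMk_le_trdeg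
    rw [← trdeg_add_eq k Ω, MvPolynomial.trdeg_of_isDomain, Cardinal.lift_id, Cardinal.mk_fintype,
      Cardinal.mk_fintype, Fintype.card_coe] at a
    have b : Fintype.card I ≤ d + Tᶜ.card := by exact_mod_cast a.trans (add_le_add hd le_rfl)
    have c := card_add_card_compl T
    omega
  rw [algebraicIndependent_iff] at h
  push Not at h
  obtain ⟨Φ, h1, h2⟩ := h
  refine ⟨Φ, h2, fun y hy => ?_⟩
  let f : MvPolynomial (Tᶜ : Finset I) Ω →ₐ[k] Ω :=
    (MvPolynomial.aeval (R := Ω) fun z : (Tᶜ : Finset I) => y z).restrictScalars k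
  have e : (fun x => f (Y x)) = y := funext fun x => by
    by_cases hx : x ∈ Tᶜ
    · simp only [f, Y, dif_pos hx, AlgHom.restrictScalars_apply, MvPolynomial.aeval_X]
    · have := hy x (by simpa using hx)
      rw [← sum_coe_sort] at this
      simp only [f, Y, dif_neg hx, AlgHom.restrictScalars_apply, map_neg, map_sum, map_mul,
        MvPolynomial.aeval_X, MvPolynomial.aeval_C, Algebra.algebraMap_self, RingHom.id_apply]
      linear_combination -this
  rw [← e, ← MvPolynomial.comp_aeval, AlgHom.comp_apply, h1, map_zero]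

end Pool.Agent.P.MP_12d50c_ag.BT
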