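import Pool.Agent.P.MP_12d50c_ag.BT.IfaceB

/-! Step GEN0. -/

set_option autoImplicit false
set_option linter.unusedSectionVars false

namespace Pool.Agent.P.MP_12d50c_ag.BT

open Finset Function Filter

theorem val_gen0 {k Ω I : Type} [Field k] [Field Ω] [Algebra k Ω] (O : ValuationSubring Ω)
    (hk : ∀ c : k, O.valuation (algebraMap k Ω c) ≤ 1) (y z : I → Ω)
    (hz : ∀ x, O.valuation (z x) ≤ 1) (hy : ∀ x, O.valuation (y x - z x) < 1)
    (Φ : MvPolynomial I k) : O.valuation (MvPolynomial.aeval z Φ) ≤ 1 ∧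
      O.valuation (MvPolynomial.aeval y Φ - MvPolynomial.aeval z Φ) < 1 := by
  induction Φ using MvPolynomial.induction_on with
  | C c => simpa using hk c
  | add p q hp hq =>
    rw [map_add (MvPolynomial.aeval z), map_add (MvPolynomial.aeval y), add_sub_add_comm]
    exact ⟨O.valuation.map_add_le hp.1 hq.1, O.valuation.map_add_lt hp.2 hq.2⟩
  | mul_X p i hp =>
    have h1 : O.valuation (y i) ≤ 1 := by
      rw [← sub_add_cancel (y i) (z i)]
      exact O.valuation.map_add_le (hy i).le (hz i)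
    rw [map_mul (MvPolynomial.aeval z), map_mul (MvPolynomial.aeval y), MvPolynomial.aeval_X,
      MvPolynomial.aeval_X,
      show ∀ a b : Ω, a * y i - b * z i = (a - b) * y i + (y i - z i) * b from fun a b => by ring]
    refine ⟨by rw [map_mul]; exact mul_le_one' hp.1 (hz i), O.valuation.map_add_lt ?_ ?_⟩
    · rw [map_mul]
      exact mul_lt_one_of_lt_of_le hp.2 h1
    · rw [map_mul]
      exact mul_lt_one_of_lt_of_le (hy i) hp.1

open Classical in
theorem core_gen0 (hKO : S_KO) (hGA : S_GA) {Ω : Type} [Field Ω] {k : Subfield Ω} {d : ℕ}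
    (hk : Cst k d) {ι I : Type} [Fintype ι] [Fintype I] (π : I → ι) (w : I → Ω)
    (hw : ∀ x, w x ≠ 0) : ∃ lam : I → k, ∀ O : ValuationSubring Ω,
      {s | ∃ x, π x = s ∧
        O.valuation (∑ x with π x = s, lam x • w x) < O.valuation (w x)}.ncard ≤ d := by
  obtain ⟨hinf, hv⟩ := hKO Ω k d hk
  have h1 : ∀ T : Finset I, ∃ Φ : MvPolynomial I k, Φ ≠ 0 ∧ (T.card = d + 1 → ∀ y : I → Ω,
      (∀ t ∈ T, y t + ∑ x ∈ Tᶜ, (if π x = π t then w x / w t else 0) * y x = 0) →
        MvPolynomial.aeval y Φ = 0) := fun T => by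
    by_cases h : T.card = d + 1
    · obtain ⟨Φ, a, b⟩ := hGA k Ω d I T (fun t x => if π x = π t then w x / w t else 0) hk.tr h
      exact ⟨Φ, a, fun _ => b⟩
    · exact ⟨1, one_ne_zero, fun e => absurd e h⟩
  choose Φ hΦ0 hΦ using h1
  obtain ⟨lam, hlam⟩ : ∃ lam : I → k, MvPolynomial.eval lam (∏ T, Φ T) ≠ 0 := by
    by_contra h
    push Not at h
    exact prod_ne_zero_iff.2 (fun T _ => hΦ0 T) (MvPolynomial.funext fun x => by rw [h, map_zero])
  refine ⟨lam, fun O => ?_⟩
  obtain ⟨G, hG⟩ : ∃ G : ι → Ω, ∀ s, G s = ∑ x with π x = s, lam x • w x := ⟨_, fun _ => rfl⟩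
  simp only [← hG]
  by_contra hc
  obtain ⟨S, hS, hSc⟩ := Set.exists_subset_card_eq (Nat.succ_le_of_lt (not_le.1 hc))
  choose t ht1 ht2 using fun s : S => hS s.2
  have hinj : Injective t := fun a b e => Subtype.ext (by rw [← ht1, ← ht1, e])
  have hT : (univ.image t).card = d + 1 := by
    rw [card_image_of_injective _ hinj, card_univ, ← Nat.card_eq_fintype_card]
    exact hSc
  have hk1 : ∀ c : k, O.valuation (algebraMap k Ω c) ≤ 1 := fun c => by
    by_cases e : (c : Ω) = 0
    · exact (congrArg O.valuation e).trans_le (by simp)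
    · exact ((hv c c.2 e).2 O).le
  have h0 := hΦ _ hT
    (fun x => algebraMap k Ω (lam x) - if x ∈ univ.image t then G (π x) / w x else 0) (by
      intro x hx
      obtain ⟨s, -, rfl⟩ := mem_image.1 hx
      have e1 : ∑ x ∈ univ.image t, (if π x = π (t s) then lam x • w x else 0) =
          lam (t s) • w (t s) := by
        rw [sum_eq_single_of_mem _ hx, if_pos rfl]
        intro x hx' ne
        obtain ⟨s', -, rfl⟩ := mem_image.1 hx'
        exact if_neg fun e => ne (congrArg t (Subtype.ext (by rwa [ht1, ht1] at e)))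
      have e2 : ∑ x ∈ (univ.image t)ᶜ, (if π x = π (t s) then w x / w (t s) else 0) *
          (algebraMap k Ω (lam x) - if x ∈ univ.image t then G (π x) / w x else 0) =
          (∑ x ∈ (univ.image t)ᶜ, if π x = π (t s) then lam x • w x else 0) / w (t s) := by
        rw [sum_div]
        refine sum_congr rfl fun x hx' => ?_
        rw [if_neg (mem_compl.1 hx'), Algebra.smul_def]
        split_ifs <;> ring
      rw [e2, if_pos hx, hG, sum_filter, ← sum_add_sum_compl (univ.image t), e1, Algebra.smul_def]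
      field_simp [hw (t s)]
      ring)
  have h2 := (val_gen0 O hk1
    (fun x => algebraMap k Ω (lam x) - if x ∈ univ.image t then G (π x) / w x else 0)
    (algebraMap k Ω ∘ lam) (fun x => hk1 _) (fun x => by
      rw [comp_apply, sub_sub_cancel_left, Valuation.map_neg]
      split_ifs with hx
      · obtain ⟨s, -, rfl⟩ := mem_image.1 hx
        rw [map_div₀, ht1]
        exact (div_lt_one₀ (zero_le.trans_lt (ht2 s))).2 (ht2 s)
      · simp) (Φ (univ.image t))).2
  rw [h0, zero_sub, Valuation.map_neg, MvPolynomial.aeval_algebraMap_apply] at h2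
  rw [map_prod] at hlam
  have h3 : MvPolynomial.aeval lam (Φ (univ.image t)) ≠ 0 :=
    prod_ne_zero_iff.1 hlam _ (mem_univ _)
  exact h2.ne ((hv _ (SetLike.coe_mem _) fun e => h3 (Subtype.ext e)).2 O)

theorem p_GEN0 (hKO : S_KO) (hGA : S_GA) :
    S_GEN0 := by
  classical
  intro Ω _ k d ι _ A hk hA
  obtain ⟨lam, h⟩ := core_gen0 hKO hGA hk (I := Σ s, {a // a ∈ A s}) (fun x => x.1)
    (fun x => x.2.1) fun x => hA _ _ x.2.2
  refine ⟨fun s => ∑ x with x.1 = s, lam x • x.2.1, fun s => sum_mem fun x hx => ?_,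
    fun O => le_trans (Set.ncard_le_ncard ?_ (Set.toFinite _)) (h O)⟩
  · exact Submodule.smul_mem _ _ (Submodule.subset_span ((mem_filter.1 hx).2 ▸ x.2.2))
  · rintro s ⟨a, ha, e⟩
    exact ⟨⟨s, a, ha⟩, rfl, e⟩

end Pool.Agent.P.MP_12d50c_ag.BT
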