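import Pool.Agent.P.MP_12d50c_ag.BT.IfaceD

/-! Step GFIN. -/

set_option autoImplicit false
set_option linter.unusedSectionVars false

namespace Pool.Agent.P.MP_12d50c_ag.BT

open Finset Function Polynomial CategoryTheory AlgebraicGeometry
open scoped TensorProduct

theorem eqv_gfin {R N N' : Type} [CommRing R] [AddCommGroup N] [Module R N] [AddCommGroup N']
    [Module R N'] (f : N →ₗ[R] N') (τ : R) (hs : Function.Surjective f)
    (hk : ∀ x, f x = 0 ↔ ∃ y, τ • y = x) :
    Nonempty ((N ⧸ LinearMap.range (LinearMap.lsmul R N τ)) ≃ₗ[R] N') :=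
  ⟨(Submodule.quotEquivOfEq _ _ (Submodule.ext fun x => (hk x).symm)).trans
    (f.quotKerEquivOfSurjective hs)⟩

theorem fac_gfin {R : Type} [CommRing R] (K : Ideal R) (τ : R) :
    ∃ φ : (R ⧸ K) →ₗ[R] R ⧸ (K ⊔ Ideal.span {τ}), Function.Surjective φ ∧
      ∀ x, φ x = 0 ↔ ∃ y, τ • y = x := by
  refine ⟨Submodule.factor (le_sup_left : K ≤ K ⊔ Ideal.span {τ}),
    Submodule.factor_surjective _, fun x => ?_⟩
  obtain ⟨x, rfl⟩ := Submodule.Quotient.mk_surjective K x
  have e : Submodule.factor (le_sup_left : K ≤ K ⊔ Ideal.span {τ}) (Submodule.Quotient.mk x) =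
      Submodule.Quotient.mk x := rfl
  rw [e, Submodule.Quotient.mk_eq_zero]
  constructor
  · intro h
    obtain ⟨k, hk, z, hz, rfl⟩ := Submodule.mem_sup.1 h
    obtain ⟨c, rfl⟩ := Ideal.mem_span_singleton'.1 hz
    refine ⟨Submodule.Quotient.mk c, ?_⟩
    rw [← Submodule.Quotient.mk_smul, Submodule.Quotient.eq]
    have : τ • c - (k + c * τ) = -k := by rw [smul_eq_mul]; ring
    rw [this]
    exact neg_mem hk
  · rintro ⟨y, hy⟩
    obtain ⟨y, rfl⟩ := Submodule.Quotient.mk_surjective K y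
    rw [← Submodule.Quotient.mk_smul, Submodule.Quotient.eq] at hy
    refine Submodule.mem_sup.2 ⟨_, neg_mem hy, y * τ, Ideal.mem_span_singleton'.2 ⟨y, rfl⟩, ?_⟩
    rw [smul_eq_mul]; ring

theorem p_GFIN (hLMA : S_LMA) (hFL : S_FL) (hHB : S_HB) (hFR : S_FR) :
    S_GFIN := by
  intro R B _ _ _ _ _ _ hdim
  obtain ⟨δ, l, a, hδ, hl, ha, hP⟩ := hFR R B
  refine ⟨δ, hδ, fun τ hτ q => ?_⟩
  have : (RingHom.ker (algebraMap R B)).IsPrime := RingHom.ker_isPrime _
  obtain ⟨m1, -, m3, m4⟩ := hLMA R q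
  have h1 : LL R (B ⧸ LinearMap.range l) q ≠ ⊤ := by
    refine hFL R (RingHom.ker (algebraMap R B)) a _ q hdim ha (fun x hx y => ?_) fun y => ?_
    · obtain ⟨y, rfl⟩ := Submodule.Quotient.mk_surjective _ y
      rw [← Submodule.Quotient.mk_smul, Algebra.smul_def, RingHom.mem_ker.1 hx, zero_mul,
        Submodule.Quotient.mk_zero]
    · obtain ⟨y, rfl⟩ := Submodule.Quotient.mk_surjective _ y
      rw [← Submodule.Quotient.mk_smul, Submodule.Quotient.mk_eq_zero]
      exact hP y
  have h2 := hHB R q B (LinearMap.range l) τ (fun y hy => by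
    rw [Algebra.smul_def] at hy
    exact (mul_eq_zero.1 hy).resolve_left hτ) h1
  obtain ⟨e1⟩ := eqv_gfin (Ideal.Quotient.mkₐ R (Ideal.span {algebraMap R B τ})).toLinearMap τ
    (Ideal.Quotient.mkₐ_surjective R _) fun x => by
      change Ideal.Quotient.mk _ x = 0 ↔ _
      rw [Ideal.Quotient.eq_zero_iff_mem, Ideal.mem_span_singleton']
      exact exists_congr fun y => by rw [Algebra.smul_def, mul_comm]
  obtain ⟨φ, hφ, kφ⟩ := fac_gfin (RingHom.ker (algebraMap R B)) τ
  obtain ⟨e2⟩ := eqv_gfin ((φ.compLeft (Fin δ)).comp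
      (LinearEquiv.ofInjective l hl).symm.toLinearMap) τ
    ((hφ.comp_left (α := Fin δ)).comp (LinearEquiv.ofInjective l hl).symm.surjective) fun x => by
      obtain ⟨x, rfl⟩ := (LinearEquiv.ofInjective l hl).surjective x
      rw [LinearMap.comp_apply, LinearEquiv.coe_coe, LinearEquiv.symm_apply_apply]
      constructor
      · intro h
        choose y hy using fun i => (kφ (x i)).1 (congrFun h i)
        exact ⟨LinearEquiv.ofInjective l hl y, by rw [← map_smul]; exact congrArg _ (funext hy)⟩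
      · rintro ⟨y, hy⟩
        obtain ⟨y, rfl⟩ := (LinearEquiv.ofInjective l hl).surjective y
        rw [← map_smul] at hy
        have hy' := (LinearEquiv.ofInjective l hl).injective hy
        exact funext fun i => (kφ (x i)).2 ⟨y i, congrFun hy' i⟩
  rw [← m1 _ _ e1, h2, m1 _ _ e2, m3, sum_const, card_univ, Fintype.card_fin, nsmul_eq_mul,
    ENat.toNat_mul, ENat.toNat_natCast, m4]

end Pool.Agent.P.MP_12d50c_ag.BT
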