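import Pool.Agent.P.MP_12d50c_ag.BT.IfaceA

/-! Step GOODF. -/

set_option autoImplicit false
set_option linter.unusedSectionVars false

namespace Pool.Agent.P.MP_12d50c_ag.BT

open Finset Function

theorem shift_goodf {Y : Type} [AddCommGroup Y] (S : Set Y) (x₀ : Y) :
    S.ncard = {y | x₀ + y ∈ S}.ncard := by
  rw [← Set.ncard_image_of_injective {y | x₀ + y ∈ S} (add_right_injective x₀)]
  congr 1
  ext x
  exact ⟨fun h => ⟨x - x₀, by simpa using h, by simp⟩, by rintro ⟨y, h, rfl⟩; exact h⟩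

theorem p_GOODF (hSZ : S_SZ) :
    S_GOODF := by
  intro ι _ _ K _ _ W _ _ _ V _ _ _ β m hW hT
  classical
  have hc : Nat.card (∀ i, W i) = Fintype.card (∀ i, W i) := Nat.card_eq_fintype_card
  have h1 : ∀ i, (Nat.card K - 1) * {x : ∀ i, W i | x i = 0}.ncard ≤ Fintype.card (∀ i, W i) := by
    intro i
    obtain ⟨x, hx⟩ := hW i
    rw [shift_goodf _ (Pi.single i x), ← hc]
    have := (hSZ K (∀ i, W i) (∀ i, W i) (W i)).2 x (LinearMap.proj i) hx
    simpa using this
  have h2 : ∀ T : Finset ι, T.card = m → (Nat.card K - 1) * {x | ¬ Gn β T x}.ncard ≤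
      Module.finrank K V * Fintype.card (∀ i, W i) := by
    intro T hm
    obtain ⟨x₀, hx⟩ := hT T hm
    have e : ∀ x, Surjective ((bb β).compl₂ (XT K W T).subtype x) ↔ Gn β T x := fun x =>
      ⟨fun h v => let ⟨y, hy⟩ := h v; ⟨y.1, y.2, hy⟩,
        fun h v => let ⟨y, a, hy⟩ := h v; ⟨⟨y, a⟩, hy⟩⟩
    have := (hSZ K (∀ i, W i) (XT K W T) V).1 ((bb β).compl₂ (XT K W T).subtype x₀)
      ((bb β).compl₂ (XT K W T).subtype) ((e x₀).2 hx)
    rw [shift_goodf _ x₀, ← hc]
    simpa only [← map_add, e, Set.mem_ofPred_eq] using this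
  have hs : {x | ¬ Good β m x} ⊆ (⋃ T ∈ powersetCard m (univ : Finset ι), {x | ¬ Gn β T x}) ∪
      ⋃ i, {x : ∀ i, W i | x i = 0} := by
    intro x hx
    by_contra hn
    simp only [Set.mem_union, Set.mem_iUnion, Set.mem_ofPred_eq, not_or, not_exists, not_not,
      mem_powersetCard_univ] at hn
    exact hx ⟨hn.2, hn.1⟩
  have hb := (Set.ncard_le_ncard hs (Set.toFinite _)).trans ((Set.ncard_union_le _ _).trans
    (add_le_add (set_ncard_biUnion_le _ _) (Set.ncard_iUnion_le_of_fintype _)))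
  refine (Nat.mul_le_mul_left _ hb).trans ?_
  rw [mul_add, mul_sum, mul_sum, add_mul]
  refine add_le_add ?_ ?_
  · refine (sum_le_card_nsmul _ _ _ fun T h => h2 T (mem_powersetCard_univ.1 h)).trans ?_
    rw [smul_eq_mul, mul_assoc]
    refine Nat.mul_le_mul_right _ ?_
    rw [← Fintype.card_finset]
    exact card_le_univ _
  · exact (sum_le_card_nsmul _ _ _ fun i _ => h1 i).trans (by simp)

end Pool.Agent.P.MP_12d50c_ag.BT
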