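import Pool.Agent.P.MP_12d50c_ag.BT.IfaceB

/-! Step GRP. -/

set_option autoImplicit false
set_option linter.unusedSectionVars false

namespace Pool.Agent.P.MP_12d50c_ag.BT

open Finset Function Filter

theorem p_GRP :
    S_GRP := by
  classical
  intro A ι _ _ T r h
  let e : T ≃ A × Fin r := Fintype.equivOfCardEq (by simpa using h)
  refine ⟨fun i => if h : i ∈ T then (e ⟨i, h⟩).1 else Classical.arbitrary A, fun α =>
    ⟨univ.image fun t : Fin r => (e.symm (α, t)).1, fun i hi => ?_, ?_, fun i hi => ?_⟩⟩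
  · obtain ⟨t, -, rfl⟩ := mem_image.1 hi
    exact (e.symm (α, t)).2
  · rw [card_image_of_injective _ fun t t' h =>
      (Prod.mk.inj (e.symm.injective (Subtype.ext h))).2, card_univ, Fintype.card_fin]
  · obtain ⟨t, -, rfl⟩ := mem_image.1 hi
    simp

end Pool.Agent.P.MP_12d50c_ag.BT
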