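import Pool.Agent.P.MP_12d50c_ag.BT.IfaceB

/-! Step KO. -/

set_option autoImplicit false
set_option linter.unusedSectionVars false

namespace Pool.Agent.P.MP_12d50c_ag.BT

open Finset Function Filter

theorem p_KO :
    S_KO := by
  intro Ω _ k d h
  refine ⟨not_finite_iff_infinite.1 fun hk => ?_, fun c hc h0 => ?_⟩
  · obtain ⟨k₀, _, hle, -, hQ⟩ := h.lf ∅ (Nat.card k + 1) (by simp)
    have := Nat.card_le_card_of_injective _ (Subfield.inclusion hle).injective
    omega
  · obtain ⟨k₀, _, -, hm, -⟩ := h.lf {c} 0 (by simpa using hc)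
    have := Fintype.ofFinite k₀
    have hc₀ : c ∈ k₀ := hm c (mem_singleton_self c)
    have hN : 0 < Fintype.card k₀ - 1 := Nat.sub_pos_of_lt Fintype.one_lt_card
    have e : c ^ (Fintype.card k₀ - 1) = 1 :=
      congrArg Subtype.val (FiniteField.pow_card_sub_one_eq_one (⟨c, hc₀⟩ : k₀)
        fun h1 => h0 (congrArg Subtype.val h1))
    refine ⟨⟨_, hN, e⟩, fun O => ?_⟩
    have e' := congrArg O.valuation e
    rw [map_pow, map_one] at e'
    exact (pow_eq_one_iff_left hN.ne').1 e'

end Pool.Agent.P.MP_12d50c_ag.BT
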