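import Pool.Agent.P.MP_12d50c_ag.BT.IfaceA

/-! Step LJ. -/

set_option autoImplicit false
set_option linter.unusedSectionVars false

namespace Pool.Agent.P.MP_12d50c_ag.BT

open Finset Function

theorem p_LJ (hLJ0 : S_LJ0) :
    S_LJ := by
  intro X V _ _ _ b H₀ H₁ Γ w f μ ε hs ho h0 h1 hw hμ hε hf
  classical
  let P : X → X → Prop := fun x x' => ∀ v v', ∃ y ∈ H₀, b x y = v ∧ b x' y = v'
  have hP : ∀ x x', P x x' → P x' x := fun x x' h v v' =>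
    let ⟨y, a, c, e⟩ := h v' v; ⟨y, a, e, c⟩
  let Y := Γ.filter fun y => ∀ v, ∃ z ∈ H₁, b y z = v
  let N : X → Finset X := fun x => Γ.filter fun x' => ¬ P x x'
  have hY : ∀ z ∈ Y, ∀ y ∈ H₀, z + y ∈ Y := fun z hz y hy => by
    obtain ⟨a, c⟩ := mem_filter.1 hz
    refine mem_filter.2 ⟨h0 z a y hy, fun v => ?_⟩
    obtain ⟨t, e, g⟩ := c v
    exact ⟨t, e, by rw [map_add, AddMonoidHom.add_apply, g, ho y hy t e, add_zero]⟩
  have hN : ∀ x, ∀ z ∈ N x, ∀ y ∈ H₁, z + y ∈ N x := fun x z hz y hy => by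
    obtain ⟨a, c⟩ := mem_filter.1 hz
    refine mem_filter.2 ⟨h1 z a y hy, fun h => c fun v v' => ?_⟩
    obtain ⟨t, e, g, g'⟩ := h v v'
    refine ⟨t, e, g, ?_⟩
    rwa [map_add, AddMonoidHom.add_apply, hs y t, ho t e y hy, add_zero] at g'
  have hμ0 : 0 ≤ μ := by
    have h2 : (0 : ℝ) < Fintype.card V := by exact_mod_cast Fintype.card_pos
    have h3 : 0 ≤ μ * Fintype.card V := hμ ▸ sum_nonneg fun v _ => hw v
    exact nonneg_of_mul_nonneg_left h3 h2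
  have key := fun x (hx : x ∈ Γ) (hne : f x ≠ 0) => hLJ0 X V b H₀ H₁ Y (N x) w μ x hs hY (hN x) hμ
    (fun y hy => (mem_filter.1 hy).2) (hf x hx hne).1
  obtain ⟨u, hu⟩ : ∃ u : X → ℝ, ∀ y, u y = ∑ x ∈ Γ, (w (b x y) - μ) * f x := ⟨_, fun _ => rfl⟩
  obtain ⟨D, hD⟩ : ∃ D : X → X → ℝ, ∀ x x', D x x' = ∑ y ∈ Y, w (b x y) * w (b x' y) :=
    ⟨_, fun _ _ => rfl⟩
  obtain ⟨M, hM⟩ : ∃ M : ℝ, M = μ ^ 2 * Y.card := ⟨_, rfl⟩
  have hM0 : 0 ≤ M := by rw [hM]; positivity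
  have hD0 : ∀ x x', 0 ≤ D x x' := fun x x' => by
    rw [hD]; exact sum_nonneg fun y _ => mul_nonneg (hw _) (hw _)
  obtain ⟨R, hR⟩ : ∃ R : X → X → ℝ,
    ∀ x x', R x x' = if P x x' then 0 else f x ^ 2 / 2 * (D x x' + M) := ⟨_, fun _ _ => rfl⟩
  have hR0 : ∀ x x', 0 ≤ R x x' := fun x x' => by
    rw [hR]; split_ifs
    · exact le_rfl
    · have := hD0 x x'; positivity
  have A : ∑ x ∈ Γ, ∑ y ∈ Γ, w (b x y) * f x * f y =
      μ * (∑ x ∈ Γ, f x) ^ 2 + ∑ y ∈ Y, f y * u y := by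
    have : ∑ y ∈ Y, f y * u y = ∑ y ∈ Γ, f y * u y :=
      sum_filter_of_ne fun y hy h => (hf y hy (left_ne_zero_of_mul h)).2.1
    rw [this, sq, sum_mul_sum, sum_comm, mul_sum, ← sum_add_distrib]
    refine sum_congr rfl fun y _ => ?_
    rw [hu, mul_sum, mul_sum, ← sum_add_distrib]
    exact sum_congr rfl fun x _ => by ring
  have B : ∑ y ∈ Y, u y ^ 2 = ∑ x ∈ Γ, ∑ x' ∈ Γ,
      f x * f x' * ∑ y ∈ Y, (w (b x y) - μ) * (w (b x' y) - μ) := by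
    simp only [hu, sq, sum_mul_sum]
    simp only [mul_sum]
    rw [sum_comm]
    refine sum_congr rfl fun x _ => ?_
    rw [sum_comm]
    exact sum_congr rfl fun x' _ => sum_congr rfl fun y _ => by ring
  have C : ∀ x ∈ Γ, ∀ x' ∈ Γ, f x * f x' * ∑ y ∈ Y, (w (b x y) - μ) * (w (b x' y) - μ) ≤
      R x x' + R x' x := fun x hx x' hx' => by
    have h2 := add_nonneg (hR0 x x') (hR0 x' x)
    by_cases a : f x = 0
    · rwa [a, zero_mul, zero_mul]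
    by_cases a' : f x' = 0
    · rwa [a', mul_zero, zero_mul]
    have h3 : ∑ y ∈ Y, (w (b x y) - μ) * (w (b x' y) - μ) = D x x' - M := by
      have : ∀ y, (w (b x y) - μ) * (w (b x' y) - μ) =
        w (b x y) * w (b x' y) - μ * w (b x y) - μ * w (b x' y) + μ ^ 2 := fun y => by ring
      simp only [this, sum_add_distrib, sum_sub_distrib, ← mul_sum, (key x hx a).1,
        (key x' hx' a').1, sum_const, nsmul_eq_mul, hD, hM]
      ring
    rw [h3]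
    by_cases c : P x x'
    · rwa [hD, (key x hx a).2.1 x' c, ← hM, sub_self, mul_zero]
    have h4 : D x' x = D x x' := by simp only [hD, mul_comm]
    rw [hR, hR, if_neg c, if_neg fun h => c (hP _ _ h), h4]
    nlinarith [mul_nonneg (hD0 x x') (sq_nonneg (f x - f x')),
      mul_nonneg hM0 (sq_nonneg (f x + f x'))]
  have E : ∀ x ∈ Γ, 2 * ∑ x' ∈ Γ, R x x' ≤ (ε * μ * Γ.card) ^ 2 * f x ^ 2 := fun x hx => by
    by_cases a : f x = 0
    · simp [hR, a]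
    have h2 : ∑ x' ∈ Γ, R x x' = f x ^ 2 / 2 * ∑ x' ∈ N x, (D x x' + M) := by
      rw [mul_sum, sum_filter]
      exact sum_congr rfl fun x' _ => by rw [hR, ite_not]
    have h3 : {x' | x' ∈ Γ ∧ ¬ P x x'}.ncard = (N x).card := by
      rw [← Set.ncard_coe_finset, coe_filter]
    have h4 : 2 * ((N x).card : ℝ) ≤ ε ^ 2 * Γ.card := h3 ▸ (hf x hx a).2.2
    have h5 : (Y.card : ℝ) ≤ Γ.card := by exact_mod_cast card_filter_le _ _
    simp only [h2, sum_add_distrib, hD, (key x hx a).2.2, sum_const, nsmul_eq_mul, hM]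
    have h6 : (Y.card : ℝ) * (2 * (N x).card) ≤ Γ.card * (ε ^ 2 * Γ.card) :=
      mul_le_mul h5 h4 (by positivity) (by positivity)
    nlinarith [mul_le_mul_of_nonneg_left h6 (mul_nonneg (sq_nonneg μ) (sq_nonneg (f x)))]
  have G : ∑ y ∈ Y, u y ^ 2 ≤ (ε * μ * Γ.card) ^ 2 * ∑ x ∈ Γ, f x ^ 2 := by
    rw [B, mul_sum]
    refine (sum_le_sum fun x hx => sum_le_sum (C x hx)).trans (le_trans (le_of_eq ?_) (sum_le_sum E))
    simp only [sum_add_distrib, two_mul]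
    rw [sum_comm (f := fun x x' => R x' x)]
  have S0 : 0 ≤ ∑ x ∈ Γ, f x ^ 2 := sum_nonneg fun _ _ => sq_nonneg _
  have I : (∑ y ∈ Y, f y * u y) ^ 2 ≤ (ε * μ * Γ.card * ∑ x ∈ Γ, f x ^ 2) ^ 2 := by
    refine (sum_mul_sq_le_sq_mul_sq _ _ _).trans ((mul_le_mul (sum_le_sum_of_subset_of_nonneg
      (filter_subset _ _) fun _ _ _ => sq_nonneg _) G (sum_nonneg fun _ _ => sq_nonneg _)
      S0).trans (le_of_eq ?_))
    generalize ∑ x ∈ Γ, f x ^ 2 = S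
    ring
  have := (abs_le_of_sq_le_sq' I
    (mul_nonneg (mul_nonneg (mul_nonneg hε hμ0) (Nat.cast_nonneg _)) S0)).1
  rw [A]
  linarith [mul_nonneg hμ0 (sq_nonneg (∑ x ∈ Γ, f x))]

end Pool.Agent.P.MP_12d50c_ag.BT
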