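import Pool.Agent.P.MP_12d50c_ag.BT.IfaceA

/-! Step LJ0. -/

set_option autoImplicit false
set_option linter.unusedSectionVars false

namespace Pool.Agent.P.MP_12d50c_ag.BT

open Finset Function

lemma avg_lj0 (hCL : S_CL) {X V : Type} [AddCommGroup X] [AddCommGroup V] [Fintype V]
    (L : X →+ V) (H : AddSubgroup X) (Z : Finset X) (w : V → ℝ) (μ : ℝ)
    (h1 : ∀ v, ∃ y ∈ H, L y = v) (h2 : ∀ z ∈ Z, ∀ y ∈ H, z + y ∈ Z)
    (h3 : ∑ v, w v = μ * Fintype.card V) : ∑ z ∈ Z, w (L z) = μ * Z.card := by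
  have h := hCL X V L H Z w h1 h2
  have hc : (Fintype.card V : ℝ) ≠ 0 := Nat.cast_ne_zero.2 Fintype.card_ne_zero
  refine mul_left_cancel₀ hc ?_
  rw [h, h3]
  ring

theorem p_LJ0 (hCL : S_CL) :
    S_LJ0 := by
  intro X V _ _ _ b H₀ H₁ Y N w μ x hs hY hN hw h1 h0
  have p1 := avg_lj0 hCL (b x) H₀ Y w μ h0 hY hw
  refine ⟨p1, fun x' hx' => ?_, ?_⟩
  · refine avg_lj0 hCL ((b x).prod (b x')) H₀ Y (fun p => w p.1 * w p.2) (μ ^ 2)
      (fun v => ?_) hY ?_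
    · obtain ⟨y, hy, a, c⟩ := hx' v.1 v.2
      exact ⟨y, hy, Prod.ext a c⟩
    · rw [Fintype.sum_prod_type, ← sum_mul_sum, hw, Fintype.card_prod]
      push_cast
      ring
  · rw [sum_comm, sum_congr rfl fun y hy => show ∑ x' ∈ N, w (b x y) * w (b x' y) =
      w (b x y) * (μ * N.card) by
        rw [← mul_sum, ← avg_lj0 hCL (b y) H₁ N w μ (h1 y hy) hN hw]
        simp only [hs y], ← sum_mul, p1]
    ring

end Pool.Agent.P.MP_12d50c_ag.BT
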