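import Pool.Agent.P.MP_12d50c_ag.BT.IfaceD

/-! Step LMA. -/

set_option autoImplicit false
set_option linter.unusedSectionVars false

namespace Pool.Agent.P.MP_12d50c_ag.BT

open Finset Function Polynomial CategoryTheory AlgebraicGeometry
open scoped TensorProduct

theorem len_lma {R : Type} [CommRing R] (q : PrimeSpectrum R) {N N' : Type} [AddCommGroup N]
    [Module R N] [AddCommGroup N'] [Module R N'] [Module (Localization.AtPrime q.asIdeal) N']
    [IsScalarTower R (Localization.AtPrime q.asIdeal) N'] (f : N →ₗ[R] N')
    [IsLocalizedModule q.asIdeal.primeCompl f] :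
    LL R N q = Module.length (Localization.AtPrime q.asIdeal) N' :=
  ((IsLocalizedModule.iso q.asIdeal.primeCompl f).extendScalarsOfIsLocalization
    q.asIdeal.primeCompl (Localization.AtPrime q.asIdeal)).length_eq

theorem p_LMA :
    S_LMA := by
  intro R _ q
  refine ⟨fun N N' _ _ _ _ e => ?_, fun N _ _ P => ?_, fun ι _ N _ _ => ?_, fun J => ?_⟩
  · exact (LinearEquiv.ofBijective (LocalizedModule.map q.asIdeal.primeCompl e.toLinearMap)
      ⟨LocalizedModule.map_injective _ _ e.injective,
        LocalizedModule.map_surjective _ _ e.surjective⟩).length_eq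
  · exact Module.length_eq_add_of_exact (LocalizedModule.map q.asIdeal.primeCompl P.subtype)
      (LocalizedModule.map q.asIdeal.primeCompl P.mkQ)
      (LocalizedModule.map_injective _ _ P.injective_subtype)
      (LocalizedModule.map_surjective _ _ P.mkQ_surjective)
      (LocalizedModule.map_exact _ _ _ (LinearMap.exact_subtype_mkQ P))
  · rw [len_lma q (LinearMap.pi fun i =>
      LocalizedModule.mkLinearMap q.asIdeal.primeCompl (N i) ∘ₗ LinearMap.proj i),
      Module.length_pi_of_fintype]
    rfl
  · rw [len_lma q (Submodule.toLocalizedQuotient' (Localization.AtPrime q.asIdeal)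
      q.asIdeal.primeCompl (Algebra.linearMap R (Localization.AtPrime q.asIdeal)) J),
      Ideal.localized'_eq_map]
    rfl

end Pool.Agent.P.MP_12d50c_ag.BT
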