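import Pool.Agent.P.MP_12d50c_ag.BT.IfaceD

/-! Step LRES. -/

set_option autoImplicit false
set_option linter.unusedSectionVars false

namespace Pool.Agent.P.MP_12d50c_ag.BT

open Finset Function Polynomial CategoryTheory AlgebraicGeometry
open scoped TensorProduct

theorem one_lres (hLMA : S_LMA) {R : Type} [CommRing R] (q : PrimeSpectrum R) :
    LL R (R ⧸ q.asIdeal) q = 1 := by
  have h := (hLMA R q).2.2.2 q.asIdeal
  rw [ln, Localization.AtPrime.map_eq_maximalIdeal, Module.length_eq_one_iff.2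
    (isSimpleModule_iff_isCoatom.2 (Ideal.isMaximal_def.1 inferInstance))] at h
  exact (ENat.toNat_eq_iff one_ne_zero).1 h.symm

theorem zero_lres {R : Type} [CommRing R] (m : Ideal R) (q : PrimeSpectrum R)
    (h : ¬ m ≤ q.asIdeal) : LL R (R ⧸ m) q = 0 := by
  obtain ⟨a, h1, h2⟩ := SetLike.not_le_iff_exists.1 h
  refine Module.length_eq_zero_iff.2 (LocalizedModule.subsingleton_iff.2 fun x => ⟨a, h2, ?_⟩)
  rw [Algebra.smul_def, Ideal.Quotient.algebraMap_eq, Ideal.Quotient.eq_zero_iff_mem.2 h1, zero_mul]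

theorem main_lres {F R B E : Type} [Field F] [CommRing R] [CommRing B] [Field E] [Algebra F R]
    [Algebra F B] [Algebra F E] [Algebra R B] [IsScalarTower F R B] [FiniteDimensional F E]
    (χ : B →ₐ[F] E) (hχ : Function.Surjective χ) (m : Ideal R)
    (hm : m = (RingHom.ker χ).comap (algebraMap R B)) :
    m.IsMaximal ∧ ∃ r : ℕ, r * Module.finrank F (R ⧸ m) = Module.finrank F E ∧
      Nonempty ((B ⧸ RingHom.ker χ) ≃ₗ[R] (Fin r → R ⧸ m)) := by
  have : (RingHom.ker χ).LiesOver m := ⟨hm⟩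
  let e := Ideal.quotientKerAlgEquivOfSurjective hχ
  have : FiniteDimensional F (B ⧸ RingHom.ker χ) := e.symm.toLinearEquiv.finiteDimensional
  have : Module.Finite (R ⧸ m) (B ⧸ RingHom.ker χ) := .of_restrictScalars_finite F _ _
  have hP : (RingHom.ker χ).IsMaximal := RingHom.ker_isMaximal_of_surjective χ hχ
  have hM : m.IsMaximal := Ideal.Quotient.maximal_of_isField _
    (isField_of_isIntegral_of_isField (FaithfulSMul.algebraMap_injective _ (B ⧸ RingHom.ker χ))
      ((Ideal.Quotient.maximal_ideal_iff_isField_quotient _).1 hP))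
  let _ := Ideal.Quotient.field m
  refine ⟨hM, Module.finrank (R ⧸ m) (B ⧸ RingHom.ker χ), ?_,
    ⟨(Module.finBasis (R ⧸ m) (B ⧸ RingHom.ker χ)).equivFun.restrictScalars R⟩⟩
  rw [mul_comm, Module.finrank_mul_finrank, e.toLinearEquiv.finrank_eq]

theorem p_LRES (hLMA : S_LMA) :
    S_LRES := by
  intro F R B E _ _ _ _ _ _ _ _ _ _ χ q hχ
  by_cases h : q.asIdeal = (RingHom.ker χ).comap (algebraMap R B)
  · obtain ⟨-, r, h1, ⟨e⟩⟩ := main_lres χ hχ _ h
    have h2 : LL R (B ⧸ RingHom.ker χ) q = r := by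
      rw [(hLMA R q).1 _ _ e, (hLMA R q).2.2.1]
      simp [one_lres hLMA q]
    rw [h2]
    exact ⟨ENat.natCast_ne_top r, fun _ => h1, fun c => absurd h c⟩
  · obtain ⟨hM, r, -, ⟨e⟩⟩ := main_lres (R := R) χ hχ _ rfl
    have h2 : LL R (B ⧸ RingHom.ker χ) q = 0 := by
      rw [(hLMA R q).1 _ _ e, (hLMA R q).2.2.1]
      exact sum_eq_zero fun _ _ => zero_lres _ q fun c => h (hM.eq_of_le q.2.ne_top c).symm
    rw [h2]
    exact ⟨ENat.zero_ne_top, fun c => absurd c h, fun _ => rfl⟩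

end Pool.Agent.P.MP_12d50c_ag.BT
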