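import Pool.Agent.P.MP_12d50c_ag.BT.IfaceD

/-! Step LS. -/

set_option autoImplicit false
set_option linter.unusedSectionVars false

namespace Pool.Agent.P.MP_12d50c_ag.BT

open Finset Function Polynomial CategoryTheory AlgebraicGeometry
open scoped TensorProduct

section
variable {R S : Type} [CommRing R] [CommRing S]

theorem length_comap_ls (φ : R →+* S) (h : Surjective φ) (I : Ideal S) :
    Module.length S (S ⧸ I) = Module.length R (R ⧸ I.comap φ) := by
  have : RingHomSurjective φ := ⟨h⟩
  let f : (R ⧸ I.comap φ) →ₛₗ[φ] S ⧸ I :=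
    ⟨(Ideal.quotientMap I φ le_rfl).toAddMonoidHom.toAddHom, fun r m => by
      obtain ⟨b, rfl⟩ := Ideal.Quotient.mk_surjective m
      change Ideal.Quotient.mk I (φ (r * b)) = Ideal.Quotient.mk I (φ r * φ b)
      rw [map_mul φ]⟩
  have hf : Bijective f :=
    ⟨Ideal.quotientMap_injective, Ideal.quotientMap_surjective (H := le_rfl) h⟩
  rw [Module.length, Module.length, WithBot.unbot_inj,
    Order.krullDim_eq_of_orderIso (Submodule.orderIsoMapComapOfBijective f hf)]

variable (f : R →+* S) (Q : Ideal S) [Q.IsPrime]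

theorem surj_ls (h : Surjective f) :
    Surjective (Localization.localRingHom (Q.comap f) Q f rfl) := by
  intro x
  obtain ⟨⟨a, b, hb⟩, rfl⟩ := IsLocalization.mk'_surjective Q.primeCompl x
  obtain ⟨a, rfl⟩ := h a
  obtain ⟨b, rfl⟩ := h b
  exact ⟨IsLocalization.mk' _ a (⟨b, hb⟩ : (Q.comap f).primeCompl),
    Localization.localRingHom_mk' _ _ _ _ _ _⟩

theorem ker_le_ls (h : Surjective f) :
    RingHom.ker (Localization.localRingHom (Q.comap f) Q f rfl) ≤
      (RingHom.ker f).map (algebraMap R (Localization.AtPrime (Q.comap f))) := by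
  intro x hx
  obtain ⟨⟨a, b⟩, rfl⟩ := IsLocalization.mk'_surjective (Q.comap f).primeCompl x
  rw [RingHom.mem_ker, Localization.localRingHom_mk', IsLocalization.mk'_eq_zero_iff] at hx
  obtain ⟨⟨c, hc⟩, hx⟩ := hx
  obtain ⟨c, rfl⟩ := h c
  rw [IsLocalization.mk'_mem_map_algebraMap_iff (Q.comap f).primeCompl]
  exact ⟨c, hc, by rw [RingHom.mem_ker, map_mul]; exact hx⟩

theorem len_ls (J : Ideal R) (h : Surjective f) :
    Module.length (Localization.AtPrime Q) (Localization.AtPrime Q ⧸
      (J.map f).map (algebraMap S (Localization.AtPrime Q))) =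
    Module.length (Localization.AtPrime (Q.comap f)) (Localization.AtPrime (Q.comap f) ⧸
      (J ⊔ RingHom.ker f).map (algebraMap R (Localization.AtPrime (Q.comap f)))) := by
  have e : (algebraMap S (Localization.AtPrime Q)).comp f =
      (Localization.localRingHom (Q.comap f) Q f rfl).comp
        (algebraMap R (Localization.AtPrime (Q.comap f))) :=
    RingHom.ext fun x => (Localization.localRingHom_to_map (Q.comap f) Q f rfl x).symm
  rw [length_comap_ls _ (surj_ls f Q h), Ideal.map_map, e, ← Ideal.map_map,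
    Ideal.comap_map_of_surjective _ (surj_ls f Q h), Ideal.map_sup, ← RingHom.ker_eq_comap_bot,
    le_antisymm (ker_le_ls f Q h) ?_]
  rw [Ideal.map_le_iff_le_comap]
  intro x hx
  rw [Ideal.mem_comap, RingHom.mem_ker, Localization.localRingHom_to_map, RingHom.mem_ker.1 hx,
    map_zero]

end

theorem p_LS :
    S_LS := by
  intro F R S _ _ _ _ _ f J z h
  refine ⟨congrArg ENat.toNat (len_ls f.toRingHom z.asIdeal J h), ?_⟩
  exact (AlgEquiv.ofBijective (Ideal.quotientMapₐ z.asIdeal f (I := z.asIdeal.comap f) le_rfl)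
    ⟨Ideal.quotientMap_injective, Ideal.quotientMap_surjective (H := le_rfl) h⟩).toLinearEquiv.finrank_eq

end Pool.Agent.P.MP_12d50c_ag.BT
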