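import Pool.Agent.P.MP_12d50c_ag.BT.IfaceD
import Pool.Agent.P.MP_12d50c_ag.BT.IfaceB

/-! Step MAIN. -/

set_option autoImplicit false
set_option linter.unusedSectionVars false

namespace Pool.Agent.P.MP_12d50c_ag.BT

open Finset Function Polynomial CategoryTheory AlgebraicGeometry
open scoped TensorProduct

theorem p_MAIN (hCORE : S_CORE) (hSPEC : S_SPEC) (hCURVE : S_CURVE) (hMUL : S_MUL) (hALT : S_ALT) (hSWAP : S_SWAP) (hMKW : S_MKW) (hPHB : S_PHB) (hCST : S_CST) (hKO : S_KO) :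
    S_MAIN := by
  intro p _ F _ _ d n hd hn
  obtain ⟨n, rfl⟩ : ∃ m, n = m + 1 :=
    ⟨n - 1, by have : 0 < 4 * ((d + 1) ^ (d + 1) * (4 * d + 1)) := by positivity
               omega⟩
  refine hSPEC F n fun φ hφ z hz ht => ?_
  obtain ⟨k, hk⟩ := hCST p F d hd
  have h1 := hCURVE F (AlgebraicClosure F) (n + 1) φ hφ
  have h2 := hMUL _ _ _ h1
  obtain ⟨ω, hω⟩ := hMKW _ _ _ h2 (hSWAP _ n _ h2 (hALT _ k d n _ hk h1 h2))
  have h3 : ω = 0 := hCORE _ k d _ ω hk hn fun y hy hs => by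
    rw [hω y hy, phb, dif_pos (by rw [Fin.sum_univ_succ]; simpa using hs)]
  obtain ⟨h4, h5⟩ := hPHB F (AlgebraicClosure F) (n + 1) φ
  obtain ⟨x, hx, h6⟩ := h5 z hz ht
  refine h6 ?_
  have h7 := hω (fun i => (x 0)⁻¹ * x i.succ) fun i => mul_ne_zero (inv_ne_zero (hx 0)) (hx _)
  rw [h3, AlternatingMap.zero_apply] at h7
  rw [← h4 (x 0)⁻¹ x (inv_ne_zero (hx 0)), h7]
  refine congrArg _ (funext fun i => ?_)
  refine Fin.cases ?_ (fun i => rfl) i
  exact inv_mul_cancel₀ (hx 0)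

end Pool.Agent.P.MP_12d50c_ag.BT
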