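import Pool.Agent.P.MP_12d50c_ag.BT.IfaceD

/-! Step MKW. -/

set_option autoImplicit false
set_option linter.unusedSectionVars false

namespace Pool.Agent.P.MP_12d50c_ag.BT

open Finset Function Polynomial CategoryTheory AlgebraicGeometry
open scoped TensorProduct

/-- The homogeneous coordinates of a family of units. -/
def co_mkw {E : Type} [Field E] {n : ℕ} (m : Fin n → MM E) : Fin (n + 1) → E :=
  Fin.cons 1 fun i => ((Additive.toMul (m i) : Eˣ) : E)

theorem ne_mkw {E : Type} [Field E] {n : ℕ} (m : Fin n → MM E) (i : Fin (n + 1)) :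
    co_mkw m i ≠ 0 := by
  refine Fin.cases ?_ (fun i => ?_) i
  · exact one_ne_zero
  · exact Units.ne_zero _

theorem up_mkw {E : Type} [Field E] {n : ℕ} (m : Fin n → MM E) (i : Fin n) (x : MM E) :
    co_mkw (update m i x) = update (co_mkw m) i.succ ((Additive.toMul x : Eˣ) : E) := by
  rw [co_mkw, co_mkw, ← Fin.cons_update]
  exact congrArg _ (comp_update (fun x : MM E => ((Additive.toMul x : Eˣ) : E)) m i x)

theorem p_MKW :
    S_MKW := by
  intro E _ n Φ hA h0
  have hadd : ∀ (m : Fin n → MM E) (i : Fin n) (x y : MM E),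
      Φ (co_mkw (update m i (x + y))) =
        Φ (co_mkw (update m i x)) + Φ (co_mkw (update m i y)) := fun m i x y => by
    have h1 := h0 0 i.succ _ (ne_mkw (update m i 0)) (Fin.succ_ne_zero i).symm
      (by rw [up_mkw, update_self, update_of_ne (Fin.succ_ne_zero i).symm]; rfl)
    have h2 := hA i.succ _ _ _ (ne_mkw m) (Additive.toMul x).ne_zero (Additive.toMul y).ne_zero
    rw [up_mkw, toMul_zero, Units.val_one] at h1
    rw [h1, add_zero] at h2
    rw [up_mkw, up_mkw, up_mkw, toMul_add, Units.val_mul, h2]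
  refine ⟨⟨MultilinearMap.mk' (fun m => Φ (co_mkw m)) (fun m i x y => ?_) fun m i c x => ?_,
    fun m i j e hij => h0 i.succ j.succ _ (ne_mkw m) (fun h => hij (Fin.succ_injective _ h))
      (congrArg (fun x : MM E => ((Additive.toMul x : Eˣ) : E)) e)⟩, fun z hz => ?_⟩
  · exact hadd m i x y
  · exact map_zsmul (AddMonoidHom.mk' (fun x => Φ (co_mkw (update m i x))) (hadd m i)) c x
  · refine congrArg (fun y : Fin n → E => Φ (Fin.cons 1 y)) (funext fun i => ?_)
    simp only [lg_of_ne (hz i)]
    rfl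

end Pool.Agent.P.MP_12d50c_ag.BT
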