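import Pool.Agent.P.MP_12d50c_ag.BT.IfaceD

/-! Step MUL. -/

set_option autoImplicit false
set_option linter.unusedSectionVars false

namespace Pool.Agent.P.MP_12d50c_ag.BT

open Finset Function Polynomial CategoryTheory AlgebraicGeometry
open scoped TensorProduct

theorem p_MUL (hMUL0 : S_MUL0) :
    S_MUL := by
  intro E _ _ n Φ h j x a b hx ha hb
  classical
  have s1 : ∀ a b : E, a * b ≠ 0 → a ≠ b → a * b ≠ 1 → Φ (update x j (a * b)) + Φ (update x j 1) =
      Φ (update x j a) + Φ (update x j b) := fun a b h0 h1 h2 => by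
    rcases eq_or_ne a 1 with rfl | h3
    · rw [one_mul, add_comm]
    rcases eq_or_ne b 1 with rfl | h4
    · rw [mul_one]
    exact hMUL0 E n Φ j x _ _ _ _ h hx (mul_one _) (by rwa [mul_one]) h2 h1 fun e =>
      mul_ne_zero (sub_ne_zero.2 h3) (sub_ne_zero.2 h4) (by linear_combination e)
  obtain ⟨z, hz⟩ := Infinite.exists_notMem_finset ({0, a * b, (a * b)⁻¹, a / b, b, b⁻¹} : Finset E)
  simp only [mem_insert, mem_singleton, not_or] at hz
  obtain ⟨z0, z1, z2, z3, z4, z5⟩ := hz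
  have e0 : a * b * z ≠ 1 := fun e => z2 (eq_inv_of_mul_eq_one_right e)
  have e1 := s1 (a * b) z (mul_ne_zero (mul_ne_zero ha hb) z0) (Ne.symm z1) e0
  have e2 := s1 a (b * z) (mul_ne_zero ha (mul_ne_zero hb z0))
    (fun e => z3 (by rw [e, mul_div_cancel_left₀ _ hb])) (by rwa [← mul_assoc])
  have e3 := s1 b z (mul_ne_zero hb z0) (Ne.symm z4) fun e => z5 (eq_inv_of_mul_eq_one_right e)
  rw [mul_assoc] at e1
  linarith

end Pool.Agent.P.MP_12d50c_ag.BT
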