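import Pool.Agent.P.MP_12d50c_ag.BT.IfaceD

/-! Step MUL0. -/

set_option autoImplicit false
set_option linter.unusedSectionVars false

namespace Pool.Agent.P.MP_12d50c_ag.BT

open Finset Function Polynomial CategoryTheory AlgebraicGeometry
open scoped TensorProduct

theorem sa_mul0 {n : ℕ} {i j : Fin (n + 1)} (h : i ≠ j) :
    j.succ.succAbove i = j.castSucc.succAbove i := by
  rcases lt_or_gt_of_ne h with c | c
  · rw [Fin.succAbove_succ_of_le _ _ c.le, Fin.succAbove_castSucc_of_lt _ _ c]
  · rw [Fin.succAbove_succ_of_lt _ _ c, Fin.succAbove_castSucc_of_le _ _ c.le]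

theorem ne_mul0 {E : Type} [Field E] {x y x' y' : E} (h1 : x * y = x' * y') (h2 : x * y ≠ 0)
    (h3 : x + y ≠ x' + y') : x ≠ x' := by
  rintro rfl
  exact h3 (by rw [mul_left_cancel₀ (left_ne_zero_of_mul h2) h1])

theorem p_MUL0 :
    S_MUL0 := by
  classical
  intro E _ n Φ j c x y x' y' hΦ hc h1 h2 h3 h4 h5
  obtain ⟨k, hk⟩ : ∃ k : E, k * (x' + y' - x - y) = 1 :=
    ⟨_, inv_mul_cancel₀ fun e => h5 (by linear_combination -e)⟩
  have k0 : k ≠ 0 := left_ne_zero_of_mul_eq_one hk
  obtain ⟨κ, κ1, κ2⟩ : ∃ κ : Fin (n + 2) → E, κ j.castSucc = k ∧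
      ∀ i, κ (j.castSucc.succAbove i) = update c j (-k) i :=
    ⟨Fin.insertNth (α := fun _ => E) j.castSucc k (update c j (-k)), by simp, by simp⟩
  obtain ⟨S, S1, S2⟩ : ∃ S : Fin (n + 2) → Finset E, S j.castSucc = {x, y} ∧
      ∀ i, S (j.castSucc.succAbove i) = update (fun _ => (∅ : Finset E)) j {x', y'} i :=
    ⟨Fin.insertNth (α := fun _ => Finset E) j.castSucc {x, y} (update (fun _ => ∅) j {x', y'}),
      by simp, by simp⟩
  have S3 : S j.succ = {x', y'} := by
    rw [← Fin.succAbove_castSucc_self, S2, update_self]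
  have P1 : pp κ S j.castSucc = C k * ((X - C x) * (X - C y)) := by
    rw [pp, κ1, S1, prod_pair h3]
  have P2 : pp κ S j.succ = C (-k) * ((X - C x') * (X - C y')) := by
    rw [pp, S3, prod_pair h4, ← Fin.succAbove_castSucc_self, κ2, update_self]
  have P3 : ∀ i, i ≠ j → pp κ S (j.castSucc.succAbove i) = C (c i) := fun i hi => by
    rw [pp, κ2, S2, update_of_ne hi, update_of_ne hi, prod_empty, mul_one]
  have P4 : pp κ S j.castSucc + pp κ S j.succ = X := by
    have a1 := congrArg (C : E → E[X]) hk
    have a2 := congrArg (C : E → E[X]) h1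
    simp only [map_mul, map_sub, map_add, map_one] at a1 a2
    rw [P1, P2, map_neg]
    linear_combination X * a1 + C k * a2
  have hS : ∀ l, l = j.castSucc ∨ l = j.succ ∨ S l = ∅ := fun l => by
    rcases Fin.eq_self_or_eq_succAbove j.castSucc l with e | ⟨i, rfl⟩
    · exact Or.inl e
    · by_cases e : i = j
      · exact Or.inr (Or.inl (by rw [e, Fin.succAbove_castSucc_self]))
      · exact Or.inr (Or.inr (by rw [S2, update_of_ne e]))
  have hd : Disjoint ({x, y} : Finset E) {x', y'} := by
    have a1 := ne_mul0 h1 h2 h5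
    have a2 : x ≠ y' := ne_mul0 (h1.trans (mul_comm _ _)) h2 (by rwa [add_comm y'])
    have a3 : y ≠ x' := ne_mul0 ((mul_comm _ _).trans h1) (by rwa [mul_comm]) (by rwa [add_comm y])
    have a4 : y ≠ y' := ne_mul0 ((mul_comm _ _).trans (h1.trans (mul_comm _ _)))
      (by rwa [mul_comm]) (by rwa [add_comm y, add_comm y'])
    simp [a1.symm, a2.symm, a3.symm, a4.symm]
  have hcur : Cur κ S := by
    refine ⟨fun l => ?_, fun l l' e => ?_, j.castSucc, ?_⟩
    · rcases Fin.eq_self_or_eq_succAbove j.castSucc l with rfl | ⟨i, rfl⟩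
      · rwa [κ1]
      · rw [κ2]
        by_cases e : i = j
        · rw [e, update_self]
          exact neg_ne_zero.2 k0
        · rw [update_of_ne e]
          exact hc i
    · rcases hS l with rfl | rfl | a
      · rcases hS l' with rfl | rfl | a'
        · exact absurd rfl e
        · rwa [S1, S3]
        · rw [a']
          exact disjoint_empty_right _
      · rcases hS l' with rfl | rfl | a'
        · rw [S1, S3]
          exact hd.symm
        · exact absurd rfl e
        · rw [a']
          exact disjoint_empty_right _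
      · rw [a]
        exact disjoint_empty_left _
    · rw [ss, Fin.sum_univ_succAbove _ j.castSucc, ← add_sum_erase _ _ (mem_univ j),
        Fin.succAbove_castSucc_self, ← add_assoc, P4,
        sum_congr rfl fun i hi => P3 i (ne_of_mem_erase hi), ← map_sum, degree_X_add_C, S1,
        card_pair h3]
      decide
  have V1 : ∀ a, (a - x) * (a - y) = 0 →
      (fun i => (pp κ S (j.castSucc.succAbove i)).eval a) = update c j a := fun a ha => by
    funext i
    by_cases e : i = j
    · have := congrArg (Polynomial.eval a) P4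
      rw [eval_add, P1] at this
      simp only [eval_mul, eval_sub, eval_X, eval_C, ha, mul_zero, zero_add] at this
      rw [e, update_self, Fin.succAbove_castSucc_self, this]
    · rw [P3 i e, update_of_ne e, eval_C]
  have V2 : ∀ a, (a - x') * (a - y') = 0 →
      (fun i => (pp κ S (j.succ.succAbove i)).eval a) = update c j a := fun a ha => by
    funext i
    by_cases e : i = j
    · have := congrArg (Polynomial.eval a) P4
      rw [eval_add, P2] at this
      simp only [eval_mul, eval_sub, eval_X, eval_C, ha, mul_zero, add_zero] at this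
      rw [e, update_self, Fin.succAbove_succ_self, this]
    · rw [sa_mul0 e, P3 i e, update_of_ne e, eval_C]
  have h := hΦ κ S hcur
  rw [Fin.sum_univ_succAbove _ j.castSucc, sum_eq_single j (fun i _ e => by
      rw [S2, update_of_ne e, sum_empty, mul_zero]) (fun e => absurd (mem_univ j) e),
    Fin.succAbove_castSucc_self, S1, S3, sum_pair h3, sum_pair h4, V1 x (by simp), V1 y (by simp),
    V2 x' (by simp), V2 y' (by simp), Fin.val_succ, Fin.val_castSucc, pow_succ] at h
  have a : ((-1 : ℚ)) ^ (j : ℕ) ≠ 0 := pow_ne_zero _ (by norm_num)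
  refine mul_left_cancel₀ a ?_
  linear_combination h

end Pool.Agent.P.MP_12d50c_ag.BT
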