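import Pool.Agent.P.MP_12d50c_ag.BT.IfaceB

/-! Step NEW. -/

set_option autoImplicit false
set_option linter.unusedSectionVars false

namespace Pool.Agent.P.MP_12d50c_ag.BT

open Finset Function Filter

theorem p_NEW :
    S_NEW := by
  intro M _ Y d n
  have mono : ∀ {p p' : ℕ} {e : Fin n → EE M}, p ≤ p' → Sta p e → Sta p' e := fun h a =>
    ⟨fun i s hs => (a.lt i s hs).trans_le h, a.two⟩
  refine ⟨?_, fun p 𝒜 l => ?_⟩
  · rintro p 𝒜 m ⟨A, B, rfl⟩
    refine ⟨update (update 𝒜 p A) (p + 1) B,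
      (0, Finsupp.single p 1) - (0, Finsupp.single (p + 1) 1), fun s hs => ?_, fun s hs => ?_, ?_⟩
    · rw [update_of_ne (by omega), update_of_ne (by omega)]
    · by_contra hc
      refine hs ?_
      rw [Prod.snd_sub, Finsupp.sub_apply, Finsupp.single_eq_of_ne (by omega),
        Finsupp.single_eq_of_ne (by omega), sub_zero]
    · rw [Y.ev_sub]
      funext v
      simp [VS.ev, lin, update_of_ne (Nat.succ_ne_self p).symm]
  · induction l generalizing p 𝒜 with
    | nil => exact fun _ => ⟨p, 𝒜, le_rfl, fun _ _ => rfl, fun _ _ _ h => by simp at h⟩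
    | cons e l ih =>
      intro h
      obtain ⟨h1, h2⟩ := h e List.mem_cons_self
      obtain ⟨p1, A1, a1, a2, a3⟩ := h2 p 𝒜 e h1 fun _ => rfl
      obtain ⟨p2, A2, b1, b2, b3⟩ := ih p1 A1 fun e' he' => by
        obtain ⟨c1, c2⟩ := h e' (List.mem_cons_of_mem _ he')
        refine ⟨mono a1 c1, ?_⟩
        rwa [funext fun i => Y.ev_congr fun s hs => a2 s (c1.lt i s hs)]
      refine ⟨p2, A2, a1.trans b1, fun s hs => (b2 s (hs.trans_le a1)).trans (a2 s hs),
        fun ω hω e' he' => ?_⟩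
      rcases List.mem_cons.1 he' with rfl | he'
      · refine a3 ω fun e'' c1 c2 => hω e'' (mono b1 c1) ?_
        rwa [funext fun i => Y.ev_congr fun s hs => b2 s (c1.lt i s hs)]
      · exact b3 ω hω e' he'

end Pool.Agent.P.MP_12d50c_ag.BT
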