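import Pool.Agent.P.MP_12d50c_ag.BT.IfaceA

/-! Step NJ. -/

set_option autoImplicit false
set_option linter.unusedSectionVars false

namespace Pool.Agent.P.MP_12d50c_ag.BT

open Finset Function

theorem p_NJ (hSZ : S_SZ) :
    S_NJ := by
  intro ι _ _ K _ _ W _ _ _ V _ _ _ β J J₁ J₂ x hJ hd g1 g2
  have : Module.Finite K V := Module.Finite.of_finite
  have x2 : J₂.piecewise x 0 ∈ XT K W J₂ := mem_XT.2 fun i hi => by
    rw [piecewise_eq_of_notMem _ _ _ hi]; rfl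
  have x3 : J₂.piecewise x 0 ∈ XT K W J := mem_XT.2 fun i hi => mem_XT.1 x2 i fun e => hi (hJ e)
  let L₀ : XT K W (J₁ ∪ J₂) →ₗ[K] V × V :=
    ((bb β x).prod (bb β (J₂.piecewise x 0))).domRestrict _
  let L₁ : XT K W J →ₗ[K] XT K W (J₁ ∪ J₂) →ₗ[K] V × V :=
    ((bb β).domRestrict₁₂ _ _).compr₂ (LinearMap.inr K V V)
  have h0 : Surjective L₀ := by
    rintro ⟨v, v'⟩
    obtain ⟨y₂, a2, b2⟩ := g2 v'
    obtain ⟨y₁, a1, b1⟩ := g1 (v - v')
    refine ⟨⟨y₁ + y₂, add_mem (mem_XT.2 fun i hi => mem_XT.1 a1 i fun e => hi (mem_union_left _ e))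
      (mem_XT.2 fun i hi => mem_XT.1 a2 i fun e => hi (mem_union_right _ e))⟩, Prod.ext ?_ ?_⟩
    · show bb β x (y₁ + y₂) = v
      rw [map_add, b1, b2, sub_add_cancel]
    · show bb β (J₂.piecewise x 0) (y₁ + y₂) = v'
      rw [map_add, bb_eq_zero β x2 a1 hd.symm, zero_add, ← b2]
      exact bb_congr β a2 fun i hi => piecewise_eq_of_mem _ _ _ hi
  have h1 := (hSZ K (XT K W J) (XT K W (J₁ ∪ J₂)) (V × V)).1 L₀ L₁ h0
  have h2 : Nat.card (XT K W J) = (GT K W J).card :=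
    Nat.subtype_card (GT K W J) fun _ => mem_GT
  rw [Module.finrank_prod, ← two_mul, h2] at h1
  refine (Nat.mul_le_mul_left _ ((Set.ncard_le_ncard ?_).trans
    (Set.ncard_image_le (f := fun t : XT K W J => J₂.piecewise x 0 + t.1)))).trans h1
  rintro x' ⟨a, b⟩
  refine ⟨⟨x' - J₂.piecewise x 0, sub_mem (mem_GT.1 a) x3⟩, fun hs => b fun v v' => ?_,
    add_sub_cancel _ _⟩
  obtain ⟨y, hy⟩ := hs (v, v')
  have e1 : bb β x y + 0 = v := congrArg Prod.fst hy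
  have e2 : bb β (J₂.piecewise x 0) y + bb β (x' - J₂.piecewise x 0) y = v' :=
    congrArg Prod.snd hy
  refine ⟨y, y.2, by rwa [add_zero] at e1, ?_⟩
  rwa [← LinearMap.add_apply, ← map_add, add_sub_cancel] at e2

end Pool.Agent.P.MP_12d50c_ag.BT
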