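import Pool.Agent.P.MP_12d50c_ag.BT.IfaceD

/-! Step OPM. -/

set_option autoImplicit false
set_option linter.unusedSectionVars false

namespace Pool.Agent.P.MP_12d50c_ag.BT

open Finset Function Polynomial CategoryTheory AlgebraicGeometry
open scoped TensorProduct

namespace OPMx

theorem len_eq {A B : Type} [CommRing A] [CommRing B] (e : A →+* B) (he : Bijective e)
    (J : Ideal A) : Module.length A (A ⧸ J) = Module.length B (B ⧸ J.map e) := by
  rw [Module.length_quotient, Module.length_quotient]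
  exact (Order.coheight_orderIso (Ideal.relIsoOfBijective e he).symm J).symm

theorem bij {Z Z' : Scheme.{0}} (g : Z ⟶ Z') [IsOpenImmersion g] (x : Z) :
    Bijective (g.stalkMap x).hom := ConcreteCategory.bijective_of_isIso (g.stalkMap x)

theorem ideal_map {Z Z' : Scheme.{0}} (g : Z ⟶ Z') [IsOpenImmersion g] (x w : Z) :
    (idealOf (g x) (g w)).map (g.stalkMap x).hom = idealOf x w := by
  have hs : g w ⤳ g x ↔ w ⤳ x := g.isOpenEmbedding.isInducing.specializes_iff
  rw [← Ideal.map_comap_of_surjective _ (bij g x).2 (idealOf x w)]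
  congr 1
  by_cases h : w ⤳ x
  · rw [idealOf, idealOf, iInf_pos h, iInf_pos (hs.2 h), Ideal.comap_comap,
      ← IsLocalRing.maximalIdeal_comap (g.stalkMap w).hom, Ideal.comap_comap]
    congr 1
    exact congrArg (·.hom) (g.stalkSpecializes_stalkMap w x h)
  · rw [idealOf, idealOf, iInf_neg h, iInf_neg (fun c => h (hs.1 c)), Ideal.comap_top]

theorem mult_right {Y Z Z' : Scheme.{0}} (a : Y ⟶ Z) (g : Z ⟶ Z') [IsOpenImmersion g] (w : Z)
    (z : Y) : mult (a ≫ g) (g w) z = mult a w z := by
  have h : (idealOf ((a ≫ g) z) (g w)).map ((a ≫ g).stalkMap z).hom =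
      (idealOf (a z) w).map (a.stalkMap z).hom := by
    rw [← ideal_map g, Ideal.map_map, Scheme.Hom.stalkMap_comp]
    rfl
  rw [mult, mult, h]

theorem mult_left {Y Y' Z' : Scheme.{0}} (f : Y ⟶ Y') (a : Y' ⟶ Z') [IsOpenImmersion f] (w : Z')
    (z : Y) : mult (f ≫ a) w z = mult a w (f z) := by
  have h : (idealOf ((f ≫ a) z) w).map ((f ≫ a).stalkMap z).hom =
      ((idealOf (a (f z)) w).map (a.stalkMap (f z)).hom).map (f.stalkMap z).hom := by
    rw [Ideal.map_map, Scheme.Hom.stalkMap_comp]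
    rfl
  rw [mult, mult, h, len_eq _ (bij f z)]

end OPMx

theorem p_OPM :
    S_OPM := by
  refine ⟨fun Y Y' f _ => ⟨fun y y' => ?_, fun y => coheight_eq_of_isOpenImmersion f⟩,
    fun Y Y' Z Z' f g _ _ a a' h w z => ?_⟩
  · exact f.isOpenEmbedding.isInducing.specializes_iff.symm
  · rw [← OPMx.mult_right a g, h, OPMx.mult_left]

end Pool.Agent.P.MP_12d50c_ag.BT
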