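import Pool.Agent.P.MP_12d50c_ag.BT.IfaceD

/-! Step PHB. -/

set_option autoImplicit false
set_option linter.unusedSectionVars false

namespace Pool.Agent.P.MP_12d50c_ag.BT

open Finset Function Polynomial CategoryTheory AlgebraicGeometry
open scoped TensorProduct

theorem pt_phb {F E : Type} [Field F] [Field E] [Algebra F E] {n : ℕ} {x : Fin (n + 1) → E}
    (h : ∑ i, x i ≠ 0) (g : AS F n →ₐ[F] E) (e : ∀ j, x j / ∑ i, x i = g (tt F j)) :
    (pt F x h).asIdeal = RingHom.ker g :=
  congrArg (fun f : AS F n →ₐ[F] E => RingHom.ker f) (as_ext fun j => (evA_tt ..).trans (e j))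

theorem p_PHB :
    S_PHB := by
  intro F Ω _ _ _ _ n φ
  refine ⟨fun c x hc => ?_, fun z hz ht => ?_⟩
  · by_cases h : ∑ i, x i = 0
    · rw [phb, phb, dif_pos h, dif_pos (by rw [← mul_sum, h, mul_zero])]
    · have h' : ∑ i, c * x i ≠ 0 := by rw [← mul_sum]; exact mul_ne_zero hc h
      have e : pt F (fun i => c * x i) h' = pt F x h :=
        PrimeSpectrum.ext (pt_phb h' _ fun j => by
          rw [evA_tt, ← mul_sum, mul_div_mul_left _ _ hc])
      rw [phb, phb, dif_neg h, dif_neg h', e]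
  · let _ := Ideal.Quotient.field z.asIdeal
    have : Module.Finite F (AS F n ⧸ z.asIdeal) := finite_of_finite_type_of_isJacobsonRing _ _
    let g : (AS F n ⧸ z.asIdeal) →ₐ[F] Ω := IsAlgClosed.lift
    have hk : ∀ a, (g.comp (Ideal.Quotient.mkₐ F z.asIdeal)) a = 0 ↔ a ∈ z.asIdeal := fun a =>
      (map_eq_zero g).trans Ideal.Quotient.eq_zero_iff_mem
    have hs : ∑ i, (g.comp (Ideal.Quotient.mkₐ F z.asIdeal)) (tt F i) = 1 := by
      rw [← map_sum, sum_tt, map_one]
    refine ⟨fun i => (g.comp (Ideal.Quotient.mkₐ F z.asIdeal)) (tt F i),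
      fun i e => ht i ((hk _).1 e), fun h => ?_⟩
    have h' := hs.trans_ne one_ne_zero
    have e : pt F (fun i => (g.comp (Ideal.Quotient.mkₐ F z.asIdeal)) (tt F i)) h' = z :=
      PrimeSpectrum.ext ((pt_phb h' _ fun j => by rw [hs, div_one]).trans (Ideal.ext hk))
    rw [phb, dif_neg h', e, div_eq_zero_iff] at h
    exact h.resolve_right (Nat.cast_ne_zero.2 Module.finrank_pos.ne')

end Pool.Agent.P.MP_12d50c_ag.BT
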