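import Pool.Agent.P.MP_12d50c_ag.BT.IfaceB

/-! Step PIG. -/

set_option autoImplicit false
set_option linter.unusedSectionVars false

namespace Pool.Agent.P.MP_12d50c_ag.BT

open Finset Function Filter

theorem p_PIG :
    S_PIG := by
  classical
  intro k R _ _ _ Λ r j h
  rw [Submodule.span_pow]
  refine Submodule.span_le.2 fun x hx => ?_
  obtain ⟨g, rfl⟩ := Set.mem_pow.1 hx
  rw [List.prod_ofFn]
  obtain ⟨a, ha, hc⟩ := Finset.exists_lt_card_fiber_of_mul_lt_card_of_maps_to
    (s := (univ : Finset (Fin (j + (r + 1))))) (t := Λ) (f := fun t => (g t : R)) (n := r)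
    (fun t _ => (g t).2) (by simpa using h)
  obtain ⟨U, hU, hU'⟩ := Finset.exists_subset_card_eq (Nat.succ_le_of_lt hc)
  have e1 : ∏ t ∈ U, (g t : R) = a ^ (r + 1) := by
    rw [prod_congr rfl fun t ht => (mem_filter.1 (hU ht)).2, prod_const, hU']
  have e2 : ∀ V : Finset (Fin (j + (r + 1))), ∏ t ∈ V, (g t : R) ∈ sp k Λ ^ V.card := fun V => by
    induction V using Finset.induction_on with
    | empty =>
      rw [prod_empty, card_empty, pow_zero]
      exact Submodule.one_le.1 le_rfl
    | insert t V ht ih =>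
      rw [prod_insert ht, card_insert_of_notMem ht, pow_succ']
      exact Submodule.mul_mem_mul (Submodule.subset_span (g t).2) ih
  have e3 : Uᶜ.card = j := by
    rw [card_compl, hU', Fintype.card_fin]
    omega
  rw [← prod_mul_prod_compl U, e1]
  refine Submodule.mem_iSup_of_mem a (Submodule.mem_iSup_of_mem ha
    (Submodule.mul_mem_mul (Submodule.mem_span_singleton_self _) ?_))
  have e4 := e2 Uᶜ
  rwa [e3] at e4

end Pool.Agent.P.MP_12d50c_ag.BT
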