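import Pool.Agent.P.MP_12d50c_ag.BT.IfaceB

/-! Step REAL. -/

set_option autoImplicit false
set_option linter.unusedSectionVars false

namespace Pool.Agent.P.MP_12d50c_ag.BT

open Finset Function Filter

theorem p_REAL (hKO : S_KO) (hGEN : S_GEN) :
    S_REAL := by
  intro Ω _ k d n p 𝒜 hk
  classical
  obtain ⟨G, hG, hb⟩ := hGEN Ω k d (Fin p)
    (fun s => (𝒜 s).1.image fun x => ((Additive.toMul x : Ωˣ) : Ω)) hk fun s =>
      ⟨(𝒜 s).2.image _, fun a ha => by
        obtain ⟨x, -, rfl⟩ := mem_image.1 ha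
        exact Units.ne_zero _⟩
  refine ⟨fun s => if h : s < p then lg (G ⟨s, h⟩) else 0, fun e he ho O => ?_⟩
  set B := {s : Fin p | ∃ a ∈ (𝒜 s).1.image fun x => ((Additive.toMul x : Ωˣ) : Ω),
    O.valuation (G s) < O.valuation a} with hB
  have good : ∀ s ∉ B, (vs Ω).val O (lg (G s)) = (vs Ω).tr (𝒜 s) O := fun s hs => by
    obtain ⟨b, b1, b2⟩ := exists_mem_eq_sup' (𝒜 s).2 ((vs Ω).val O)
    rw [VS.tr, b2, vs_eq, lg_of_ne (hG s).2]
    refine le_antisymm ?_ (not_lt.1 fun c => hs ⟨_, mem_image_of_mem _ b1, c⟩)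
    refine Submodule.span_induction (p := fun x _ => O.valuation x ≤ _) (fun x hx => ?_)
      (by simp) (fun x y _ _ => O.valuation.map_add_le) (fun c x _ hx => ?_) (hG s).1
    · obtain ⟨a, a1, rfl⟩ := mem_image.1 hx
      exact (vs_le O a b).1 (b2 ▸ le_sup' _ a1)
    · change O.valuation (c.1 * x) ≤ _
      by_cases c0 : c.1 = 0
      · simp [c0]
      · rwa [map_mul, ((hKO Ω k d hk).2 c c.2 c0).2 O, one_mul]
  refine (Set.ncard_le_ncard (t := {i | (vs Ω).ev 𝒜 (e i) O ≠ 0} ∪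
    ⋃ s ∈ B.toFinset, {i | (e i).2 s ≠ 0}) fun i hi => ?_).trans ?_
  · refine by_contra fun c => hi ?_
    simp only [Set.mem_union, Set.mem_iUnion, Set.mem_ofPred_eq, Set.mem_toFinset, not_or,
      not_not, not_exists] at c
    rw [← vs_eq_zero, ← c.1, lin_apply, map_add, map_sum, VS.ev, lin_apply]
    refine congrArg _ (sum_congr rfl fun s hs => ?_)
    have a := Finsupp.mem_support_iff.1 hs
    rw [map_zsmul, dif_pos (he.lt i s a), good _ fun m => a (c.2 ⟨s, he.lt i s a⟩ m)]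
  · have a := hb O
    rw [← hB, Set.ncard_eq_toFinset_card'] at a
    have b : {i | (vs Ω).ev 𝒜 (e i) O ≠ 0}.ncard ≤ d := ho O
    have c := B.toFinset.set_ncard_biUnion_le fun s => {i | (e i).2 s ≠ 0}
    have c' := B.toFinset.sum_le_card_nsmul (fun s => {i | (e i).2 s ≠ 0}.ncard) 2
      fun s _ => he.two s
    rw [smul_eq_mul] at c'
    exact (Set.ncard_union_le _ _).trans (by omega)

end Pool.Agent.P.MP_12d50c_ag.BT
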