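import Pool.Agent.P.MP_12d50c_ag.BT.IfaceB

/-! Step RED. -/

set_option autoImplicit false
set_option linter.unusedSectionVars false

namespace Pool.Agent.P.MP_12d50c_ag.BT

open Finset Function Filter

theorem p_RED (hPIG : S_PIG) (hRED0 : S_RED0) :
    S_RED := by
  intro k Ω _ _ _ Λ Q e hQ hO
  obtain ⟨c₀, hc₀⟩ := ((eventually_all_finset Λ).2 fun a ha => hRED0 k Ω Λ Q e a ha hQ hO).exists
  filter_upwards [eventually_ge_atTop (Λ.card * (c₀ + e) + c₀ + 1)] with c hc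
  obtain ⟨j, rfl⟩ : ∃ j, c = c₀ + 1 + j := ⟨c - (c₀ + 1), by omega⟩
  have h1 : c₀ + 1 + j + e = j + (c₀ + e + 1) := by omega
  rw [h1]
  refine (hPIG k Ω Λ (c₀ + e) j (by omega)).trans (iSup₂_le fun a ha => ?_)
  rw [pow_add (sp k Λ) (c₀ + 1) j, ← mul_assoc]
  exact mul_le_mul_left ((Submodule.span_singleton_le_iff_mem _ _).2 (hc₀ a ha)) _

end Pool.Agent.P.MP_12d50c_ag.BT
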