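import Pool.Agent.P.MP_12d50c_ag.BT.IfaceB

/-! Step RED0. -/

set_option autoImplicit false
set_option linter.unusedSectionVars false

namespace Pool.Agent.P.MP_12d50c_ag.BT

open Finset Function Filter

section

variable {k Ω : Type} [Field k] [Field Ω] [Algebra k Ω]

theorem mul_red0 (L P : Submodule k Ω) (a x y : Ω) (e : ℕ)
    (hx : ∀ᶠ c in atTop, x * a ^ (c + e) ∈ P * L ^ c) (hy : ∀ᶠ c in atTop, y * a ^ c ∈ L ^ c) :
    ∀ᶠ c in atTop, y * x * a ^ (c + e) ∈ P * L ^ c := by
  obtain ⟨N, hN⟩ := hx.exists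
  obtain ⟨N', hN'⟩ := eventually_atTop.1 hy
  filter_upwards [eventually_ge_atTop (N + N')] with c hc
  obtain ⟨d, rfl⟩ : ∃ d, c = N + d := ⟨c - N, by omega⟩
  have := Submodule.mul_mem_mul hN (hN' d (by omega))
  rw [mul_assoc P, ← pow_add] at this
  have e1 : y * x * a ^ (N + d + e) = x * a ^ (N + e) * (y * a ^ d) := by ring
  rw [e1]
  exact this

/-- The elements that are eventually fractions with denominator a power of `a`. -/
def R_red0 (L : Submodule k Ω) (a : Ω) (ha : a ∈ L) : Subring Ω where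
  carrier := {y | ∀ᶠ c in atTop, y * a ^ c ∈ L ^ c}
  zero_mem' := .of_forall fun c => by simp
  one_mem' := .of_forall fun c => by simpa using Submodule.pow_mem_pow L ha c
  add_mem' := fun {x y} hx hy => by
    filter_upwards [hx, hy] with c h1 h2
    rw [add_mul]
    exact add_mem h1 h2
  neg_mem' := fun {x} hx => by
    filter_upwards [hx] with c h1
    rw [neg_mul]
    exact neg_mem h1
  mul_mem' := fun {x y} hx hy => by
    have := mul_red0 L 1 a y x 0 (by simpa using hy) hx
    simpa using this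

/-- The ideal generated by the fractions from `P`. -/
def I_red0 (L P : Submodule k Ω) (a : Ω) (ha : a ∈ L) (e : ℕ) : Ideal (R_red0 L a ha) where
  carrier := {y | ∀ᶠ c in atTop, (y : Ω) * a ^ (c + e) ∈ P * L ^ c}
  zero_mem' := .of_forall fun c => by simp
  add_mem' := fun {x y} hx hy => by
    filter_upwards [hx, hy] with c h1 h2
    rw [Subring.coe_add, add_mul]
    exact add_mem h1 h2
  smul_mem' := fun r x hx => mul_red0 L P a x r e hx r.2

end

theorem p_RED0 :
    S_RED0 := by
  intro k Ω _ _ _ Λ Q e a ha hQ hO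
  by_cases a0 : a = 0
  · exact .of_forall fun c => by simp [a0]
  have haL : a ∈ sp k Λ := Submodule.subset_span ha
  by_cases hI : I_red0 (sp k Λ) (sp k Q) a haL e = ⊤
  · have h1 : (1 : R_red0 (sp k Λ) a haL) ∈ I_red0 (sp k Λ) (sp k Q) a haL e := by
      rw [hI]; trivial
    have h2 : ∀ᶠ c in atTop, (1 : Ω) * a ^ (c + e) ∈ sp k Q * sp k Λ ^ c := h1
    filter_upwards [(tendsto_add_atTop_nat 1).eventually h2] with c hc
    rw [one_mul, add_right_comm] at hc
    exact hc
  · exfalso
    obtain ⟨O, -, hO'⟩ := Ideal.image_subset_nonunits_valuationSubring _ hI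
    obtain ⟨g, hg, hv⟩ := hO O
    have ae : a ^ e ≠ 0 := pow_ne_zero _ a0
    have hR : g / a ^ e ∈ R_red0 (sp k Λ) a haL := by
      change ∀ᶠ c in atTop, g / a ^ e * a ^ c ∈ sp k Λ ^ c
      filter_upwards [eventually_ge_atTop e] with c hc
      obtain ⟨d, rfl⟩ := Nat.exists_eq_add_of_le hc
      rw [pow_add a, ← mul_assoc, div_mul_cancel₀ _ ae, pow_add]
      exact Submodule.mul_mem_mul (hQ g hg) (Submodule.pow_mem_pow _ haL d)
    have hgI : (⟨g / a ^ e, hR⟩ : R_red0 (sp k Λ) a haL) ∈ I_red0 (sp k Λ) (sp k Q) a haL e := by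
      change ∀ᶠ c in atTop, g / a ^ e * a ^ (c + e) ∈ sp k Q * sp k Λ ^ c
      refine .of_forall fun c => ?_
      rw [add_comm, pow_add, ← mul_assoc, div_mul_cancel₀ _ ae]
      exact Submodule.mul_mem_mul (Submodule.subset_span hg) (Submodule.pow_mem_pow _ haL c)
    have h3 : g / a ^ e ∈ O.nonunits := hO' ⟨_, hgI, rfl⟩
    rw [ValuationSubring.mem_nonunits_iff, map_div₀, map_pow,
      div_lt_one₀ (pow_pos (zero_lt_iff.2 ((Valuation.ne_zero_iff _).2 a0)) e)] at h3
    exact absurd (hv a ha) (not_le.2 h3)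

end Pool.Agent.P.MP_12d50c_ag.BT
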