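import Pool.Agent.P.MP_12d50c_ag.BT.IfaceB

/-! Step RR1. -/

set_option autoImplicit false
set_option linter.unusedSectionVars false

namespace Pool.Agent.P.MP_12d50c_ag.BT

open Finset Function Filter

theorem sta_rr1 {M : Type} [AddCommGroup M] {n p : ℕ} {e : Fin n → EE M} {ρ a a' : EE M}
    {j j' : Fin n} (he : Sta p e) (hρ : ∀ s, ρ.2 s ≠ 0 → p ≤ s ∧ s < p + 2)
    (ha : a = e j - ρ ∨ a = ρ) (ha' : a' = e j' - ρ ∨ a' = ρ) :
    Sta (p + 2) (update (update e j a) j' a') := by
  have h1 : ∀ i, update (update e j a) j' a' i = e i ∨ (i = j ∨ i = j') ∧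
      (update (update e j a) j' a' i = e i - ρ ∨ update (update e j a) j' a' i = ρ) := by
    intro i
    by_cases k : i = j'
    · subst k
      exact .inr ⟨.inr rfl, by rwa [update_self]⟩
    · rw [update_of_ne k]
      by_cases k' : i = j
      · subst k'
        exact .inr ⟨.inl rfl, by rwa [update_self]⟩
      · exact .inl (update_of_ne k' _ _)
  generalize update (update e j a) j' a' = e' at h1
  have h2 : ∀ i s, (e' i).2 s ≠ 0 → (e i).2 s ≠ 0 ∨ (i = j ∨ i = j') ∧ ρ.2 s ≠ 0 := by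
    intro i s hs
    rcases h1 i with k | ⟨k0, k | k⟩
    · exact .inl (k ▸ hs)
    · by_cases z : (e i).2 s = 0
      · refine .inr ⟨k0, fun z' => hs ?_⟩
        rw [k, Prod.snd_sub, Finsupp.sub_apply, z, z', sub_zero]
      · exact .inl z
    · exact .inr ⟨k0, k ▸ hs⟩
  refine ⟨fun i s hs => ?_, fun s => ?_⟩
  · rcases h2 i s hs with k | k
    · have := he.lt i s k
      omega
    · exact (hρ s k.2).2
  · by_cases k : s < p
    · refine le_trans (Set.ncard_le_ncard (fun i hi => ?_) (Set.toFinite _)) (he.two s)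
      rcases h2 i s hi with z | z
      · exact z
      · exact absurd (hρ s z.2).1 (by omega)
    · refine le_trans (Set.ncard_le_ncard (t := {j, j'}) (fun i hi => ?_) (Set.toFinite _)) ?_
      · rcases h2 i s hi with z | z
        · exact absurd (he.lt i s z) k
        · exact z.1
      · simpa using Set.ncard_insert_le j {j'}

theorem alt_rr1 {N : Type} [AddCommGroup N] {n : ℕ} (ω : Alt N n) (e : Fin n → N) (ρ : N)
    {j j' : Fin n} (hj : j ≠ j') :
    ω e = ω (update (update e j (e j - ρ)) j' (e j' - ρ)) +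
      ω (update (update e j (e j - ρ)) j' ρ) + ω (update (update e j ρ) j' (e j' - ρ)) := by
  have h1 : ∀ b, ω (update e j' b) =
      ω (update (update e j (e j - ρ)) j' b) + ω (update (update e j ρ) j' b) := by
    intro b
    rw [update_comm hj, update_comm hj, ← ω.map_update_add, sub_add_cancel, ← update_comm hj,
      update_eq_self]
  have h2 : ω (update (update e j ρ) j' ρ) = 0 :=
    ω.map_eq_zero_of_eq _ (by rw [update_self, update_of_ne hj, update_self]) hj
  have h3 : ω e = ω (update e j' (e j' - ρ)) + ω (update e j' ρ) := by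
    rw [← ω.map_update_add, sub_add_cancel, update_eq_self]
  rw [h3, h1, h1, h2]
  ring

theorem p_RR1 (hTRC : S_TRC) (hNEW : S_NEW) :
    S_RR1 := by
  intro M _ Y d n h j j' hj c1 c2 c3 p 𝒜 e he hv
  obtain ⟨t1, -, -, t4⟩ := hTRC M Y
  obtain ⟨n1, n2⟩ := hNEW M Y d n
  obtain ⟨𝒜₁, ρ, a1, a2, a3⟩ := n1 p 𝒜 (h j ⊓ h j')
    (t1 _ _ (hv j ▸ t4 𝒜 (e j)) (hv j' ▸ t4 𝒜 (e j'))).2
  have hv1 : ∀ i, Y.ev 𝒜₁ (e i) = h i := fun i =>
    (Y.ev_congr fun s hs => a1 s (he.lt i s hs)).trans (hv i)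
  have key : ∀ a a', (fun i => Y.ev 𝒜₁ (update (update e j a) j' a' i)) =
      Y.up2 h j j' (Y.ev 𝒜₁ a) (Y.ev 𝒜₁ a') := by
    intro a a'
    funext i
    unfold VS.up2
    by_cases k : i = j'
    · subst k
      rw [update_self, update_self]
    · rw [update_of_ne k, update_of_ne k]
      by_cases k' : i = j
      · subst k'
        rw [update_self, update_self]
      · rw [update_of_ne k', update_of_ne k', hv1]
  obtain ⟨p', 𝒜', b1, b2, b3⟩ := n2 (p + 2) 𝒜₁ [update (update e j (e j - ρ)) j' (e j' - ρ),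
    update (update e j (e j - ρ)) j' ρ, update (update e j ρ) j' (e j' - ρ)] (by
      intro e' he'
      simp only [List.mem_cons, List.not_mem_nil, or_false] at he'
      rcases he' with rfl | rfl | rfl
      · refine ⟨sta_rr1 he a2 (.inl rfl) (.inl rfl), ?_⟩
        rwa [key, Y.ev_sub, Y.ev_sub, hv1, hv1, a3]
      · refine ⟨sta_rr1 he a2 (.inl rfl) (.inr rfl), ?_⟩
        rwa [key, Y.ev_sub, hv1, a3]
      · refine ⟨sta_rr1 he a2 (.inr rfl) (.inl rfl), ?_⟩
        rwa [key, Y.ev_sub, hv1, a3])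
  refine ⟨p', 𝒜', by omega, fun s hs => (b2 s (by omega)).trans (a1 s hs), fun ω hω => ?_⟩
  rw [alt_rr1 ω e ρ hj, b3 ω hω _ (by simp), b3 ω hω _ (by simp), b3 ω hω _ (by simp)]
  simp

end Pool.Agent.P.MP_12d50c_ag.BT
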