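import Pool.Agent.P.MP_12d50c_ag.BT.IfaceB

/-! Step RR2. -/

set_option autoImplicit false
set_option linter.unusedSectionVars false

namespace Pool.Agent.P.MP_12d50c_ag.BT

open Finset Function Filter

theorem sta_rr2 {M : Type} [AddCommGroup M] {n p : ℕ} {e : Fin n → EE M} (he : Sta p e)
    (j : Fin n) (x : EE M) (hx : ∀ s, x.2 s ≠ 0 → (e j).2 s ≠ 0 ∨ p ≤ s ∧ s < p + 2) :
    Sta (p + 2) (update e j x) := by
  constructor
  · intro i s hs
    by_cases h : i = j
    · subst h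
      rw [update_self] at hs
      rcases hx s hs with a | a
      · exact (he.lt i s a).trans (by omega)
      · exact a.2
    · rw [update_of_ne h] at hs
      exact (he.lt i s hs).trans (by omega)
  · intro s
    by_cases hp : s < p
    · refine le_trans (Set.ncard_le_ncard (fun i hi => ?_) (Set.toFinite _)) (he.two s)
      by_cases h : i = j
      · subst h
        rw [Set.mem_ofPred_eq, update_self] at hi
        exact (hx s hi).resolve_right fun a => by omega
      · rwa [Set.mem_ofPred_eq, update_of_ne h] at hi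
    · refine le_trans (Set.ncard_le_ncard (t := {j}) (fun i hi => ?_) (Set.toFinite _)) (by simp)
      by_contra h
      rw [Set.mem_ofPred_eq, update_of_ne h] at hi
      exact hp (he.lt i s hi)

theorem ev_rr2 {M : Type} [AddCommGroup M] (Y : VS M) {n : ℕ} (𝒜 : ℕ → NF M)
    (e : Fin n → EE M) (j : Fin n) (x : EE M) :
    (fun i => Y.ev 𝒜 (update e j x i)) = update (fun i => Y.ev 𝒜 (e i)) j (Y.ev 𝒜 x) :=
  comp_update (Y.ev 𝒜) e j x

theorem p_RR2 (hTRC : S_TRC) (hNEW : S_NEW) :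
    S_RR2 := by
  intro M _ Y d n h j h1 h2 p 𝒜 e he hv
  obtain ⟨t1, -, t3, t4⟩ := hTRC M Y
  obtain ⟨n1, n2⟩ := hNEW M Y d n
  obtain ⟨𝒜₁, ρ, a1, a2, a3⟩ := n1 p 𝒜 (h j ⊓ 0) (t1 _ _ (hv j ▸ t4 𝒜 (e j)) t3).2
  have hv1 : ∀ i, Y.ev 𝒜₁ (e i) = h i := fun i =>
    (Y.ev_congr fun s hs => a1 s (he.lt i s hs)).trans (hv i)
  have hv2 : (fun i => Y.ev 𝒜₁ (e i)) = h := funext hv1
  obtain ⟨p', 𝒜', b1, b2, b3⟩ := n2 (p + 2) 𝒜₁ [update e j (e j - ρ), update e j (-ρ)] (by
    intro x hx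
    simp only [List.mem_cons, List.not_mem_nil, or_false] at hx
    rcases hx with rfl | rfl
    · refine ⟨sta_rr2 he j _ fun s hs => ?_, ?_⟩
      · by_contra hc
        rw [not_or, not_not] at hc
        refine hc.2 (a2 s fun h0 => hs ?_)
        rw [Prod.snd_sub, Finsupp.sub_apply, hc.1, h0, sub_zero]
      · rwa [ev_rr2, hv2, Y.ev_sub, hv1, a3]
    · refine ⟨sta_rr2 he j _ fun s hs => .inr (a2 s fun h0 => hs ?_), ?_⟩
      · rw [Prod.snd_neg, Finsupp.neg_apply, h0, neg_zero]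
      · rwa [ev_rr2, hv2, Y.ev_neg, a3])
  refine ⟨p', 𝒜', by omega, fun s hs => (b2 s (by omega)).trans (a1 s hs), fun ω hω => ?_⟩
  have c1 := b3 ω hω _ List.mem_cons_self
  have c2 := b3 ω hω _ (List.mem_cons_of_mem _ List.mem_cons_self)
  rw [ω.map_update_neg, neg_eq_zero] at c2
  rwa [ω.map_update_sub, c2, sub_zero, update_eq_self] at c1

end Pool.Agent.P.MP_12d50c_ag.BT
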