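import Pool.Agent.P.MP_12d50c_ag.BT.IfaceB

/-! Step RR3. -/

set_option autoImplicit false
set_option linter.unusedSectionVars false

namespace Pool.Agent.P.MP_12d50c_ag.BT

open Finset Function Filter

/-- Extension by zero along `s`. -/
def ext_rr3 {m n : ℕ} (s : Fin m → Fin n) (c : Fin m → ℤ) (i : Fin n) : ℤ :=
  ∑ j, if s j = i then c j else 0

theorem ext_app_rr3 {m n : ℕ} {s : Fin m → Fin n} (hs : Injective s) (c : Fin m → ℤ)
    (j : Fin m) : ext_rr3 s c (s j) = c j := by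
  unfold ext_rr3
  simp only [hs.eq_iff]
  simp

theorem ext_off_rr3 {m n : ℕ} (s : Fin m → Fin n) (c : Fin m → ℤ) (i : Fin n)
    (h : ∀ j, s j ≠ i) : ext_rr3 s c i = 0 :=
  sum_eq_zero fun j _ => if_neg (h j)

theorem ext_sum_rr3 {m n : ℕ} {G : Type} [AddCommGroup G] (s : Fin m → Fin n) (c : Fin m → ℤ)
    (g : Fin n → G) : ∑ i, ext_rr3 s c i • g i = ∑ j, c j • g (s j) := by
  unfold ext_rr3
  simp only [sum_smul]
  rw [sum_comm]
  refine sum_congr rfl fun j _ => ?_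
  simp only [ite_smul, zero_smul]
  simp

theorem p_RR3 (hTRC : S_TRC) :
    S_RR3 := by
  classical
  intro M _ Y d n hD h S hS H p 𝒜 e hSta he
  have hT : ∀ i, ∃ A B, h i = Y.tr A - Y.tr B := fun i => he i ▸ (hTRC M Y).2.2.2 𝒜 (e i)
  choose A B hAB using hT
  choose C hC0 hC using hD
  let s : Fin (d + 1) → Fin n := fun j => S.orderEmbOfFin hS j
  have hs : Injective s := (S.orderEmbOfFin hS).injective
  have hsS : ∀ j, s j ∈ S := fun j => S.orderEmbOfFin_mem hS j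
  let X : Finset (Fin (d + 1) → M × M) := Fintype.piFinset fun j => (A (s j)).1 ×ˢ (B (s j)).1
  let D : Finset (Fin n → ℤ) :=
    X.biUnion fun x => (C fun j => (x j).1 - (x j).2).image (ext_rr3 s)
  refine H D.toList ⟨?_, ?_⟩ p 𝒜 e hSta he
  · intro c hc
    obtain ⟨x, _, hx⟩ := mem_biUnion.1 (mem_toList.1 hc)
    obtain ⟨c', hc', rfl⟩ := mem_image.1 hx
    refine ⟨fun h0 => hC0 _ c' hc' (funext fun j => ?_), fun i hi => ?_⟩
    · rw [← ext_app_rr3 hs c' j, h0]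
      rfl
    · exact ext_off_rr3 s c' i fun j hj => hi (hj ▸ hsS j)
  · intro v _
    have ha : ∀ i, ∃ a ∈ (A i).1, Y.tr (A i) v = Y.val v a :=
      fun i => exists_mem_eq_sup' (A i).2 (Y.val v)
    have hb : ∀ i, ∃ b ∈ (B i).1, Y.tr (B i) v = Y.val v b :=
      fun i => exists_mem_eq_sup' (B i).2 (Y.val v)
    choose a ha1 ha2 using ha
    choose b hb1 hb2 using hb
    obtain ⟨c, hc, hc2⟩ := hC (fun j => a (s j) - b (s j)) v
    refine ⟨ext_rr3 s c, mem_toList.2 (mem_biUnion.2 ⟨fun j => (a (s j), b (s j)), ?_, ?_⟩), ?_⟩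
    · exact Fintype.mem_piFinset.2 fun j => mem_product.2 ⟨ha1 _, hb1 _⟩
    · exact mem_image_of_mem _ hc
    · rw [ext_sum_rr3 s c fun i => h i v, ← hc2]
      refine sum_congr rfl fun j _ => ?_
      rw [hAB, Pi.sub_apply, ha2, hb2, map_sub]

end Pool.Agent.P.MP_12d50c_ag.BT
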