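import Pool.Agent.P.MP_12d50c_ag.BT.IfaceD

/-! Step RZ. -/

set_option autoImplicit false
set_option linter.unusedSectionVars false

namespace Pool.Agent.P.MP_12d50c_ag.BT

open Finset Function Polynomial CategoryTheory AlgebraicGeometry
open scoped TensorProduct

theorem p_RZ :
    S_RZ := by
  intro A _ C B h
  have tor : ∀ c ∈ C, ∃ n : ℤ, n ≠ 0 ∧ n • c ∈ B := fun c hc => by
    by_contra hn
    have hi : Function.Injective (zmultiplesHom (A ⧸ B) (c : A ⧸ B)) := by
      rw [injective_iff_map_eq_zero]
      intro n e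
      by_contra h0
      exact hn ⟨n, h0, (QuotientAddGroup.eq_zero_iff _).1 e⟩
    obtain ⟨g, hg⟩ := (Module.Baer.of_divisible ℚ).extension_property_addMonoidHom _ hi
      (Int.castAddHom ℚ)
    have h1 := h (g.comp (QuotientAddGroup.mk' B)) (fun b hb => by
      rw [AddMonoidHom.comp_apply, QuotientAddGroup.mk'_apply,
        (QuotientAddGroup.eq_zero_iff b).2 hb, map_zero]) c hc
    have h2 := DFunLike.congr_fun hg 1
    simp only [AddMonoidHom.comp_apply, zmultiplesHom_apply, one_smul, Int.coe_castAddHom,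
      Int.cast_one] at h2
    exact one_ne_zero (h2.symm.trans h1)
  have : Subsingleton (ℚ ⊗[ℤ] (C ⧸ B.addSubgroupOf C)) := by
    refine subsingleton_of_forall_eq 0 fun x => ?_
    induction x using TensorProduct.induction_on with
    | zero => rfl
    | add x y hx hy => rw [hx, hy, add_zero]
    | tmul q x =>
      obtain ⟨c, rfl⟩ := QuotientAddGroup.mk_surjective x
      obtain ⟨n, h0, hn⟩ := tor c c.2
      have h1 : n • (c : C ⧸ B.addSubgroupOf C) = 0 :=
        (QuotientAddGroup.eq_zero_iff (n • c)).2 hn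
      have h2 : q = n • (q / n) := by
        rw [zsmul_eq_mul, mul_div_cancel₀ _ (Int.cast_ne_zero.2 h0)]
      rw [h2, TensorProduct.smul_tmul, h1, TensorProduct.tmul_zero]
  exact rank_subsingleton' _ _

end Pool.Agent.P.MP_12d50c_ag.BT
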