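import Pool.Agent.P.MP_12d50c_ag.BT.IfaceD

/-! Step SPEC. -/

set_option autoImplicit false
set_option linter.unusedSectionVars false

namespace Pool.Agent.P.MP_12d50c_ag.BT

open Finset Function Polynomial CategoryTheory AlgebraicGeometry
open scoped TensorProduct

theorem SPECx.single {α : Type} (ψ : (α →₀ ℤ) →+ ℚ) (a : α) (r : ℤ) :
    ψ (Finsupp.single a r) = ψ (Finsupp.single a 1) * r := by
  rw [mul_comm, ← zsmul_eq_mul, ← map_zsmul, Finsupp.smul_single_one]

theorem p_SPEC (hDIM : S_DIM) (hADM : S_ADM) (hRZ : S_RZ) (hDIC : S_DIC) :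
    S_SPEC := by
  classical
  intro F _ n h
  obtain ⟨e, h1, h2⟩ := hDIC F
  refine hRZ _ _ _ fun ψ hψ c hc => ?_
  have hK : KillA fun z => ψ (Finsupp.single ((e (n + 1)).symm z) 1) := fun w Z hw hZ => by
    obtain ⟨W, rfl⟩ := (e (n + 2)).surjective w
    have hW : Admissible _ (n + 1) (n + 2) W :=
      ⟨(h1 _ W).trans ((hDIM F (n + 1)).2.2 _ hw.dim), fun m g z hz => by
        rw [h1]
        exact (hADM F (n + 1)).1 _ hw m g _ ((h2 _ _ g W z).1.1 hz)⟩
    have hb : ∑ z ∈ Z, Finsupp.single ((e (n + 1)).symm z) (∑ j : Fin (n + 3), (-1) ^ (j : ℕ) *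
        (ln ((e (n + 2) W).asIdeal.map (fm F j.succAbove)) z : ℤ)) ∈
        boundaries _ (n + 1) (n + 1) := by
      refine ⟨Finsupp.single W 1, Finsupp.single_mem_supported ℤ 1 hW, funext fun y => ?_⟩
      change bd _ (n + 1) (n + 1) (Finsupp.single W 1) y = (∑ z ∈ Z, _ : _ →₀ ℤ) y
      rw [bd, Finsupp.linearCombination_single, one_smul, Finsupp.finsetSum_apply]
      simp only [Finsupp.single_apply, Equiv.symm_apply_eq, fun j : Fin (n + 3) =>
        (h2 _ _ j.succAbove W y).2]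
      rw [sum_ite_eq']
      by_cases hy : e (n + 1) y ∈ Z
      · rw [if_pos hy, if_pos ((h1 _ y).trans (((hDIM F (n + 1)).2.1 _).2.1 (hZ.max _ hy)))]
      · rw [if_neg hy, sum_eq_zero fun j _ => ?_, ite_self]
        rw [ln_eq_zero fun c => hy (hZ.mem j _ c), Nat.cast_zero, mul_zero]
    rw [← hψ _ hb, map_sum]
    refine sum_congr rfl fun z _ => ?_
    rw [SPECx.single ψ _ (∑ _, _)]
    push_cast
    rfl
  rw [← c.sum_single, map_finsuppSum]
  refine sum_eq_zero fun w hw => ?_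
  have ha : Admissible _ (n + 1) (n + 1) w := hc.1 hw
  have := h _ hK (e _ w) (((hDIM F (n + 1)).2.1 _).2.2 ((h1 _ w).symm.trans ha.1)) fun i hi => by
    obtain ⟨z, hz⟩ := (hADM F n).2.2 _ i hi
    obtain ⟨y, rfl⟩ := (e n).surjective z
    have h3 := ha.2 n (Fin.succAboveOrderEmb i) y ((h2 _ _ _ w y).1.2 hz.le)
    rw [h1] at h3
    have h4 := h3.trans ((hDIM F n).2.1 _).1
    exact absurd (ENat.natCast_le_natCast.1 h4) (by omega)
  rw [Equiv.symm_apply_apply] at this
  exact (SPECx.single ψ _ _).trans (by rw [this, zero_mul])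

end Pool.Agent.P.MP_12d50c_ag.BT
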