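import Pool.Agent.P.MP_12d50c_ag.BT.IfaceD

/-! Step SPM. -/

set_option autoImplicit false
set_option linter.unusedSectionVars false

namespace Pool.Agent.P.MP_12d50c_ag.BT

open Finset Function Polynomial CategoryTheory AlgebraicGeometry
open scoped TensorProduct

namespace SPMx

theorem len_eq {A B : Type} [CommRing A] [CommRing B] (e : A ≃+* B) (J : Ideal A) :
    Module.length A (A ⧸ J) = Module.length B (B ⧸ J.map (e : A →+* B)) := by
  rw [Module.length_quotient, Module.length_quotient]
  exact (Order.coheight_orderIso (Ideal.relIsoOfBijective (e : A →+* B) e.bijective).symm J).symm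

theorem len_loc {S B : Type} [CommRing S] [CommRing B] [Algebra S B] (z : PrimeSpectrum S)
    [IsLocalization.AtPrime B z.asIdeal] (J : Ideal S) :
    (Module.length B (B ⧸ J.map (algebraMap S B))).toNat = ln J z := by
  let e := IsLocalization.algEquiv z.asIdeal.primeCompl B (Localization.AtPrime z.asIdeal)
  have h : (e.toRingEquiv : B →+* Localization.AtPrime z.asIdeal).comp (algebraMap S B) =
      algebraMap S (Localization.AtPrime z.asIdeal) := RingHom.ext fun x => e.commutes x
  rw [ln, len_eq e.toRingEquiv, Ideal.map_map, h]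

theorem idealOf_spec {R : Type} [CommRing R] (x w : Spec (CommRingCat.of R)) :
    idealOf x w = w.asIdeal.map (StructureSheaf.toStalk R x).hom := by
  let k : ∀ x : Spec (CommRingCat.of R), Algebra R ((Spec (CommRingCat.of R)).presheaf.stalk x) :=
    fun x => StructureSheaf.stalkAlgebra R x
  have hl : ∀ x : Spec (CommRingCat.of R),
      IsLocalization.AtPrime ((Spec (CommRingCat.of R)).presheaf.stalk x) x.asIdeal :=
    fun x => StructureSheaf.IsLocalization.to_stalk R x
  by_cases h : w ⤳ x
  · rw [idealOf, iInf_pos h, ← IsLocalization.map_under x.asIdeal.primeCompl _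
      (Ideal.comap _ _)]
    congr 1
    rw [← IsLocalization.AtPrime.under_maximalIdeal
      ((Spec (CommRingCat.of R)).presheaf.stalk w) w.asIdeal, Ideal.under, Ideal.under,
      Ideal.comap_comap]
    congr 1
    exact congrArg (·.hom) (StructureSheaf.toStalk_stalkSpecializes h)
  · rw [idealOf, iInf_neg h]
    obtain ⟨a, h1, h2⟩ := SetLike.not_le_iff_exists.1 (show ¬ w.asIdeal ≤ x.asIdeal from
      fun c => h ((PrimeSpectrum.le_iff_specializes w x).1 c))
    exact (Ideal.eq_top_of_isUnit_mem _ (Ideal.mem_map_of_mem _ h1)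
      (IsLocalization.map_units _ (⟨a, h2⟩ : x.asIdeal.primeCompl))).symm

end SPMx

theorem p_SPM :
    S_SPM := by
  intro R _
  refine ⟨fun z w => (PrimeSpectrum.le_iff_specializes w z).symm,
    fun w => (idealHeight_eq_coheight _ w).symm, fun S _ f w z => ⟨rfl, ?_⟩⟩
  let k : Algebra S ((Spec (CommRingCat.of S)).presheaf.stalk z) := StructureSheaf.stalkAlgebra S z
  have hl : IsLocalization.AtPrime ((Spec (CommRingCat.of S)).presheaf.stalk z) z.asIdeal :=
    StructureSheaf.IsLocalization.to_stalk S z
  have h1 : (idealOf (Spec.map (CommRingCat.ofHom f) z) w).map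
      ((Spec.map (CommRingCat.ofHom f)).stalkMap z).hom =
      (w.asIdeal.map f).map (algebraMap S ((Spec (CommRingCat.of S)).presheaf.stalk z)) := by
    rw [SPMx.idealOf_spec]
    refine (Ideal.map_map _ _).trans (Eq.trans ?_ (Ideal.map_map _ _).symm)
    congr 1
    exact congrArg (·.hom) (stalkMap_toStalk (CommRingCat.ofHom f) z)
  rw [mult, h1]
  exact SPMx.len_loc z _

end Pool.Agent.P.MP_12d50c_ag.BT
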