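import Pool.Agent.P.MP_12d50c_ag.BT.IfaceD

/-! Step SWAP. -/

set_option autoImplicit false
set_option linter.unusedSectionVars false

namespace Pool.Agent.P.MP_12d50c_ag.BT

open Finset Function Polynomial CategoryTheory AlgebraicGeometry
open scoped TensorProduct

theorem anti_swap {E : Type} [Field E] (g : E → E → ℚ)
    (h1 : ∀ a b c, a ≠ 0 → b ≠ 0 → c ≠ 0 → g (a * b) c + g 1 c = g a c + g b c)
    (h2 : ∀ a b c, a ≠ 0 → b ≠ 0 → c ≠ 0 → g c (a * b) + g c 1 = g c a + g c b)
    (h0 : ∀ a, a ≠ 0 → g a a = 0) (a b : E) (ha : a ≠ 0) (hb : b ≠ 0) : g a b + g b a = 0 := by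
  have k : ∀ a b : E, a ≠ 0 → b ≠ 0 →
      g a b + g b a = (g a 1 + g 1 a) + (g b 1 + g 1 b) := by
    intro a b ha hb
    have := h0 _ (mul_ne_zero ha hb)
    have := h1 a b _ ha hb (mul_ne_zero ha hb)
    have := h2 a b a ha hb ha
    have := h2 a b b ha hb hb
    have := h2 a b 1 ha hb one_ne_zero
    have := h0 a ha
    have := h0 b hb
    have := h0 1 one_ne_zero
    linarith
  have := k a a ha ha
  have := k b b hb hb
  have := k a b ha hb
  have := h0 a ha
  have := h0 b hb
  linarith

theorem ne_swap {E : Type} [Field E] {n : ℕ} {x : Fin n → E} (hx : ∀ i, x i ≠ 0) (j : Fin n)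
    {a : E} (ha : a ≠ 0) : ∀ i, Function.update x j a i ≠ 0 := by
  intro i
  by_cases e : i = j
  · subst e; rwa [update_self]
  · rw [update_of_ne e]; exact hx i

theorem tr_swap {E : Type} [Field E] {n : ℕ} {Φ : (Fin (n + 1) → E) → ℚ} (hA : Aff Φ)
    {i j k : Fin (n + 1)} (hij : i ≠ j) (hjk : j ≠ k) (hik : i ≠ k)
    (p1 : ∀ x : Fin (n + 1) → E, (∀ i, x i ≠ 0) → x i = x j → Φ x = 0)
    (p2 : ∀ x : Fin (n + 1) → E, (∀ i, x i ≠ 0) → x j = x k → Φ x = 0)
    (x : Fin (n + 1) → E) (hx : ∀ i, x i ≠ 0) (e : x i = x k) : Φ x = 0 := by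
  have h := anti_swap (fun a b => Φ (Function.update (Function.update x j a) k b))
    (fun a b c ha hb hc => by
      simp only [update_comm hjk]
      exact hA j _ a b (ne_swap hx k hc) ha hb)
    (fun a b c ha hb hc => hA k _ a b (ne_swap hx j hc) ha hb)
    (fun a ha => p2 _ (ne_swap (ne_swap hx j ha) k ha)
      (by rw [update_of_ne hjk, update_self, update_self])) (x j) (x k) (hx j) (hx k)
  simp only [update_eq_self] at h
  rw [p1 (Function.update (Function.update x j (x k)) k (x j))
    (ne_swap (ne_swap hx j (hx k)) k (hx j))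
    (by rw [update_of_ne hik, update_of_ne hij, update_of_ne hjk, update_self, e]), add_zero] at h
  exact h

theorem p_SWAP :
    S_SWAP := by
  intro E _ n Φ hA h
  have k : ∀ (d : ℕ) (i j : Fin (n + 2)), j.val = i.val + d + 1 →
      ∀ x : Fin (n + 2) → E, (∀ i, x i ≠ 0) → x i = x j → Φ x = 0 := by
    intro d
    induction d with
    | zero =>
      intro i j e x hx hij
      have hi : i.val < n + 1 := by omega
      refine h ⟨i.val, hi⟩ x hx ?_
      have a1 : (⟨i.val, hi⟩ : Fin (n + 1)).castSucc = i := Fin.ext rfl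
      have a2 : (⟨i.val, hi⟩ : Fin (n + 1)).succ = j := Fin.ext (by simp [e])
      rw [a1, a2, hij]
    | succ d ih =>
      intro i j e
      have hm : i.val + d + 1 < n + 1 := by omega
      have a2 : (⟨i.val + d + 1, hm⟩ : Fin (n + 1)).succ = j := Fin.ext (by simp [e]; omega)
      refine tr_swap hA (j := (⟨i.val + d + 1, hm⟩ : Fin (n + 1)).castSucc) ?_ ?_ ?_
        (ih i _ rfl) (fun x hx c => h ⟨i.val + d + 1, hm⟩ x hx (a2 ▸ c))
      · intro c; have := congrArg Fin.val c; simp at this; omega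
      · intro c; have := congrArg Fin.val c; simp at this; omega
      · intro c; have := congrArg Fin.val c; omega
  intro i j x hx hij e
  rcases lt_or_gt_of_ne hij with c | c
  · exact k (j.val - i.val - 1) i j (by have : i.val < j.val := c; omega) x hx e
  · exact k (i.val - j.val - 1) j i (by have : j.val < i.val := c; omega) x hx e.symm

end Pool.Agent.P.MP_12d50c_ag.BT
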