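import Pool.Agent.P.MP_12d50c_ag.BT.IfaceA

/-! Step SZ. -/

set_option autoImplicit false
set_option linter.unusedSectionVars false

namespace Pool.Agent.P.MP_12d50c_ag.BT

open Finset Function

theorem p_SZ (hLINE : S_LINE) (hDET : S_DET) :
    S_SZ := by
  intro K Y Z V _ _ _ _ _ _ _ _ _
  refine ⟨fun L₀ L₁ h => hLINE K Y _ _ fun y => le_trans (Set.ncard_le_ncard fun t ht => ?_)
    (hDET K Z V L₀ (L₁ y) h), fun v₀ l h => ?_⟩
  · simpa only [Set.mem_setOf_eq, map_smul] using ht.2
  · rw [← one_mul (Nat.card Y)]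
    refine hLINE K Y _ 1 fun y => (Set.ncard_le_one (Set.toFinite _)).2 fun a ha b hb => ?_
    have e1 : v₀ + a • l y = 0 := by simpa using ha.2
    have e2 : v₀ + b • l y = 0 := by simpa using hb.2
    refine smul_left_injective K (fun e : l y = 0 => h ?_) (add_left_cancel (e1.trans e2.symm))
    simpa [e] using e1

end Pool.Agent.P.MP_12d50c_ag.BT
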