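import Pool.Agent.P.MP_12d50c_ag.BT.IfaceA

/-! Step TA. -/

set_option autoImplicit false
set_option linter.unusedSectionVars false

namespace Pool.Agent.P.MP_12d50c_ag.BT

open Finset Function

theorem p_TA (hBJS : S_BJS) (hBJL : S_BJL) (hERR : S_ERR) :
    S_TA := by
  intro n h
  obtain ⟨Q, hQ⟩ := exists_nat_gt
    (4 * h * (2 ^ (n + 1)) ^ 2 + 2 * (4 ^ n * (2 ^ n * h + n)) + 1 : ℝ)
  refine ⟨Q, ?_⟩
  intro ι _ _ K _ _ W _ _ _ V _ _ _ β v₀ m g hn hh hK m0 hm hs hg x hx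
  classical
  obtain ⟨f, hf, h0⟩ : ∃ f : (∀ i, W i) → ℝ, (∀ x, Good β m x → f x = g x) ∧
      ∀ x, f x ≠ 0 → Good β m x :=
    ⟨fun x => if Good β m x then g x else 0, fun x c => if_pos c,
      fun x e => by_contra fun c => e (if_neg c)⟩
  have hq : (Q : ℝ) ≤ (Nat.card K - 1 : ℕ) + 1 := by
    exact_mod_cast (by omega : Q ≤ Nat.card K - 1 + 1)
  have hh' : (Module.finrank K V : ℝ) ≤ h := Nat.cast_le.2 hh
  have s0 : 0 ≤ ∑ x, f x ^ 2 := sum_nonneg fun _ _ => sq_nonneg _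
  have c0 : (0 : ℝ) < Fintype.card (∀ i, W i) := Nat.cast_pos.2 Fintype.card_pos
  have p0 : (0 : ℝ) ≤ 4 ^ n * (2 ^ n * h + n) := by positivity
  have p1 : (0 : ℝ) ≤ 4 * h * (2 ^ (n + 1)) ^ 2 := by positivity
  obtain ⟨b1, b2⟩ := hBJS ι K W V β v₀ m f h0
  have e := hERR ι K W V β v₀ m f hs (by omega) (by omega) h0 fun a a' c1 c2 => by
    rw [sum_congr rfl fun J _ => hf _ (c2 J)]
    refine hg a a' (fun i => ⟨?_, ?_⟩) c1
    · simpa using (c2 ∅).1 i
    · simpa using (c2 univ).1 i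
  have a1 : ∀ J : Finset ι, 0 ≤ (Fintype.card V : ℝ) * BJ β v₀ f J +
      1 / 2 ^ (n + 1) * Fintype.card (∀ i, W i) * ∑ x, f x ^ 2 := by
    intro J
    by_cases c : m ≤ Jᶜ.card
    · have := b1 J c
      positivity
    · refine neg_le_iff_add_nonneg.1 (hBJL ι K W V β v₀ m f _ J hs h0 (by positivity) ?_ ?_)
      · rw [one_div, inv_pow, ← div_eq_inv_mul, le_div_iff₀ (by positivity)]
        have := mul_le_mul_of_nonneg_right hh' (sq_nonneg ((2 : ℝ) ^ (n + 1)))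
        linarith
      · have := card_add_card_compl J
        omega
  have a2 := single_le_sum (fun J _ => a1 J) (mem_univ ∅)
  rw [b2 (by omega), sum_add_distrib, ← mul_sum, sum_const, card_univ, Fintype.card_finset, hn,
    nsmul_eq_mul, mul_assoc] at a2
  rw [hn] at e
  have s1 : 0 ≤ Fintype.card (∀ i, W i) * ∑ x, f x ^ 2 := mul_nonneg c0.le s0
  have a3 : Fintype.card (∀ i, W i) * ∑ x, f x ^ 2 ≤ 0 := by
    generalize Fintype.card (∀ i, W i) * ∑ x, f x ^ 2 = S at *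
    generalize Fintype.card V * ∑ J, BJ β v₀ f J = B at *
    have a4 : ((2 ^ n : ℕ) : ℝ) * (1 / 2 ^ (n + 1) * S) = S / 2 := by
      push_cast
      field_simp
      ring
    have a5 : 0 ≤ 1 / 2 ^ (n + 1) * S := by positivity
    have a6 : ((Nat.card K - 1 : ℕ) : ℝ) * (S / 2) ≤ (Nat.card K - 1 : ℕ) * B :=
      mul_le_mul_of_nonneg_left (by linarith) (Nat.cast_nonneg _)
    have a7 : 4 ^ n * (2 ^ n * Module.finrank K V + n) * S ≤ 4 ^ n * (2 ^ n * h + n) * S := by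
      gcongr
    by_contra c
    have := mul_lt_mul_of_pos_right (by linarith : 2 * (4 ^ n * (2 ^ n * h + n)) <
      ((Nat.card K - 1 : ℕ) : ℝ)) (not_le.1 c)
    linarith
  have a8 := (sum_eq_zero_iff_of_nonneg fun x _ => sq_nonneg (f x)).1
    (le_antisymm (nonpos_of_mul_nonpos_right a3 c0) s0) x (mem_univ x)
  rw [← hf x hx]
  exact pow_eq_zero_iff two_ne_zero |>.1 a8

end Pool.Agent.P.MP_12d50c_ag.BT
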