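import Pool.Agent.P.MP_12d50c_ag.BT.IfaceA

/-! Step TAF. -/

set_option autoImplicit false
set_option linter.unusedSectionVars false

namespace Pool.Agent.P.MP_12d50c_ag.BT

open Finset Function

section
variable {Ω : Type} [Field Ω] {n m : ℕ} {k : Subfield Ω} {E : Type} {W : Fin n → Submodule k Ω}
  {V : Submodule k Ω} {c : E → Fin n → Ω} (D : Dat k m W V c) (e : E)

/-- The bilinear maps. -/
noncomputable def be_taf (i : Fin n) : W i →ₗ[k] W i →ₗ[k] V :=
  LinearMap.mk₂ k (fun x y => ⟨c e i ^ 2 * x * y, D.mul e i x x.2 y y.2⟩)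
    (fun _ _ _ => Subtype.ext (by simp [mul_add, add_mul]))
    (fun _ _ _ => Subtype.ext (by simp))
    (fun _ _ _ => Subtype.ext (by simp [mul_add]))
    (fun _ _ _ => Subtype.ext (by simp))

theorem coe_taf (x y : ∀ i, W i) :
    ((bb (W := fun i => W i) (be_taf D e) x y : V) : Ω) = ∑ i, c e i ^ 2 * x i * y i := by
  rw [bb_apply, Submodule.coe_sum]
  rfl

theorem gn_taf (T : Finset (Fin n)) (h : T.card = m) :
    ∃ x, Gn (W := fun i => W i) (be_taf D e) T x := by
  obtain ⟨z, hz, hV⟩ := D.gen e T h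
  refine ⟨fun i => ⟨z i, hz i⟩, fun v => ?_⟩
  have : ⨆ i ∈ T, ln1 k (c e i ^ 2 * z i) * W i ≤ ((XT k (fun i => W i) T).map
      (bb (W := fun i => W i) (be_taf D e) fun i => ⟨z i, hz i⟩)).map V.subtype := by
    refine iSup₂_le fun i hi => Submodule.mul_le.2 fun a ha b hb => ?_
    obtain ⟨r, rfl⟩ := Submodule.mem_span_singleton.1 ha
    refine ⟨_, ⟨Pi.single i (r • ⟨b, hb⟩), mem_XT.2 fun j hj =>
      Pi.single_eq_of_ne (ne_of_mem_of_not_mem hi hj).symm _, rfl⟩, ?_⟩
    rw [Submodule.subtype_apply, coe_taf, sum_eq_single i (fun j _ hj => by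
      rw [Pi.single_eq_of_ne hj, Submodule.coe_zero, mul_zero]) (by simp), Pi.single_eq_same]
    simp
  obtain ⟨_, ⟨y, a, rfl⟩, b⟩ := this (hV v.2)
  exact ⟨y, a, Subtype.ext b⟩

end

theorem p_TAF (hTA : S_TA) (hGOODF : S_GOODF) :
    S_TAF := by
  intro n m h N hm hn
  obtain ⟨Q, hQ⟩ := hTA n h
  refine ⟨max Q (N * (2 ^ n * h + n) + 2), ?_⟩
  intro Ω _ k _ E _ W V c ω hq hE hV D hω
  rcases isEmpty_or_nonempty E with h0 | ⟨⟨e₀⟩⟩
  · exact ⟨1, fun _ => one_ne_zero, fun e => h0.elim e⟩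
  have fW : ∀ i, Fintype (W i) := fun i =>
    have := Module.Finite.iff_fg.2 (D.fgW i)
    have := Module.finite_of_finite k (M := W i)
    Fintype.ofFinite _
  have fV : Fintype V :=
    have := Module.Finite.iff_fg.2 D.fgV
    have := Module.finite_of_finite k (M := V)
    Fintype.ofFinite _
  have hG : ∃ x, ∀ e, Good (W := fun i => W i) (be_taf D e) m x := by
    by_contra! hc
    have a1 : Fintype.card (∀ i, W i) ≤
        ∑ e, {x | ¬ Good (W := fun i => W i) (be_taf D e) m x}.ncard := by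
      refine le_trans ?_ (Set.ncard_iUnion_le_of_fintype _)
      rw [← Nat.card_eq_fintype_card, ← Set.ncard_univ]
      exact Set.ncard_le_ncard fun x _ => Set.mem_iUnion.2 (hc x)
    have a2 := Nat.mul_le_mul_left (Nat.card k - 1) a1
    rw [mul_sum] at a2
    have a3 := a2.trans (sum_le_card_nsmul _ _ _ fun e _ => hGOODF (Fin n) k (fun i => W i) V
      (be_taf D e) m (fun i => let ⟨x, a, b⟩ := (W i).ne_bot_iff.1 (D.neW i)
        ⟨⟨x, a⟩, fun e => b (congrArg Subtype.val e)⟩) (gn_taf D e))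
    rw [smul_eq_mul, ← mul_assoc, Fintype.card_fin] at a3
    have a4 := Nat.le_of_mul_le_mul_right a3 Fintype.card_pos
    have a5 : (univ : Finset E).card * (2 ^ n * Module.finrank k V + n) ≤ N * (2 ^ n * h + n) := by
      gcongr
      exact hE
    omega
  obtain ⟨x, hx⟩ := hG
  refine ⟨fun i => x i, fun i a => (hx e₀).1 i (Subtype.ext a), fun e => ?_⟩
  have := hQ (Fin n) k (fun i => W i) V (be_taf D e) (-⟨1, D.one⟩) m
    (fun x => (ω (fun i => lg (c e i * x i)) : ℝ)) (Fintype.card_fin n) hV (by omega) hm hn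
    (fun i x y => Subtype.ext (mul_right_comm _ _ _)) (fun a a' ha hb => ?_) x (hx e)
  · exact_mod_cast this
  have n1 : ∀ i, c e i * a i ≠ 0 := fun i =>
    mul_ne_zero (D.ne e i) fun z => (ha i).1 (Subtype.ext z)
  have n2 : ∀ i, c e i * a' i ≠ 0 := fun i =>
    mul_ne_zero (D.ne e i) fun z => (ha i).2 (Subtype.ext z)
  have b1 := hω (fun i => c e i * a' i * (c e i * a i)) (fun i => mul_ne_zero (n2 i) (n1 i)) (by
    have := (coe_taf D e a a').symm.trans (congrArg Subtype.val hb)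
    rw [sum_congr rfl fun i _ => show c e i * a' i * (c e i * a i) = c e i ^ 2 * a i * a' i by
      ring, this]
    simp)
  simp only [lg_mul (n2 _) (n1 _)] at b1
  have b2 := b1.symm.trans (ω.toMultilinearMap.map_add_univ (fun i => lg (c e i * a' i))
    fun i => lg (c e i * a i))
  rw [← Rat.cast_sum, ← Rat.cast_zero, b2]
  refine congrArg _ (sum_congr rfl fun J _ => congrArg ω (funext fun i => ?_))
  by_cases hi : i ∈ J <;> simp [hi]

end Pool.Agent.P.MP_12d50c_ag.BT
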