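import Pool.Agent.P.MP_12d50c_ag.BT.IfaceA

/-! Step TAK. -/

set_option autoImplicit false
set_option linter.unusedSectionVars false

namespace Pool.Agent.P.MP_12d50c_ag.BT

open Finset Function

theorem p_TAK (hTAF : S_TAF) (hDESC : S_DESC) :
    S_TAK := by
  intro Ω _ k d n m E _ W V c ω hm hn hk hD hω
  obtain ⟨h, H⟩ := hDESC Ω k d n m E W V c hk hD
  obtain ⟨Q, HQ⟩ := hTAF n m h (Fintype.card E) hm hn
  obtain ⟨k₀, W₀, V₀, h1, h2, h3, h4⟩ := H Q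
  exact HQ Ω k₀ E W₀ V₀ c ω h2 le_rfl h3 h4 hω

end Pool.Agent.P.MP_12d50c_ag.BT
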