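import Pool.Agent.P.MP_12d50c_ag.BT.Base

/-! Statements, part A: counting over finite fields. -/

set_option autoImplicit false
set_option linter.unusedSectionVars false

namespace Pool.Agent.P.MP_12d50c_ag.BT

open Finset Function

-- deps:
def S_LINE : Prop := ∀ (K Y : Type) [Field K] [Finite K] [AddCommGroup Y] [Module K Y] [Finite Y]
  (B : Set Y) (c : ℕ), (∀ y : Y, {t : K | t ≠ 0 ∧ t • y ∈ B}.ncard ≤ c) →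
  (Nat.card K - 1) * B.ncard ≤ c * Nat.card Y

-- deps:
def S_DET : Prop := ∀ (K Z V : Type) [Field K] [AddCommGroup Z] [Module K Z] [AddCommGroup V]
  [Module K V] [FiniteDimensional K V] (L₀ L₁ : Z →ₗ[K] V), Surjective L₀ →
  {t : K | ¬ Surjective (L₀ + t • L₁)}.ncard ≤ Module.finrank K V

-- deps: LINE DET
def S_SZ : Prop := ∀ (K Y Z V : Type) [Field K] [Finite K] [AddCommGroup Y] [Module K Y] [Finite Y]
  [AddCommGroup Z] [Module K Z] [AddCommGroup V] [Module K V],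
  (∀ [FiniteDimensional K V] (L₀ : Z →ₗ[K] V) (L₁ : Y →ₗ[K] Z →ₗ[K] V), Surjective L₀ →
    (Nat.card K - 1) * {y | ¬ Surjective (L₀ + L₁ y)}.ncard ≤ Module.finrank K V * Nat.card Y) ∧
  ∀ (v₀ : V) (l : Y →ₗ[K] V), v₀ ≠ 0 → (Nat.card K - 1) * {y | v₀ + l y = 0}.ncard ≤ Nat.card Y

-- deps:
def S_CL : Prop := ∀ (X V : Type) [AddCommGroup X] [AddCommGroup V] [Fintype V] (L : X →+ V)
  (H : AddSubgroup X) (Z : Finset X) (w : V → ℝ), (∀ v, ∃ y ∈ H, L y = v) →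
  (∀ z ∈ Z, ∀ y ∈ H, z + y ∈ Z) →
  (Fintype.card V : ℝ) * ∑ z ∈ Z, w (L z) = Z.card * ∑ v, w v

-- deps: CL
def S_LJ0 : Prop := ∀ (X V : Type) [AddCommGroup X] [AddCommGroup V] [Fintype V]
  (b : X →+ X →+ V) (H₀ H₁ : AddSubgroup X) (Y N : Finset X) (w : V → ℝ) (μ : ℝ) (x : X),
  (∀ x y, b x y = b y x) → (∀ z ∈ Y, ∀ y ∈ H₀, z + y ∈ Y) → (∀ z ∈ N, ∀ y ∈ H₁, z + y ∈ N) →
  ∑ v, w v = μ * Fintype.card V → (∀ y ∈ Y, ∀ v, ∃ z ∈ H₁, b y z = v) →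
  (∀ v, ∃ y ∈ H₀, b x y = v) →
  ∑ y ∈ Y, w (b x y) = μ * Y.card ∧
  (∀ x', (∀ v v', ∃ y ∈ H₀, b x y = v ∧ b x' y = v') →
    ∑ y ∈ Y, w (b x y) * w (b x' y) = μ ^ 2 * Y.card) ∧
  ∑ x' ∈ N, ∑ y ∈ Y, w (b x y) * w (b x' y) = μ ^ 2 * Y.card * N.card

-- deps: LJ0
def S_LJ : Prop := ∀ (X V : Type) [AddCommGroup X] [AddCommGroup V] [Fintype V]
  (b : X →+ X →+ V) (H₀ H₁ : AddSubgroup X) (Γ : Finset X) (w : V → ℝ) (f : X → ℝ) (μ ε : ℝ),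
  (∀ x y, b x y = b y x) → (∀ x ∈ H₀, ∀ y ∈ H₁, b x y = 0) → (∀ z ∈ Γ, ∀ y ∈ H₀, z + y ∈ Γ) →
  (∀ z ∈ Γ, ∀ y ∈ H₁, z + y ∈ Γ) → (∀ v, 0 ≤ w v) → ∑ v, w v = μ * Fintype.card V → 0 ≤ ε →
  (∀ x ∈ Γ, f x ≠ 0 → (∀ v, ∃ y ∈ H₀, b x y = v) ∧ (∀ v, ∃ y ∈ H₁, b x y = v) ∧
    2 * ({x' | x' ∈ Γ ∧ ¬ ∀ v v', ∃ y ∈ H₀, b x y = v ∧ b x' y = v'}.ncard : ℝ) ≤
      ε ^ 2 * Γ.card) →
  -(ε * μ * Γ.card * ∑ x ∈ Γ, f x ^ 2) ≤ ∑ x ∈ Γ, ∑ y ∈ Γ, w (b x y) * f x * f y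

-- deps:
def S_BJD : Prop := ∀ (ι : Type) [Fintype ι] [DecidableEq ι] (K : Type) [Field K] (W : ι → Type)
  [∀ i, AddCommGroup (W i)] [∀ i, Module K (W i)] [∀ i, Fintype (W i)] (V : Type)
  [AddCommGroup V] [Module K V] [Fintype V] (β : ∀ i, W i →ₗ[K] W i →ₗ[K] V) (v₀ : V)
  (J : Finset ι),
  (∀ F : (∀ i, W i) → ℝ, ∑ a, F a = ∑ s ∈ GT K W Jᶜ, ∑ x ∈ GT K W J, F (s + x)) ∧
  (∀ s, ∑ v, ws β v₀ Jᶜ s v = (GT K W Jᶜ).card) ∧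
  ∀ g : (∀ i, W i) → ℝ, BJ β v₀ g J = ∑ s ∈ GT K W Jᶜ, ∑ x ∈ GT K W J, ∑ y ∈ GT K W J,
    ws β v₀ Jᶜ s (bb β x y) * g (s + x) * g (s + y)

-- deps: CL BJD
def S_BJS : Prop := ∀ (ι : Type) [Fintype ι] [DecidableEq ι] (K : Type) [Field K] (W : ι → Type)
  [∀ i, AddCommGroup (W i)] [∀ i, Module K (W i)] [∀ i, Fintype (W i)] (V : Type)
  [AddCommGroup V] [Module K V] [Fintype V] (β : ∀ i, W i →ₗ[K] W i →ₗ[K] V) (v₀ : V) (m : ℕ)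
  (g : (∀ i, W i) → ℝ), (∀ x, g x ≠ 0 → Good β m x) →
  (∀ J : Finset ι, m ≤ Jᶜ.card → 0 ≤ BJ β v₀ g J) ∧
  (m ≤ Fintype.card ι → (Fintype.card V : ℝ) * BJ β v₀ g ∅ =
    Fintype.card (∀ i, W i) * ∑ x, g x ^ 2)

-- deps: SZ
def S_NJ : Prop := ∀ (ι : Type) [Fintype ι] [DecidableEq ι] (K : Type) [Field K] [Finite K]
  (W : ι → Type) [∀ i, AddCommGroup (W i)] [∀ i, Module K (W i)] [∀ i, Fintype (W i)] (V : Type)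
  [AddCommGroup V] [Module K V] [Fintype V] (β : ∀ i, W i →ₗ[K] W i →ₗ[K] V)
  (J J₁ J₂ : Finset ι) (x : ∀ i, W i), J₂ ⊆ J → Disjoint J₁ J₂ → Gn β J₁ x → Gn β J₂ x →
  (Nat.card K - 1) * {x' | x' ∈ GT K W J ∧
      ¬ ∀ v v', ∃ y ∈ XT K W (J₁ ∪ J₂), bb β x y = v ∧ bb β x' y = v'}.ncard ≤
    2 * Module.finrank K V * (GT K W J).card

-- deps: LJ BJD NJ
def S_BJL : Prop := ∀ (ι : Type) [Fintype ι] [DecidableEq ι] (K : Type) [Field K] [Finite K]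
  (W : ι → Type) [∀ i, AddCommGroup (W i)] [∀ i, Module K (W i)] [∀ i, Fintype (W i)] (V : Type)
  [AddCommGroup V] [Module K V] [Fintype V] (β : ∀ i, W i →ₗ[K] W i →ₗ[K] V) (v₀ : V) (m : ℕ)
  (g : (∀ i, W i) → ℝ) (ε : ℝ) (J : Finset ι), (∀ i x y, β i x y = β i y x) →
  (∀ x, g x ≠ 0 → Good β m x) → 0 ≤ ε →
  4 * (Module.finrank K V : ℝ) ≤ ε ^ 2 * (Nat.card K - 1 : ℕ) → 3 * m ≤ J.card →
  -(ε * Fintype.card (∀ i, W i) * ∑ x, g x ^ 2) ≤ (Fintype.card V : ℝ) * BJ β v₀ g J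

-- deps: SZ CL
def S_BAD : Prop := ∀ (ι : Type) [Fintype ι] [DecidableEq ι] (K : Type) [Field K] [Finite K]
  (W : ι → Type) [∀ i, AddCommGroup (W i)] [∀ i, Module K (W i)] [∀ i, Fintype (W i)] (V : Type)
  [AddCommGroup V] [Module K V] [Fintype V] (β : ∀ i, W i →ₗ[K] W i →ₗ[K] V) (v₀ : V) (m : ℕ)
  (a : ∀ i, W i), m < Fintype.card ι → 2 * m ≤ Fintype.card ι → Good β m a →
  (Nat.card K - 1) * Fintype.card V *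
      {a' | bb β a a' = v₀ ∧ ∃ J : Finset ι, ¬ Good β m (J.piecewise a' a)}.ncard ≤
    2 ^ Fintype.card ι * (2 ^ Fintype.card ι * Module.finrank K V + Fintype.card ι) *
      Fintype.card (∀ i, W i)

-- deps: BAD
def S_ERR : Prop := ∀ (ι : Type) [Fintype ι] [DecidableEq ι] (K : Type) [Field K] [Finite K]
  (W : ι → Type) [∀ i, AddCommGroup (W i)] [∀ i, Module K (W i)] [∀ i, Fintype (W i)] (V : Type)
  [AddCommGroup V] [Module K V] [Fintype V] (β : ∀ i, W i →ₗ[K] W i →ₗ[K] V) (v₀ : V) (m : ℕ)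
  (g : (∀ i, W i) → ℝ), (∀ i x y, β i x y = β i y x) → m < Fintype.card ι →
  2 * m ≤ Fintype.card ι → (∀ x, g x ≠ 0 → Good β m x) →
  (∀ a a', bb β a a' = v₀ → (∀ J : Finset ι, Good β m (J.piecewise a' a)) →
    ∑ J : Finset ι, g (J.piecewise a' a) = 0) →
  ((Nat.card K - 1 : ℕ) : ℝ) * (Fintype.card V * ∑ J : Finset ι, BJ β v₀ g J) ≤
    4 ^ Fintype.card ι * (2 ^ Fintype.card ι * Module.finrank K V + Fintype.card ι) *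
      (Fintype.card (∀ i, W i) * ∑ x, g x ^ 2)

-- deps: BJS BJL ERR
def S_TA : Prop := ∀ n h : ℕ, ∃ Q : ℕ, ∀ (ι : Type) [Fintype ι] [DecidableEq ι] (K : Type)
  [Field K] [Finite K] (W : ι → Type) [∀ i, AddCommGroup (W i)] [∀ i, Module K (W i)]
  [∀ i, Fintype (W i)] (V : Type) [AddCommGroup V] [Module K V] [Fintype V]
  (β : ∀ i, W i →ₗ[K] W i →ₗ[K] V) (v₀ : V) (m : ℕ) (g : (∀ i, W i) → ℝ),
  Fintype.card ι = n → Module.finrank K V ≤ h → Q ≤ Nat.card K → 0 < m → 4 * m ≤ n →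
  (∀ i x y, β i x y = β i y x) →
  (∀ a a' : ∀ i, W i, (∀ i, a i ≠ 0 ∧ a' i ≠ 0) → bb β a a' = v₀ →
    ∑ J : Finset ι, g (J.piecewise a' a) = 0) → ∀ x, Good β m x → g x = 0

-- deps: SZ
def S_GOODF : Prop := ∀ (ι : Type) [Fintype ι] [DecidableEq ι] (K : Type) [Field K] [Finite K]
  (W : ι → Type) [∀ i, AddCommGroup (W i)] [∀ i, Module K (W i)] [∀ i, Fintype (W i)] (V : Type)
  [AddCommGroup V] [Module K V] [Fintype V] (β : ∀ i, W i →ₗ[K] W i →ₗ[K] V) (m : ℕ),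
  (∀ i, ∃ x : W i, x ≠ 0) → (∀ T : Finset ι, T.card = m → ∃ x, Gn β T x) →
  (Nat.card K - 1) * {x | ¬ Good β m x}.ncard ≤
    (2 ^ Fintype.card ι * Module.finrank K V + Fintype.card ι) * Fintype.card (∀ i, W i)

-- deps: TA GOODF
def S_TAF : Prop := ∀ n m h N : ℕ, 0 < m → 4 * m ≤ n → ∃ Q : ℕ, ∀ (Ω : Type) [Field Ω]
  (k : Subfield Ω) [Finite k] (E : Type) [Fintype E] (W : Fin n → Submodule k Ω)
  (V : Submodule k Ω) (c : E → Fin n → Ω) (ω : Alt (MM Ω) n), Q ≤ Nat.card k →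
  Fintype.card E ≤ N → Module.finrank k V ≤ h → Dat k m W V c → St3 ω →
  ∃ z : Fin n → Ω, (∀ i, z i ≠ 0) ∧ ∀ e, ω (fun i => lg (c e i * z i)) = 0

-- deps:
def S_DS0 : Prop := ∀ (Ω : Type) [Field Ω] (k : Subfield Ω) (S : Set Ω) (x : Ω),
  x ∈ Submodule.span k S → ∀ᶠ C : Finset k in Filter.atTop, ∀ k₀ : Subfield Ω,
    (∀ c ∈ C, (c : Ω) ∈ k₀) → x ∈ Submodule.span k₀ S

-- deps: DS0
def S_DESC : Prop := ∀ (Ω : Type) [Field Ω] (k : Subfield Ω) (d n m : ℕ) (E : Type) [Fintype E]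
  (W : Fin n → Submodule k Ω) (V : Submodule k Ω) (c : E → Fin n → Ω), Cst k d → Dat k m W V c →
  ∃ h : ℕ, ∀ Q : ℕ, ∃ (k₀ : Subfield Ω) (W₀ : Fin n → Submodule k₀ Ω) (V₀ : Submodule k₀ Ω),
    Finite k₀ ∧ Q ≤ Nat.card k₀ ∧ Module.finrank k₀ V₀ ≤ h ∧ Dat k₀ m W₀ V₀ c

-- deps: TAF DESC
def S_TAK : Prop := ∀ (Ω : Type) [Field Ω] (k : Subfield Ω) (d n m : ℕ) (E : Type) [Fintype E]
  (W : Fin n → Submodule k Ω) (V : Submodule k Ω) (c : E → Fin n → Ω) (ω : Alt (MM Ω) n),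
  0 < m → 4 * m ≤ n → Cst k d → Dat k m W V c → St3 ω →
  ∃ z : Fin n → Ω, (∀ i, z i ≠ 0) ∧ ∀ e, ω (fun i => lg (c e i * z i)) = 0

end Pool.Agent.P.MP_12d50c_ag.BT
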