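import Pool.Agent.P.MP_12d50c_ag.BT.IfaceB
import Pool.Agent.P.MP_12d50c_ag.BT.IfaceA

/-! Step TB. -/

set_option autoImplicit false
set_option linter.unusedSectionVars false

namespace Pool.Agent.P.MP_12d50c_ag.BT

open Finset Function Filter

theorem p_TB (hTAK : S_TAK) (hDATB : S_DATB) :
    S_TB := by
  intro Ω _ k d K n f ω hk hn hω hf hK
  classical
  obtain ⟨W, V, hD⟩ := hDATB Ω k d K n f hk hf hK
  obtain ⟨z, hz, h⟩ := hTAK Ω k d n _ (Fin n → Bool) W V (cc f) ω (by positivity) hn hk hD hω
  have e : (fun i => lg (f i)) = (fun i => lg (f i * z i)) + fun i => -lg (z i) := by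
    funext i
    rw [Pi.add_apply, lg_mul (hf i) (hz i), add_neg_cancel_right]
  change ω.toMultilinearMap _ = 0
  rw [e, MultilinearMap.map_add_univ]
  refine sum_eq_zero fun s _ => ?_
  have e' : s.piecewise (fun i => lg (f i * z i)) (fun i => -lg (z i)) = fun i =>
      (if i ∈ s then (1 : ℤ) else -1) • lg (cc f (fun j => decide (j ∈ s)) i * z i) := by
    funext i
    by_cases hi : i ∈ s <;> simp [cc, hi]
  rw [e', MultilinearMap.map_smul_univ]
  exact (congrArg _ (h _)).trans (smul_zero _)

end Pool.Agent.P.MP_12d50c_ag.BT
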