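import Pool.Agent.P.MP_12d50c_ag.BT.IfaceB

/-! Step THETA. -/

set_option autoImplicit false
set_option linter.unusedSectionVars false

namespace Pool.Agent.P.MP_12d50c_ag.BT

open Finset Function Filter

theorem p_THETA (hPIG : S_PIG) :
    S_THETA := by
  classical
  intro k R _ _ _ L d θ hθ hev
  obtain ⟨c0, hc0⟩ := eventually_atTop.1 hev
  have hTh : Submodule.span k (Set.range θ) ≤ L :=
    Submodule.span_le.2 (by rintro _ ⟨j, rfl⟩; exact hθ j)
  have h1 : ∀ t c, c0 ≤ c → L ^ (c + t) ≤ Submodule.span k (Set.range θ) ^ t * L ^ c := by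
    intro t
    induction t with
    | zero => intro c _; simp
    | succ t ih =>
      intro c hc
      rw [← add_assoc, pow_succ' (Submodule.span k (Set.range θ)), mul_assoc]
      exact (hc0 _ (by omega)).trans (mul_le_mul' le_rfl (ih c hc))
  refine eventually_atTop.2 ⟨c0 + 1, fun b hb => ?_⟩
  obtain ⟨r, rfl⟩ : ∃ r, b = r + 1 := ⟨b - 1, by omega⟩
  have e : sp k (univ.image θ) = Submodule.span k (Set.range θ) := by simp [sp]
  have h2 : ∀ M, c0 + d * (r + 1) ≤ M →
      L ^ (M + (r + 1)) ≤ ⨆ j, ln1 k (θ j ^ (r + 1)) * L ^ M := by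
    intro M hM
    obtain ⟨c, rfl⟩ : ∃ c, M = c + d * (r + 1) := ⟨M - d * (r + 1), by omega⟩
    have a1 := hPIG k R (univ.image θ) r (d * (r + 1)) (by
      have : (univ.image θ).card ≤ d + 1 := card_image_le.trans (by simp)
      nlinarith)
    rw [e] at a1
    rw [add_assoc]
    refine (h1 _ c (by omega)).trans ((mul_le_mul' a1 le_rfl).trans ?_)
    simp only [Submodule.iSup_mul, iSup_le_iff, mem_image]
    rintro _ ⟨j, -, rfl⟩
    refine le_iSup_of_le j ?_
    rw [mul_assoc, add_comm c, pow_add L]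
    exact mul_le_mul' le_rfl (mul_le_mul' (pow_le_pow_left' hTh _) le_rfl)
  have h3 : ∀ t M, c0 + d * (r + 1) ≤ M → L ^ (M + t * (r + 1)) ≤
      ⨆ α : Fin t → Fin (d + 1), ln1 k (∏ j, θ (α j) ^ (r + 1)) * L ^ M := by
    intro t
    induction t with
    | zero =>
      intro M _
      refine le_iSup_of_le Fin.elim0 ?_
      simp [ln1, ← Submodule.one_eq_span]
    | succ t ih =>
      intro M hM
      rw [add_mul, one_mul, ← add_assoc]
      refine (h2 _ (by omega)).trans (iSup_le fun j => ?_)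
      refine (mul_le_mul' le_rfl (ih M hM)).trans ?_
      rw [Submodule.mul_iSup]
      refine iSup_le fun α => le_iSup_of_le (Fin.cons j α) (le_of_eq ?_)
      rw [← mul_assoc, Fin.prod_univ_succ, Submodule.span_mul_span, Set.singleton_mul_singleton]
      simp
  have h4 := h3 (d + 1) ((d + 1) * (r + 1) + 2) (by nlinarith)
  rwa [show (d + 1) * (r + 1) + 2 + (d + 1) * (r + 1) = 2 * ((d + 1) * (r + 1) + 1) by ring] at h4

end Pool.Agent.P.MP_12d50c_ag.BT
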