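import Pool.Agent.P.MP_12d50c_ag.BT.IfaceB

/-! Step TRC. -/

set_option autoImplicit false
set_option linter.unusedSectionVars false

namespace Pool.Agent.P.MP_12d50c_ag.BT

open Finset Function Filter

section
variable {M : Type} [AddCommGroup M] (Y : VS M)

theorem add_trc (A B : NF M) : ∃ C, Y.tr C = Y.tr A + Y.tr B := by
  classical
  refine ⟨⟨image₂ (· + ·) A.1 B.1, A.2.image₂ B.2⟩, funext fun v => le_antisymm ?_ ?_⟩
  · refine sup'_le _ _ fun x hx => ?_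
    obtain ⟨a, ha, b, hb, rfl⟩ := mem_image₂.1 hx
    rw [map_add]
    exact add_le_add (le_sup' (Y.val v) ha) (le_sup' (Y.val v) hb)
  · obtain ⟨a, ha, ea⟩ := exists_mem_eq_sup' A.2 (Y.val v)
    obtain ⟨b, hb, eb⟩ := exists_mem_eq_sup' B.2 (Y.val v)
    change A.1.sup' A.2 (Y.val v) + B.1.sup' B.2 (Y.val v) ≤ _
    rw [ea, eb, ← map_add]
    exact le_sup' (Y.val v) (mem_image₂_of_mem ha hb)

theorem sup_trc (A B : NF M) : ∃ C, Y.tr C = Y.tr A ⊔ Y.tr B := by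
  classical
  exact ⟨⟨A.1 ∪ B.1, A.2.mono subset_union_left⟩, funext fun v => sup'_union A.2 B.2 (Y.val v)⟩

/-- The tropical functions form a group. -/
def grp_trc : AddSubgroup Y.H where
  carrier := {h | Y.Trop h}
  zero_mem' := ⟨⟨{0}, singleton_nonempty _⟩, ⟨{0}, singleton_nonempty _⟩, (sub_self _).symm⟩
  add_mem' := by
    rintro _ _ ⟨A, B, rfl⟩ ⟨A', B', rfl⟩
    obtain ⟨C, hC⟩ := add_trc Y A A'
    obtain ⟨E, hE⟩ := add_trc Y B B'
    exact ⟨C, E, by rw [hC, hE]; abel⟩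
  neg_mem' := by
    rintro _ ⟨A, B, rfl⟩
    exact ⟨B, A, neg_sub _ _⟩

theorem tr_trc (A : NF M) : Y.tr A ∈ grp_trc Y :=
  ⟨A, ⟨{0}, singleton_nonempty _⟩, funext fun v => by simp [VS.tr]⟩

end

theorem p_TRC :
    S_TRC := by
  intro M _ Y
  refine ⟨fun h h' a b => ⟨(grp_trc Y).add_mem a b, ?_⟩, fun h a => (grp_trc Y).neg_mem a,
    (grp_trc Y).zero_mem, fun 𝒜 e => ?_⟩
  · obtain ⟨A, B, rfl⟩ := a
    obtain ⟨A', B', rfl⟩ := b
    obtain ⟨C, hC⟩ := add_trc Y A A'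
    obtain ⟨E, hE⟩ := add_trc Y A' B
    obtain ⟨E', hE'⟩ := add_trc Y A B'
    obtain ⟨G, hG⟩ := sup_trc Y E E'
    refine ⟨C, G, funext fun v => ?_⟩
    rw [hC, hG, hE, hE']
    simp only [Pi.inf_apply, Pi.sub_apply, Pi.add_apply, Pi.sup_apply]
    rw [← min_sub_sub_left]
    congr 1 <;> abel
  · have : Y.ev 𝒜 e = Y.tr ⟨{e.1}, singleton_nonempty _⟩ +
        ∑ s ∈ e.2.support, e.2 s • Y.tr (𝒜 s) := funext fun v => by
      rw [VS.ev, lin_apply, Pi.add_apply, Finset.sum_apply]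
      rfl
    rw [this]
    exact (grp_trc Y).add_mem (tr_trc Y _) (sum_mem fun s _ => zsmul_mem (tr_trc Y _) _)

end Pool.Agent.P.MP_12d50c_ag.BT
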