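import Pool.Agent.P.MP_12d50c_ag.BT.IfaceB

/-! Step WG. -/

set_option autoImplicit false
set_option linter.unusedSectionVars false

namespace Pool.Agent.P.MP_12d50c_ag.BT

open Finset Function Filter

section
variable {Ω : Type} [Field Ω] {n : ℕ}

lemma split_wg (f : Fin n → Ω) (η : Fin n → Bool) (i : Fin n) :
    ∏ j, cc f η j = cc f η i * ∏ j ∈ univ.erase i, cc f η j :=
  (mul_prod_erase univ _ (mem_univ i)).symm

lemma upd_wg (f : Fin n → Ω) (η : Fin n → Bool) (i : Fin n) (b : Bool) :
    ∏ j, cc f (update η i b) j = (if b then f i else 1) * ∏ j ∈ univ.erase i, cc f η j := by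
  rw [split_wg f _ i]
  congr 1
  · simp [cc]
  · exact prod_congr rfl fun j hj => by simp [cc, update_of_ne (ne_of_mem_erase hj)]

lemma cc_ne_wg {f : Fin n → Ω} (hf : ∀ i, f i ≠ 0) (η : Fin n → Bool) (i : Fin n) :
    cc f η i ≠ 0 := by
  unfold cc
  split_ifs
  · exact hf i
  · exact one_ne_zero

lemma lam_wg {f : Fin n → Ω} (e : Fin n → Bool) {i : Fin n} {x : Ω} (hx : x ∈ Lam0 f i) :
    cc f e i * x ∈ Lam f := by
  obtain ⟨η, h, rfl⟩ := mem_Lam0.1 hx
  refine mem_Lam.2 ⟨update η i (e i), ?_⟩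
  rw [upd_wg, split_wg f η i]
  simp [cc, h]

lemma val_wg {f : Fin n → Ω} (O : ValuationSubring Ω) (e : Fin n → Bool) {i : Fin n}
    (hi : O.valuation (f i) = 1) {x : Ω} (hx : x ∈ Lam f) :
    ∃ y ∈ Lam0 f i, O.valuation x = O.valuation (cc f e i * y) := by
  obtain ⟨η, rfl⟩ := mem_Lam.1 hx
  have h : ∀ η : Fin n → Bool, O.valuation (cc f η i) = 1 := fun η => by
    unfold cc
    split_ifs
    · exact hi
    · exact map_one _
  refine ⟨_, mem_Lam0.2 ⟨update η i false, by simp, rfl⟩, ?_⟩
  rw [upd_wg, split_wg f η i, map_mul, map_mul, h, h]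
  simp

end

theorem p_WG (hGEN : S_GEN) (hRED : S_RED) :
    S_WG := by
  classical
  intro Ω _ k d K n f e hk hf hK
  obtain ⟨G, hG, hv⟩ := hGEN Ω k d (Fin n) (fun i => (Lam0 f i).image fun x => cc f e i * x) hk
    fun i => ⟨Nonempty.image ⟨_, mem_Lam0.2 ⟨fun _ => false, rfl, rfl⟩⟩ _, fun a ha => by
      obtain ⟨x, hx, rfl⟩ := mem_image.1 ha
      obtain ⟨η, -, rfl⟩ := mem_Lam0.1 hx
      exact mul_ne_zero (cc_ne_wg hf e i) (prod_ne_zero_iff.2 fun j _ => cc_ne_wg hf η j)⟩
  have h1 : ∀ i, ∃ g ∈ sp k (Lam0 f i), cc f e i * g = G i := fun i => by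
    have := (hG i).1
    rw [sp, coe_image] at this
    change G i ∈ Submodule.span k (LinearMap.mulLeft k (cc f e i) '' _) at this
    rw [← Submodule.map_span] at this
    exact this
  have h2 : ∀ i, G i ∈ sp k (Lam f) := fun i => by
    refine Submodule.span_mono ?_ (hG i).1
    intro a ha
    obtain ⟨x, hx, rfl⟩ := mem_image.1 (mem_coe.1 ha)
    exact lam_wg e hx
  choose g hg hg' using h1
  refine ⟨g, hg, eventually_all.2 fun T => ?_⟩
  by_cases hT : K + d + 1 ≤ T.card
  · have := hRED k Ω (Lam f) (T.image fun i => G i ^ 2) 2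
      (fun a ha => by
        obtain ⟨i, -, rfl⟩ := mem_image.1 ha
        exact Submodule.pow_mem_pow _ (h2 i) 2)
      fun O => by
        have hc := (Set.ncard_union_le _ _).trans (add_le_add (hK O) (hv O))
        have : ¬ (T : Set (Fin n)) ⊆ {i | O.valuation (f i) ≠ 1} ∪
            {s | ∃ a ∈ (Lam0 f s).image fun x => cc f e s * x,
              O.valuation (G s) < O.valuation a} := fun h => by
          have := (Set.ncard_le_ncard h (Set.toFinite _)).trans hc
          rw [Set.ncard_coe_finset] at this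
          omega
        obtain ⟨i, hi, hn⟩ := Set.not_subset.1 this
        simp only [Set.mem_union, Set.mem_ofPred_eq, not_or, not_not, not_exists, not_and,
          not_lt] at hn
        refine ⟨_, mem_image_of_mem _ (mem_coe.1 hi), fun x hx => ?_⟩
        obtain ⟨y, hy, hxy⟩ := val_wg O e hn.1 hx
        rw [map_pow, hxy]
        exact pow_le_pow_left₀ zero_le (hn.2 _ (mem_image_of_mem _ hy)) 2
    filter_upwards [this] with c hc _
    refine hc.trans (Submodule.mul_le.2 fun a ha b hb => ?_)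
    induction ha using Submodule.span_induction with
    | mem x hx =>
      obtain ⟨i, hi, rfl⟩ := mem_image.1 (mem_coe.1 hx)
      refine Submodule.mem_iSup_of_mem i (Submodule.mem_iSup_of_mem hi ?_)
      rw [hg']
      exact Submodule.mul_mem_mul (Submodule.mem_span_singleton_self _) hb
    | zero => rw [zero_mul]; exact zero_mem _
    | add x y _ _ hx hy => rw [add_mul]; exact add_mem hx hy
    | smul a x _ hx => rw [smul_mul_assoc]; exact Submodule.smul_mem _ _ hx
  · exact .of_forall fun c h => absurd h hT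

end Pool.Agent.P.MP_12d50c_ag.BT
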