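import Pool.Agent.P.MP_12d50c_ag.BT.IfaceB

/-! Step WIT. -/

set_option autoImplicit false
set_option linter.unusedSectionVars false

namespace Pool.Agent.P.MP_12d50c_ag.BT

open Finset Function Filter

theorem prod_wit {k R : Type} [Field k] [CommRing R] [Algebra k R] (L : Submodule k R) (d b : ℕ)
    (x : Fin d → R) (hx : ∀ j, x j ∈ L) : ∏ j, x j ^ b ∈ L ^ (d * b) := by
  induction d with
  | zero => simpa using Submodule.one_le.1 (le_refl (1 : Submodule k R))
  | succ d ih =>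
    rw [Fin.prod_univ_succ, add_mul, one_mul, add_comm, pow_add]
    exact Submodule.mul_mem_mul (Submodule.pow_mem_pow L (hx 0) b) (ih _ fun j => hx _)

theorem line_wit {k R : Type} [Field k] [CommRing R] [Algebra k R] (A M : Submodule k R)
    (t c g : R) (hg : g ∈ A) :
    ln1 k t * (ln1 k ((c * g) ^ 2) * M) ≤ ln1 k (c ^ 2 * (g * t)) * (A * M) := by
  rw [← mul_assoc, ← mul_assoc]
  refine mul_le_mul_left ?_ M
  rw [Submodule.span_mul_span, Set.singleton_mul_singleton, Submodule.span_le,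
    Set.singleton_subset_iff, show t * (c * g) ^ 2 = c ^ 2 * (g * t) * g by ring]
  exact Submodule.mul_mem_mul (Submodule.mem_span_singleton_self _) hg

theorem p_WIT (hWG : S_WG) (hWT : S_WT) (hGRP : S_GRP) :
    S_WIT := by
  intro Ω _ k d K n f hk hf hK
  obtain ⟨θ, hθ, hb⟩ := hWT Ω k d (Lam f) hk ⟨_, mem_Lam.2 ⟨fun _ => false, rfl⟩⟩ (by
    intro a ha
    obtain ⟨e, rfl⟩ := mem_Lam.1 ha
    refine prod_ne_zero_iff.2 fun i _ => ?_
    unfold cc
    split_ifs
    · exact hf i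
    · exact one_ne_zero)
  choose g hg hc using fun e => hWG Ω k d K n f e hk hf hK
  have ht : Tendsto (fun b : ℕ => (d + 1) * b) atTop atTop :=
    tendsto_id.const_mul_atTop' d.succ_pos
  obtain ⟨b, hb, hc⟩ := (hb.and (ht.eventually (eventually_all.2 hc))).exists
  refine ⟨(d + 1) * b, fun e T hT => ?_⟩
  obtain ⟨al, hal⟩ := hGRP (Fin (d + 1) → Fin (d + 1)) (Fin n) T (K + d + 1) (by simpa using hT)
  refine ⟨fun i => g e i * ∏ j, θ (al i j) ^ b,
    fun i => Submodule.mul_mem_mul (hg e i) (prod_wit _ _ _ _ fun j => hθ _), hb.trans ?_⟩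
  refine iSup_le fun α => ?_
  obtain ⟨G, hG, hr, hα⟩ := hal α
  refine (mul_le_mul_right (hc e G hr) _).trans ?_
  rw [Submodule.mul_iSup]
  refine iSup_le fun i => ?_
  rw [Submodule.mul_iSup]
  refine iSup_le fun hi => ?_
  refine le_iSup₂_of_le i (hG hi) ?_
  rw [← hα i hi]
  exact line_wit _ _ _ _ _ (hg e i)

end Pool.Agent.P.MP_12d50c_ag.BT
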