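import Pool.Agent.P.MP_12d50c_ag.BT.IfaceB

/-! Step WT. -/

set_option autoImplicit false
set_option linter.unusedSectionVars false

namespace Pool.Agent.P.MP_12d50c_ag.BT

open Finset Function Filter

theorem p_WT (hGEN : S_GEN) (hRED : S_RED) (hTHETA : S_THETA) :
    S_WT := by
  classical
  intro Ω _ k d Λ hk hne h0
  obtain ⟨θ, h1, h2⟩ := hGEN Ω k d (Fin (d + 1)) (fun _ => Λ) hk fun _ => ⟨hne, h0⟩
  refine ⟨θ, fun j => (h1 j).1, hTHETA k Ω (sp k Λ) d θ (fun j => (h1 j).1) ?_⟩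
  have h := hRED k Ω Λ (univ.image θ) 1 (fun g hg => ?_) fun O => ?_
  · rwa [sp, sp, coe_image, coe_univ, Set.image_univ] at h
  · obtain ⟨j, -, rfl⟩ := mem_image.1 hg
    rw [pow_one]
    exact (h1 j).1
  · by_contra c
    have e : {s | ∃ a ∈ Λ, O.valuation (θ s) < O.valuation a} = Set.univ := by
      refine Set.eq_univ_of_forall fun s => ?_
      by_contra c'
      refine c ⟨θ s, mem_image_of_mem _ (mem_univ s), fun x hx => ?_⟩
      rw [pow_one]
      exact not_lt.1 fun l => c' ⟨x, hx, l⟩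
    have := h2 O
    rw [e, Set.ncard_univ, Nat.card_eq_fintype_card, Fintype.card_fin] at this
    omega

end Pool.Agent.P.MP_12d50c_ag.BT
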