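import Pool.Agent.P.MP_12d50c_ag.BT.TLINE
import Pool.Agent.P.MP_12d50c_ag.BT.TDET
import Pool.Agent.P.MP_12d50c_ag.BT.TSZ
import Pool.Agent.P.MP_12d50c_ag.BT.TCL
import Pool.Agent.P.MP_12d50c_ag.BT.TLJ0
import Pool.Agent.P.MP_12d50c_ag.BT.TLJ
import Pool.Agent.P.MP_12d50c_ag.BT.TBJD
import Pool.Agent.P.MP_12d50c_ag.BT.TBJS
import Pool.Agent.P.MP_12d50c_ag.BT.TNJ
import Pool.Agent.P.MP_12d50c_ag.BT.TBJL
import Pool.Agent.P.MP_12d50c_ag.BT.TBAD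
import Pool.Agent.P.MP_12d50c_ag.BT.TERR
import Pool.Agent.P.MP_12d50c_ag.BT.TTA
import Pool.Agent.P.MP_12d50c_ag.BT.TGOODF
import Pool.Agent.P.MP_12d50c_ag.BT.TTAF
import Pool.Agent.P.MP_12d50c_ag.BT.TDS0
import Pool.Agent.P.MP_12d50c_ag.BT.TDESC
import Pool.Agent.P.MP_12d50c_ag.BT.TTAK
import Pool.Agent.P.MP_12d50c_ag.BT.TKO
import Pool.Agent.P.MP_12d50c_ag.BT.TGA
import Pool.Agent.P.MP_12d50c_ag.BT.TGEN0
import Pool.Agent.P.MP_12d50c_ag.BT.TGEN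
import Pool.Agent.P.MP_12d50c_ag.BT.TPIG
import Pool.Agent.P.MP_12d50c_ag.BT.TRED0
import Pool.Agent.P.MP_12d50c_ag.BT.TRED
import Pool.Agent.P.MP_12d50c_ag.BT.TTHETA
import Pool.Agent.P.MP_12d50c_ag.BT.TWG
import Pool.Agent.P.MP_12d50c_ag.BT.TWT
import Pool.Agent.P.MP_12d50c_ag.BT.TGRP
import Pool.Agent.P.MP_12d50c_ag.BT.TWIT
import Pool.Agent.P.MP_12d50c_ag.BT.TDATB
import Pool.Agent.P.MP_12d50c_ag.BT.TTB
import Pool.Agent.P.MP_12d50c_ag.BT.TDEP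
import Pool.Agent.P.MP_12d50c_ag.BT.TTRC
import Pool.Agent.P.MP_12d50c_ag.BT.TNEW
import Pool.Agent.P.MP_12d50c_ag.BT.TRR1
import Pool.Agent.P.MP_12d50c_ag.BT.TRR2
import Pool.Agent.P.MP_12d50c_ag.BT.TRR3
import Pool.Agent.P.MP_12d50c_ag.BT.TCV
import Pool.Agent.P.MP_12d50c_ag.BT.TC1
import Pool.Agent.P.MP_12d50c_ag.BT.TCOMBI
import Pool.Agent.P.MP_12d50c_ag.BT.TREAL
import Pool.Agent.P.MP_12d50c_ag.BT.TCORE
import Pool.Agent.P.MP_12d50c_ag.BT.TISO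
import Pool.Agent.P.MP_12d50c_ag.BT.TSPM
import Pool.Agent.P.MP_12d50c_ag.BT.TOPM
import Pool.Agent.P.MP_12d50c_ag.BT.TDIM
import Pool.Agent.P.MP_12d50c_ag.BT.TFM
import Pool.Agent.P.MP_12d50c_ag.BT.TADM
import Pool.Agent.P.MP_12d50c_ag.BT.TRZ
import Pool.Agent.P.MP_12d50c_ag.BT.TDIC
import Pool.Agent.P.MP_12d50c_ag.BT.TSPEC
import Pool.Agent.P.MP_12d50c_ag.BT.TLMA
import Pool.Agent.P.MP_12d50c_ag.BT.TFL
import Pool.Agent.P.MP_12d50c_ag.BT.THB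
import Pool.Agent.P.MP_12d50c_ag.BT.TFR
import Pool.Agent.P.MP_12d50c_ag.BT.TGFIN
import Pool.Agent.P.MP_12d50c_ag.BT.TLRES
import Pool.Agent.P.MP_12d50c_ag.BT.TLS
import Pool.Agent.P.MP_12d50c_ag.BT.TCE0
import Pool.Agent.P.MP_12d50c_ag.BT.TCE1
import Pool.Agent.P.MP_12d50c_ag.BT.TCE2
import Pool.Agent.P.MP_12d50c_ag.BT.TCE3
import Pool.Agent.P.MP_12d50c_ag.BT.TCE4
import Pool.Agent.P.MP_12d50c_ag.BT.TCE
import Pool.Agent.P.MP_12d50c_ag.BT.TCURVE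
import Pool.Agent.P.MP_12d50c_ag.BT.TMUL0
import Pool.Agent.P.MP_12d50c_ag.BT.TMUL
import Pool.Agent.P.MP_12d50c_ag.BT.TALT0
import Pool.Agent.P.MP_12d50c_ag.BT.TALT
import Pool.Agent.P.MP_12d50c_ag.BT.TSWAP
import Pool.Agent.P.MP_12d50c_ag.BT.TMKW
import Pool.Agent.P.MP_12d50c_ag.BT.TPHB
import Pool.Agent.P.MP_12d50c_ag.BT.TCST
import Pool.Agent.P.MP_12d50c_ag.BT.TMAIN

/-! Assembly of the steps. -/

namespace Pool.Agent.P.MP_12d50c_ag.BT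

theorem t_LINE : S_LINE := p_LINE
theorem t_DET : S_DET := p_DET
theorem t_SZ : S_SZ := p_SZ t_LINE t_DET
theorem t_CL : S_CL := p_CL
theorem t_LJ0 : S_LJ0 := p_LJ0 t_CL
theorem t_LJ : S_LJ := p_LJ t_LJ0
theorem t_BJD : S_BJD := p_BJD
theorem t_BJS : S_BJS := p_BJS t_CL t_BJD
theorem t_NJ : S_NJ := p_NJ t_SZ
theorem t_BJL : S_BJL := p_BJL t_LJ t_BJD t_NJ
theorem t_BAD : S_BAD := p_BAD t_SZ t_CL
theorem t_ERR : S_ERR := p_ERR t_BAD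
theorem t_TA : S_TA := p_TA t_BJS t_BJL t_ERR
theorem t_GOODF : S_GOODF := p_GOODF t_SZ
theorem t_TAF : S_TAF := p_TAF t_TA t_GOODF
theorem t_DS0 : S_DS0 := p_DS0
theorem t_DESC : S_DESC := p_DESC t_DS0
theorem t_TAK : S_TAK := p_TAK t_TAF t_DESC
theorem t_KO : S_KO := p_KO
theorem t_GA : S_GA := p_GA
theorem t_GEN0 : S_GEN0 := p_GEN0 t_KO t_GA
theorem t_GEN : S_GEN := p_GEN t_GEN0
theorem t_PIG : S_PIG := p_PIG
theorem t_RED0 : S_RED0 := p_RED0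
theorem t_RED : S_RED := p_RED t_PIG t_RED0
theorem t_THETA : S_THETA := p_THETA t_PIG
theorem t_WG : S_WG := p_WG t_GEN t_RED
theorem t_WT : S_WT := p_WT t_GEN t_RED t_THETA
theorem t_GRP : S_GRP := p_GRP
theorem t_WIT : S_WIT := p_WIT t_WG t_WT t_GRP
theorem t_DATB : S_DATB := p_DATB t_WIT
theorem t_TB : S_TB := p_TB t_TAK t_DATB
theorem t_DEP : S_DEP := p_DEP t_KO
theorem t_TRC : S_TRC := p_TRC
theorem t_NEW : S_NEW := p_NEW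
theorem t_RR1 : S_RR1 := p_RR1 t_TRC t_NEW
theorem t_RR2 : S_RR2 := p_RR2 t_TRC t_NEW
theorem t_RR3 : S_RR3 := p_RR3 t_TRC
theorem t_CV : S_CV := p_CV
theorem t_C1 : S_C1 := p_C1 t_CV
theorem t_COMBI : S_COMBI := p_COMBI t_C1
theorem t_REAL : S_REAL := p_REAL t_KO t_GEN
theorem t_CORE : S_CORE := p_CORE t_TB t_DEP t_RR1 t_RR2 t_RR3 t_COMBI t_REAL
theorem t_ISO : S_ISO := p_ISO
theorem t_SPM : S_SPM := p_SPM
theorem t_OPM : S_OPM := p_OPM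
theorem t_DIM : S_DIM := p_DIM
theorem t_FM : S_FM := p_FM
theorem t_ADM : S_ADM := p_ADM t_DIM t_FM
theorem t_RZ : S_RZ := p_RZ
theorem t_DIC : S_DIC := p_DIC t_ISO t_SPM t_OPM
theorem t_SPEC : S_SPEC := p_SPEC t_DIM t_ADM t_RZ t_DIC
theorem t_LMA : S_LMA := p_LMA
theorem t_FL : S_FL := p_FL t_LMA
theorem t_HB : S_HB := p_HB t_LMA
theorem t_FR : S_FR := p_FR
theorem t_GFIN : S_GFIN := p_GFIN t_LMA t_FL t_HB t_FR
theorem t_LRES : S_LRES := p_LRES t_LMA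
theorem t_LS : S_LS := p_LS
theorem t_CE0 : S_CE0 := p_CE0
theorem t_CE1 : S_CE1 := p_CE1 t_CE0
theorem t_CE2 : S_CE2 := p_CE2
theorem t_CE3 : S_CE3 := p_CE3 t_FM
theorem t_CE4 : S_CE4 := p_CE4 t_FM t_LMA t_LRES t_LS t_CE2 t_CE3
theorem t_CE : S_CE := p_CE t_FM t_ADM t_GFIN t_LS t_CE0 t_CE1 t_CE3 t_CE4
theorem t_CURVE : S_CURVE := p_CURVE t_CE
theorem t_MUL0 : S_MUL0 := p_MUL0
theorem t_MUL : S_MUL := p_MUL t_MUL0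
theorem t_ALT0 : S_ALT0 := p_ALT0
theorem t_ALT : S_ALT := p_ALT t_KO t_ALT0
theorem t_SWAP : S_SWAP := p_SWAP
theorem t_MKW : S_MKW := p_MKW
theorem t_PHB : S_PHB := p_PHB
theorem t_CST : S_CST := p_CST
theorem t_MAIN : S_MAIN := p_MAIN t_CORE t_SPEC t_CURVE t_MUL t_ALT t_SWAP t_MKW t_PHB t_CST t_KO

end Pool.Agent.P.MP_12d50c_ag.BT
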