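import Mathlib

/-! Definitions for the vanishing of symbols with many entries. -/

set_option autoImplicit false
set_option linter.unusedSectionVars false

namespace Pool.Agent.P.MP_12d50c_ag.BT

open Finset

section A

variable {ι : Type} [Fintype ι] [DecidableEq ι] {K : Type} [Field K] {W : ι → Type}
  [∀ i, AddCommGroup (W i)] [∀ i, Module K (W i)] {V : Type} [AddCommGroup V] [Module K V]
  (β : ∀ i, W i →ₗ[K] W i →ₗ[K] V)

/-- The sum of the bilinear maps. -/
noncomputable def bb : (∀ i, W i) →ₗ[K] (∀ i, W i) →ₗ[K] V :=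
  ∑ i, (β i).compl₁₂ (LinearMap.proj i) (LinearMap.proj i)

theorem bb_apply (x y : ∀ i, W i) : bb β x y = ∑ i, β i (x i) (y i) := by
  simp [bb, LinearMap.sum_apply]

variable (K W) in
/-- Vectors supported on `T`. -/
def XT (T : Finset ι) : Submodule K (∀ i, W i) := Submodule.pi (T : Set ι)ᶜ fun _ => ⊥

theorem mem_XT {T : Finset ι} {x : ∀ i, W i} : x ∈ XT K W T ↔ ∀ i ∉ T, x i = 0 := by
  simp [XT, Submodule.mem_pi]

/-- The slots in `T` generate at `x`. -/
def Gn (T : Finset ι) (x : ∀ i, W i) : Prop := ∀ v, ∃ y ∈ XT K W T, bb β x y = v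

/-- Good vectors. -/
def Good (m : ℕ) (x : ∀ i, W i) : Prop :=
  (∀ i, x i ≠ 0) ∧ ∀ T : Finset ι, T.card = m → Gn β T x

theorem Gn.mono {T T' : Finset ι} {x : ∀ i, W i} (h : Gn β T x) (hT : T ⊆ T') : Gn β T' x :=
  fun v => let ⟨y, a, c⟩ := h v; ⟨y, mem_XT.2 fun i hi => mem_XT.1 a i fun e => hi (hT e), c⟩

theorem Good.gn {m : ℕ} {x : ∀ i, W i} (h : Good β m x) {T : Finset ι} (hT : m ≤ T.card) :
    Gn β T x :=
  let ⟨S, a, c⟩ := exists_subset_card_eq hT; (h.2 S c).mono β a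

theorem bb_congr {T : Finset ι} {x x' y : ∀ i, W i} (hy : y ∈ XT K W T)
    (h : ∀ i ∈ T, x i = x' i) : bb β x y = bb β x' y := by
  rw [bb_apply, bb_apply]
  refine sum_congr rfl fun i _ => ?_
  by_cases e : i ∈ T
  · rw [h i e]
  · rw [mem_XT.1 hy i e, map_zero, map_zero]

theorem Gn.congr {T : Finset ι} {x x' : ∀ i, W i} (h : Gn β T x) (e : ∀ i ∈ T, x i = x' i) :
    Gn β T x' := fun v => let ⟨y, a, c⟩ := h v; ⟨y, a, (bb_congr β a e).symm.trans c⟩

theorem bb_eq_zero {T T' : Finset ι} {x y : ∀ i, W i} (hx : x ∈ XT K W T) (hy : y ∈ XT K W T')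
    (h : Disjoint T T') : bb β x y = 0 := by
  rw [bb_congr β hy (x' := 0) fun i hi => mem_XT.1 hx i (disjoint_right.1 h hi), map_zero,
    LinearMap.zero_apply]

theorem bb_symm (h : ∀ i x y, β i x y = β i y x) (x y : ∀ i, W i) : bb β x y = bb β y x := by
  simp only [bb_apply, h]

variable [∀ i, Fintype (W i)]

open Classical in
/-- The correlation of `g` along the relations. -/
noncomputable def BJ (v₀ : V) (g : (∀ i, W i) → ℝ) (J : Finset ι) : ℝ :=
  ∑ a, ∑ a', if bb β a a' = v₀ then g a * g (J.piecewise a' a) else 0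

variable (K W) in
open Classical in
/-- Vectors supported on `T`, as a finite set. -/
noncomputable def GT (T : Finset ι) : Finset (∀ i, W i) := univ.filter (· ∈ XT K W T)

theorem mem_GT {T : Finset ι} {x : ∀ i, W i} : x ∈ GT K W T ↔ x ∈ XT K W T := by simp [GT]

open Classical in
/-- The number of solutions supported on `S`. -/
noncomputable def ws (v₀ : V) (S : Finset ι) (s : ∀ i, W i) (v : V) : ℝ :=
  ∑ s' ∈ GT K W S, if bb β s s' + v = v₀ then 1 else 0

end A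

section B

/-- The multiplicative group, written additively. -/
abbrev MM (Ω : Type) [Field Ω] : Type := Additive Ωˣ

/-- Alternating forms. -/
abbrev Alt (M : Type) [AddCommGroup M] (n : ℕ) : Type := M [⋀^Fin n]→ₗ[ℤ] ℚ

variable {Ω : Type} [Field Ω] {n : ℕ}

open Classical in
/-- The class of a nonzero element. -/
noncomputable def lg (x : Ω) : MM Ω := if h : x = 0 then 0 else Additive.ofMul (Units.mk0 x h)

theorem lg_of_ne {x : Ω} (h : x ≠ 0) : lg x = Additive.ofMul (Units.mk0 x h) := dif_neg h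

theorem lg_unit (x : Ωˣ) : lg (x : Ω) = Additive.ofMul x := by
  rw [lg_of_ne x.ne_zero, Units.mk0_val]

theorem lg_toMul (x : MM Ω) : lg ((Additive.toMul x : Ωˣ) : Ω) = x := lg_unit _

theorem lg_mul {x y : Ω} (hx : x ≠ 0) (hy : y ≠ 0) : lg (x * y) = lg x + lg y := by
  rw [lg_of_ne hx, lg_of_ne hy, lg_of_ne (mul_ne_zero hx hy), ← ofMul_mul, Units.mk0_mul]

theorem lg_one : lg (1 : Ω) = 0 := lg_unit 1

/-- The form vanishes on the hyperplane at infinity. -/
def St3 (ω : Alt (MM Ω) n) : Prop :=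
  ∀ z : Fin n → Ω, (∀ i, z i ≠ 0) → 1 + ∑ i, z i = 0 → ω (fun i => lg (z i)) = 0

/-- A field of constants that is an infinite union of finite fields. -/
structure Cst (k : Subfield Ω) (d : ℕ) : Prop where
  lf : ∀ (S : Finset Ω) (Q : ℕ), (∀ x ∈ S, x ∈ k) →
    ∃ k₀ : Subfield Ω, Finite k₀ ∧ k₀ ≤ k ∧ (∀ x ∈ S, x ∈ k₀) ∧ Q ≤ Nat.card k₀
  tr : Algebra.trdeg k Ω ≤ d

/-- At every valuation at most `K` entries are not units. -/
def KGen (K : ℕ) (f : Fin n → Ω) : Prop :=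
  ∀ O : ValuationSubring Ω, {i | O.valuation (f i) ≠ 1}.ncard ≤ K

/-- The span of a finite set. -/
abbrev sp (k : Type) [Field k] {R : Type} [CommRing R] [Algebra k R] (A : Finset R) :
    Submodule k R := Submodule.span k (A : Set R)

/-- The line spanned by an element. -/
abbrev ln1 (k : Type) [Field k] {R : Type} [CommRing R] [Algebra k R] (a : R) :
    Submodule k R := Submodule.span k {a}

/-- Spaces of which any `m` generate `V`. -/
structure Dat (k : Subfield Ω) (m : ℕ) {E : Type} (W : Fin n → Submodule k Ω) (V : Submodule k Ω)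
    (c : E → Fin n → Ω) : Prop where
  fgW : ∀ i, (W i).FG
  neW : ∀ i, W i ≠ ⊥
  fgV : V.FG
  one : (1 : Ω) ∈ V
  ne : ∀ e i, c e i ≠ 0
  mul : ∀ e i, ∀ x ∈ W i, ∀ y ∈ W i, c e i ^ 2 * x * y ∈ V
  gen : ∀ e (T : Finset (Fin n)), T.card = m →
    ∃ z : Fin n → Ω, (∀ i, z i ∈ W i) ∧ V ≤ ⨆ i ∈ T, ln1 k (c e i ^ 2 * z i) * W i

/-- One or the entry. -/
def cc (f : Fin n → Ω) (e : Fin n → Bool) (i : Fin n) : Ω := if e i then f i else 1

open Classical in
/-- The squarefree monomials. -/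
noncomputable def Lam (f : Fin n → Ω) : Finset Ω := univ.image fun e => ∏ i, cc f e i

open Classical in
/-- The squarefree monomials without the entry `j`. -/
noncomputable def Lam0 (f : Fin n → Ω) (j : Fin n) : Finset Ω :=
  (univ.filter fun e : Fin n → Bool => e j = false).image fun e => ∏ i, cc f e i

theorem mem_Lam {f : Fin n → Ω} {x : Ω} : x ∈ Lam f ↔ ∃ e, ∏ i, cc f e i = x := by simp [Lam]

theorem mem_Lam0 {f : Fin n → Ω} {j : Fin n} {x : Ω} :
    x ∈ Lam0 f j ↔ ∃ e : Fin n → Bool, e j = false ∧ ∏ i, cc f e i = x := by simp [Lam0]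

end B

section C

/-- A family of homomorphisms to ordered groups. -/
structure VS (M : Type) [AddCommGroup M] where
  J : Type
  Γ : J → Type
  [ag : ∀ v, AddCommGroup (Γ v)]
  [lo : ∀ v, LinearOrder (Γ v)]
  [om : ∀ v, IsOrderedAddMonoid (Γ v)]
  val : ∀ v, M →+ Γ v

attribute [instance] VS.ag VS.lo VS.om

/-- Nonempty finite sets. -/
abbrev NF (M : Type) : Type := {A : Finset M // A.Nonempty}

/-- Formal entries. -/
abbrev EE (M : Type) : Type := M × (ℕ →₀ ℤ)

variable {M : Type} [AddCommGroup M] {n : ℕ}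

/-- The homomorphism with given values on the new generators. -/
noncomputable def lin {N : Type} [AddCommGroup N] (φ : M →+ N) (g : ℕ → N) : EE M →+ N :=
  φ.coprod (Finsupp.liftAddHom fun s => zmultiplesHom N (g s))

theorem lin_apply {N : Type} [AddCommGroup N] (φ : M →+ N) (g : ℕ → N) (e : EE M) :
    lin φ g e = φ e.1 + ∑ s ∈ e.2.support, e.2 s • g s := by
  simp [lin, Finsupp.sum]

theorem lin_congr {N : Type} [AddCommGroup N] (φ : M →+ N) {g g' : ℕ → N} {e : EE M}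
    (h : ∀ s, e.2 s ≠ 0 → g s = g' s) : lin φ g e = lin φ g' e := by
  rw [lin_apply, lin_apply]
  exact congrArg _ (sum_congr rfl fun s hs => by rw [h s (Finsupp.mem_support_iff.1 hs)])

/-- The generators are below `p` and occur in at most two slots. -/
structure Sta (p : ℕ) (e : Fin n → EE M) : Prop where
  lt : ∀ i s, (e i).2 s ≠ 0 → s < p
  two : ∀ s, {i | (e i).2 s ≠ 0}.ncard ≤ 2

namespace VS

variable (Y : VS M)

/-- Families of values. -/
abbrev H : Type := ∀ v, Y.Γ v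

/-- The maximum over a finite set. -/
def tr (A : NF M) : Y.H := fun v => A.1.sup' A.2 (Y.val v)

/-- Differences of maxima. -/
def Trop (h : Y.H) : Prop := ∃ A B, h = Y.tr A - Y.tr B

/-- The value of a formal entry. -/
noncomputable def ev (𝒜 : ℕ → NF M) (e : EE M) : Y.H :=
  fun v => lin (Y.val v) (fun s => Y.tr (𝒜 s) v) e

theorem ev_add (𝒜 : ℕ → NF M) (e e' : EE M) : Y.ev 𝒜 (e + e') = Y.ev 𝒜 e + Y.ev 𝒜 e' :=
  funext fun _ => map_add _ _ _

theorem ev_sub (𝒜 : ℕ → NF M) (e e' : EE M) : Y.ev 𝒜 (e - e') = Y.ev 𝒜 e - Y.ev 𝒜 e' :=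
  funext fun _ => map_sub _ _ _

theorem ev_neg (𝒜 : ℕ → NF M) (e : EE M) : Y.ev 𝒜 (-e) = -Y.ev 𝒜 e :=
  funext fun _ => map_neg _ _

theorem ev_congr {𝒜 𝒜' : ℕ → NF M} {e : EE M} (h : ∀ s, e.2 s ≠ 0 → 𝒜' s = 𝒜 s) :
    Y.ev 𝒜' e = Y.ev 𝒜 e := funext fun _ => lin_congr _ fun s hs => by rw [h s hs]

/-- At most `d` entries are nonzero at every place. -/
def Ovl (d : ℕ) (h : Fin n → Y.H) : Prop := ∀ v, {i | h i v ≠ 0}.ncard ≤ d

/-- The form vanishes on the leaves. -/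
def Kil (d p : ℕ) (𝒜 : ℕ → NF M) (ω : Alt (EE M) n) : Prop :=
  ∀ e, Sta p e → Y.Ovl d (fun i => Y.ev 𝒜 (e i)) → ω e = 0

/-- States with values `h` reduce to leaves. -/
def Cl (d : ℕ) (h : Fin n → Y.H) : Prop :=
  ∀ p 𝒜 (e : Fin n → EE M), Sta p e → (∀ i, Y.ev 𝒜 (e i) = h i) →
    ∃ p' 𝒜', p ≤ p' ∧ (∀ s < p, 𝒜' s = 𝒜 s) ∧ ∀ ω, Y.Kil d p' 𝒜' ω → ω e = 0

/-- Any `d + 1` elements satisfy one of finitely many relations at every place. -/
def Dep (d : ℕ) : Prop := ∀ μ : Fin (d + 1) → M, ∃ C : Finset (Fin (d + 1) → ℤ),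
  (∀ c ∈ C, c ≠ 0) ∧ ∀ v, ∃ c ∈ C, ∑ j, c j • Y.val v (μ j) = 0

/-- The relations in `C` cover the common support of the slots in `S`. -/
def Cov (S : Finset (Fin n)) (h : Fin n → Y.H) (C : List (Fin n → ℤ)) : Prop :=
  (∀ c ∈ C, c ≠ 0 ∧ ∀ i ∉ S, c i = 0) ∧
    ∀ v, (∀ i ∈ S, 0 < h i v) → ∃ c ∈ C, ∑ i, c i • h i v = 0

/-- Nonnegative entries whose supports lie in those of `h₀`. -/
def Sub (h h₀ : Fin n → Y.H) : Prop := ∀ i v, 0 ≤ h i v ∧ (0 < h i v → 0 < h₀ i v)

/-- No common support. -/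
def NoC (S : Finset (Fin n)) (h : Fin n → Y.H) : Prop := ∀ v, ∃ i ∈ S, ¬ 0 < h i v

/-- Two entries are replaced. -/
def up2 (h : Fin n → Y.H) (j j' : Fin n) (a a' : Y.H) : Fin n → Y.H :=
  Function.update (Function.update h j a) j' a'

/-- The rule for a pair of entries. -/
def R1 (P : (Fin n → Y.H) → Prop) : Prop := ∀ h j j', j ≠ j' →
  P (Y.up2 h j j' (h j - h j ⊓ h j') (h j' - h j ⊓ h j')) →
  P (Y.up2 h j j' (h j - h j ⊓ h j') (h j ⊓ h j')) →
  P (Y.up2 h j j' (h j ⊓ h j') (h j' - h j ⊓ h j')) → P h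

/-- The rule for signs. -/
def R2 (P : (Fin n → Y.H) → Prop) : Prop := ∀ h j,
  P (Function.update h j (h j - h j ⊓ 0)) → P (Function.update h j (-(h j ⊓ 0))) → P h

/-- The rule for relations. -/
def R3 (d : ℕ) (P : (Fin n → Y.H) → Prop) : Prop := ∀ h (S : Finset (Fin n)), S.card = d + 1 →
  (∀ C, Y.Cov S h C → P h) → P h

end VS

/-- The valuations of a field. -/
noncomputable def vs (Ω : Type) [Field Ω] : VS (MM Ω) where
  J := ValuationSubring Ω
  Γ O := Additive (O.ValueGroup)ˣ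
  val O := MonoidHom.toAdditive (Units.map O.valuation.toMonoidWithZeroHom.toMonoidHom)

theorem vs_le {Ω : Type} [Field Ω] (O : ValuationSubring Ω) (x y : MM Ω) :
    (vs Ω).val O x ≤ (vs Ω).val O y ↔
      O.valuation ((Additive.toMul x : Ωˣ) : Ω) ≤ O.valuation ((Additive.toMul y : Ωˣ) : Ω) :=
  Iff.rfl

theorem vs_eq {Ω : Type} [Field Ω] (O : ValuationSubring Ω) (x y : MM Ω) :
    (vs Ω).val O x = (vs Ω).val O y ↔
      O.valuation ((Additive.toMul x : Ωˣ) : Ω) = O.valuation ((Additive.toMul y : Ωˣ) : Ω) := by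
  rw [le_antisymm_iff, le_antisymm_iff, vs_le, vs_le]

theorem vs_eq_zero {Ω : Type} [Field Ω] (O : ValuationSubring Ω) (x : MM Ω) :
    (vs Ω).val O x = 0 ↔ O.valuation ((Additive.toMul x : Ωˣ) : Ω) = 1 := by
  rw [← map_zero ((vs Ω).val O), vs_eq]; simp

end C

end Pool.Agent.P.MP_12d50c_ag.BT
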