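import Pool.Agent.P.MP_12d50c_ag.BT.Base
import Pool.Agent.P.MP_12d50c_ag.BT.LibD
import Pool.Agent.P.MP_12d50c_ag.Bloch

/-! The cycle complex of a field in coordinates. -/

set_option autoImplicit false
set_option linter.unusedSectionVars false

namespace Pool.Agent.P.MP_12d50c_ag.BT

open Finset Polynomial

/-- The coordinate ring of the simplex over `F`. -/
abbrev AS (F : Type) [Field F] (n : ℕ) : Type :=
  MvPolynomial (Fin (n + 1)) F ⧸
    Ideal.span {(∑ i, MvPolynomial.X i - 1 : MvPolynomial (Fin (n + 1)) F)}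

section Len

variable (R : Type) [CommRing R]

/-- The length of the localization of a module. -/
noncomputable def LL (N : Type) [AddCommGroup N] [Module R N] (q : PrimeSpectrum R) : ℕ∞ :=
  Module.length (Localization.AtPrime q.asIdeal) (LocalizedModule q.asIdeal.primeCompl N)

variable {R}

/-- The length of the local ring of `V(J)` at `q`. -/
noncomputable def ln (J : Ideal R) (q : PrimeSpectrum R) : ℕ :=
  (Module.length (Localization.AtPrime q.asIdeal) (Localization.AtPrime q.asIdeal ⧸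
    J.map (algebraMap R (Localization.AtPrime q.asIdeal)))).toNat

theorem ln_eq_zero {J : Ideal R} {q : PrimeSpectrum R} (h : ¬ J ≤ q.asIdeal) : ln J q = 0 := by
  obtain ⟨a, h1, h2⟩ := SetLike.not_le_iff_exists.1 h
  rw [ln, Module.length_eq_zero_iff.2 (Ideal.Quotient.subsingleton_iff.2
    (Ideal.eq_top_of_isUnit_mem _ (Ideal.mem_map_of_mem _ h1)
      (IsLocalization.map_units _ (⟨a, h2⟩ : q.asIdeal.primeCompl))))]
  rfl

end Len

variable (F : Type) [Field F] {m n : ℕ}

/-- The coordinates. -/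
noncomputable def tt (j : Fin (n + 1)) : AS F n := Ideal.Quotient.mk _ (MvPolynomial.X j)

theorem sum_tt : ∑ j, (tt F j : AS F n) = 1 := by
  simp only [tt, ← map_sum]
  rw [← sub_eq_zero, ← map_one (Ideal.Quotient.mk _), ← map_sub, Ideal.Quotient.eq_zero_iff_mem]
  exact Ideal.subset_span rfl

section
variable {B : Type} [CommRing B] [Algebra F B]

/-- Evaluation at a point of the simplex. -/
noncomputable def evA (x : Fin (n + 1) → B) (h : ∑ i, x i = 1) : AS F n →ₐ[F] B :=
  Ideal.Quotient.liftₐ _ (MvPolynomial.aeval x) fun a ha => by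
    obtain ⟨c, rfl⟩ := Ideal.mem_span_singleton'.1 ha
    simp [h]

@[simp]
theorem evA_tt (x : Fin (n + 1) → B) (h : ∑ i, x i = 1) (j : Fin (n + 1)) :
    evA F x h (tt F j) = x j := by
  simp [evA, tt]

variable {F} in
theorem as_ext {f g : AS F n →ₐ[F] B} (h : ∀ j, f (tt F j) = g (tt F j)) : f = g :=
  Ideal.Quotient.algHom_ext _ (MvPolynomial.algHom_ext h)

end

/-- The map induced by a map of simplices. -/
noncomputable def fm (g : Fin (m + 1) → Fin (n + 1)) : AS F n →ₐ[F] AS F m :=
  evA F (fun j => ∑ i with g i = j, tt F i) (by rw [sum_fiberwise, sum_tt])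

theorem fm_tt (g : Fin (m + 1) → Fin (n + 1)) (j : Fin (n + 1)) :
    fm F g (tt F j) = ∑ i with g i = j, tt F i := evA_tt ..

variable {F}

/-- Curves that meet the faces properly. -/
structure AdmA (w : PrimeSpectrum (AS F (n + 1))) : Prop where
  dim : ringKrullDim (AS F (n + 1) ⧸ w.asIdeal) = 1
  one : ∀ j, tt F j ∉ w.asIdeal
  two : ∀ j j', j ≠ j' → w.asIdeal ⊔ Ideal.span {tt F j, tt F j'} = ⊤

/-- `Z` is a finite set of closed points that contains the faces of `w`. -/
structure Sup (w : PrimeSpectrum (AS F (n + 1))) (Z : Finset (PrimeSpectrum (AS F n))) : Prop where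
  mem : ∀ (j : Fin (n + 2)) z, w.asIdeal.map (fm F j.succAbove) ≤ z.asIdeal → z ∈ Z
  max : ∀ z ∈ Z, z.asIdeal.IsMaximal

/-- `φ` vanishes on boundaries. -/
def KillA (φ : PrimeSpectrum (AS F n) → ℚ) : Prop := ∀ w Z, AdmA w → Sup w Z →
  ∑ z ∈ Z, φ z * ∑ j : Fin (n + 2), (-1) ^ (j : ℕ) *
    (ln (w.asIdeal.map (fm F j.succAbove)) z : ℚ) = 0

variable {E : Type} [Field E] [Algebra F E]

variable (F) in
/-- The point with homogeneous coordinates `x`. -/
noncomputable def pt (x : Fin (n + 1) → E) (h : ∑ i, x i ≠ 0) : PrimeSpectrum (AS F n) :=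
  ⟨RingHom.ker (evA F (fun i => x i / ∑ i, x i) (by rw [← sum_div, div_self h])),
    RingHom.ker_isPrime _⟩

open Classical in
/-- The value of `φ` at a geometric point. -/
noncomputable def phb (φ : PrimeSpectrum (AS F n) → ℚ) (x : Fin (n + 1) → E) : ℚ :=
  if h : ∑ i, x i = 0 then 0
  else φ (pt F x h) / Module.finrank F (AS F n ⧸ (pt F x h).asIdeal)

/-- The coordinates of a rational curve. -/
noncomputable def pp (κ : Fin (n + 2) → E) (S : Fin (n + 2) → Finset E) (j : Fin (n + 2)) : E[X] :=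
  C (κ j) * ∏ a ∈ S j, (X - C a)

/-- The sum of the coordinates. -/
noncomputable abbrev ss (κ : Fin (n + 2) → E) (S : Fin (n + 2) → Finset E) : E[X] := ∑ j, pp κ S j

/-- The conditions on the curve. -/
structure Cur (κ : Fin (n + 2) → E) (S : Fin (n + 2) → Finset E) : Prop where
  ne : ∀ j, κ j ≠ 0
  disj : ∀ j j', j ≠ j' → Disjoint (S j) (S j')
  deg : ∃ j, (ss κ S).degree < (S j).card

/-- The relations given by rational curves. -/
def CR (Φ : (Fin (n + 1) → E) → ℚ) : Prop := ∀ κ S, Cur κ S →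
  ∑ j : Fin (n + 2), (-1) ^ (j : ℕ) * ∑ a ∈ S j, Φ (fun i => (pp κ S (j.succAbove i)).eval a) = 0

variable (F) in
/-- The parametrization of the curve. -/
noncomputable def thB (κ : Fin (n + 2) → E) (S : Fin (n + 2) → Finset E) :
    AS F (n + 1) →ₐ[F] Localization.Away (ss κ S) :=
  evA F (fun j => algebraMap E[X] _ (pp κ S j) * IsLocalization.Away.invSelf (ss κ S)) (by
    rw [← sum_mul, ← map_sum, IsLocalization.Away.mul_invSelf])

/-- Affine in every slot. -/
def Aff (Φ : (Fin (n + 1) → E) → ℚ) : Prop := ∀ (j : Fin (n + 1)) (x : Fin (n + 1) → E) (a b : E),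
  (∀ i, x i ≠ 0) → a ≠ 0 → b ≠ 0 →
  Φ (Function.update x j (a * b)) + Φ (Function.update x j 1) =
    Φ (Function.update x j a) + Φ (Function.update x j b)

end Pool.Agent.P.MP_12d50c_ag.BT
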