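import Pool.Agent.P.MP_12d50c_ag.BT.BaseD
import Pool.Agent.P.MP_12d50c_ag.BT.IfaceB

/-! Statements, part D: the cycle complex of a field. -/

set_option autoImplicit false
set_option linter.unusedSectionVars false

namespace Pool.Agent.P.MP_12d50c_ag.BT

open Finset Function Polynomial CategoryTheory AlgebraicGeometry
open scoped TensorProduct

-- deps:
def S_ISO : Prop := ∀ (F : Type) [Field F],
  ∃ e : ∀ n, XD (Spec (CommRingCat.of F)) n ≅ Spec (CommRingCat.of (AS F n)),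
    ∀ (m n : ℕ) (g : Fin (m + 1) → Fin (n + 1)), face _ g ≫ (e n).hom =
      (e m).hom ≫ Spec.map (CommRingCat.ofHom (fm F g).toRingHom)

-- deps:
def S_SPM : Prop := ∀ (R : Type) [CommRing R],
  (∀ z w : Spec (CommRingCat.of R), z ≤ w ↔ w.asIdeal ≤ z.asIdeal) ∧
  (∀ w : Spec (CommRingCat.of R), Order.coheight w = w.asIdeal.height) ∧
  ∀ (S : Type) [CommRing S] (f : R →+* S) (w : Spec (CommRingCat.of R))
    (z : Spec (CommRingCat.of S)),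
    (Spec.map (CommRingCat.ofHom f) z).asIdeal = z.asIdeal.comap f ∧
      mult (Spec.map (CommRingCat.ofHom f)) w z = ln (w.asIdeal.map f) z

-- deps:
def S_OPM : Prop :=
  (∀ (Y Y' : Scheme.{0}) (f : Y ⟶ Y') [IsOpenImmersion f],
    (∀ y y' : Y, y ≤ y' ↔ f y ≤ f y') ∧ ∀ y : Y, Order.coheight (f y) = Order.coheight y) ∧
  ∀ (Y Y' Z Z' : Scheme.{0}) (f : Y ⟶ Y') (g : Z ⟶ Z') [IsOpenImmersion f] [IsOpenImmersion g]
    (a : Y ⟶ Z) (a' : Y' ⟶ Z'), a ≫ g = f ≫ a' → ∀ w z, mult a w z = mult a' (g w) (f z)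

-- deps:
def S_DIM : Prop := ∀ (F : Type) [Field F] (n : ℕ), IsDomain (AS F n) ∧
  (∀ z : PrimeSpectrum (AS F n), z.asIdeal.height ≤ n ∧
    (z.asIdeal.IsMaximal ↔ z.asIdeal.height = n)) ∧
  ∀ w : PrimeSpectrum (AS F (n + 1)), ringKrullDim (AS F (n + 1) ⧸ w.asIdeal) = 1 →
    w.asIdeal.height = n

-- deps:
def S_FM : Prop := ∀ (F : Type) [Field F] (m n : ℕ),
  (∀ g : Fin (m + 1) → Fin (n + 1), (∀ j ∉ Set.range g, fm F g (tt F j) = 0) ∧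
    (Function.Injective g → (∀ i, fm F g (tt F (g i)) = tt F i) ∧ Function.Surjective (fm F g))) ∧
  ∀ j : Fin (n + 2), RingHom.ker (fm F j.succAbove) = Ideal.span {tt F j}

-- deps: DIM FM
def S_ADM : Prop := ∀ (F : Type) [Field F] (n : ℕ),
  (∀ w : PrimeSpectrum (AS F (n + 1)), AdmA w → ∀ (m : ℕ) (g : Fin (m + 1) ↪o Fin (n + 2))
    (z : PrimeSpectrum (AS F m)), w.asIdeal ≤ z.asIdeal.comap (fm F g) →
    (n : ℕ∞) ≤ z.asIdeal.height) ∧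
  (∀ w : PrimeSpectrum (AS F (n + 1)), AdmA w → ∃ Z, Sup w Z) ∧
  ∀ (z : PrimeSpectrum (AS F (n + 1))) (j : Fin (n + 2)), tt F j ∈ z.asIdeal →
    ∃ z' : PrimeSpectrum (AS F n), z.asIdeal = z'.asIdeal.comap (fm F j.succAbove)

-- deps:
def S_RZ : Prop := ∀ (A : Type) [AddCommGroup A] (C B : AddSubgroup A),
  (∀ ψ : A →+ ℚ, (∀ b ∈ B, ψ b = 0) → ∀ c ∈ C, ψ c = 0) →
  Module.rank ℚ (ℚ ⊗[ℤ] (C ⧸ B.addSubgroupOf C)) = 0

-- deps: ISO SPM OPM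
def S_DIC : Prop := ∀ (F : Type) [Field F],
  ∃ e : ∀ n, XD (Spec (CommRingCat.of F)) n ≃ PrimeSpectrum (AS F n),
    (∀ n w, Order.coheight w = (e n w).asIdeal.height) ∧
    ∀ (m n : ℕ) (g : Fin (m + 1) → Fin (n + 1)) (w : XD (Spec (CommRingCat.of F)) n)
      (z : XD (Spec (CommRingCat.of F)) m),
      (face _ g z ≤ w ↔ (e n w).asIdeal ≤ (e m z).asIdeal.comap (fm F g)) ∧
        mult (face _ g) w z = ln ((e n w).asIdeal.map (fm F g)) (e m z)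

-- deps: DIM ADM RZ DIC
def S_SPEC : Prop := ∀ (F : Type) [Field F] (n : ℕ),
  (∀ φ : PrimeSpectrum (AS F (n + 1)) → ℚ, KillA φ → ∀ z, z.asIdeal.IsMaximal →
    (∀ i, tt F i ∉ z.asIdeal) → φ z = 0) →
  Module.rank ℚ (ℚ ⊗[ℤ] CH (Spec (CommRingCat.of F)) (n + 1) (n + 1)) = 0

-- deps:
def S_LMA : Prop := ∀ (R : Type) [CommRing R] (q : PrimeSpectrum R),
  (∀ (N N' : Type) [AddCommGroup N] [Module R N] [AddCommGroup N'] [Module R N'],
    (N ≃ₗ[R] N') → LL R N q = LL R N' q) ∧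
  (∀ (N : Type) [AddCommGroup N] [Module R N] (P : Submodule R N),
    LL R N q = LL R P q + LL R (N ⧸ P) q) ∧
  (∀ (ι : Type) [Fintype ι] (N : ι → Type) [∀ i, AddCommGroup (N i)] [∀ i, Module R (N i)],
    LL R (∀ i, N i) q = ∑ i, LL R (N i) q) ∧
  ∀ J : Ideal R, ln J q = (LL R (R ⧸ J) q).toNat

-- deps: LMA
def S_FL : Prop := ∀ (R : Type) [CommRing R] [IsNoetherianRing R] (w : Ideal R) [w.IsPrime] (a : R)
  (N : Type) [AddCommGroup N] [Module R N] [Module.Finite R N] (q : PrimeSpectrum R),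
  ringKrullDim (R ⧸ w) ≤ 1 → a ∉ w → (∀ x ∈ w, ∀ y : N, x • y = 0) → (∀ y : N, a • y = 0) →
  LL R N q ≠ ⊤

-- deps: LMA
def S_HB : Prop := ∀ (R : Type) [CommRing R] (q : PrimeSpectrum R) (N : Type) [AddCommGroup N]
  [Module R N] (P : Submodule R N) (τ : R), (∀ y : N, τ • y = 0 → y = 0) →
  LL R (N ⧸ P) q ≠ ⊤ → LL R (N ⧸ LinearMap.range (LinearMap.lsmul R N τ)) q =
    LL R (P ⧸ LinearMap.range (LinearMap.lsmul R P τ)) q

-- deps:
def S_FR : Prop := ∀ (R B : Type) [CommRing R] [CommRing B] [IsDomain B] [Algebra R B]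
  [Module.Finite R B], ∃ (δ : ℕ) (l : (Fin δ → R ⧸ RingHom.ker (algebraMap R B)) →ₗ[R] B) (a : R),
    0 < δ ∧ Function.Injective l ∧ algebraMap R B a ≠ 0 ∧ ∀ y : B, a • y ∈ LinearMap.range l

-- deps: LMA FL HB FR
def S_GFIN : Prop := ∀ (R B : Type) [CommRing R] [IsNoetherianRing R] [CommRing B] [IsDomain B]
  [Algebra R B] [Module.Finite R B], ringKrullDim (R ⧸ RingHom.ker (algebraMap R B)) ≤ 1 →
  ∃ δ : ℕ, 0 < δ ∧ ∀ τ : R, algebraMap R B τ ≠ 0 → ∀ q : PrimeSpectrum R,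
    (LL R (B ⧸ Ideal.span {algebraMap R B τ}) q).toNat =
      δ * ln (RingHom.ker (algebraMap R B) ⊔ Ideal.span {τ}) q

-- deps: LMA
def S_LRES : Prop := ∀ (F R B E : Type) [Field F] [CommRing R] [CommRing B] [Field E] [Algebra F R]
  [Algebra F B] [Algebra F E] [Algebra R B] [IsScalarTower F R B] [FiniteDimensional F E]
  (χ : B →ₐ[F] E) (q : PrimeSpectrum R), Function.Surjective χ → LL R (B ⧸ RingHom.ker χ) q ≠ ⊤ ∧
  (q.asIdeal = (RingHom.ker χ).comap (algebraMap R B) →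
    (LL R (B ⧸ RingHom.ker χ) q).toNat * Module.finrank F (R ⧸ q.asIdeal) = Module.finrank F E) ∧
  (q.asIdeal ≠ (RingHom.ker χ).comap (algebraMap R B) → LL R (B ⧸ RingHom.ker χ) q = 0)

-- deps:
def S_LS : Prop := ∀ (F R S : Type) [Field F] [CommRing R] [CommRing S] [Algebra F R] [Algebra F S]
  (f : R →ₐ[F] S) (J : Ideal R) (z : PrimeSpectrum S), Function.Surjective f →
  ln (J.map f) z = ln (J ⊔ RingHom.ker f) (PrimeSpectrum.comap f.toRingHom z) ∧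
    Module.finrank F (R ⧸ (PrimeSpectrum.comap f.toRingHom z).asIdeal) =
      Module.finrank F (S ⧸ z.asIdeal)

-- deps:
def S_CE0 : Prop := ∀ (F E : Type) [Field F] [Field E] [Algebra F E] [FiniteDimensional F E] (n : ℕ)
  (κ : Fin (n + 2) → E) (S : Fin (n + 2) → Finset E), Cur κ S →
  (∀ j j', j ≠ j' → IsCoprime (pp κ S j) (pp κ S j')) ∧ (thB F κ S).toRingHom.Finite

-- deps: CE0
def S_CE1 : Prop := ∀ (F E : Type) [Field F] [Field E] [Algebra F E] [FiniteDimensional F E] (n : ℕ)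
  (κ : Fin (n + 2) → E) (S : Fin (n + 2) → Finset E), Cur κ S → ss κ S ≠ 0 →
  ∃ w : PrimeSpectrum (AS F (n + 1)), w.asIdeal = RingHom.ker (thB F κ S) ∧ AdmA w

-- deps:
def S_CE2 : Prop := ∀ (F E : Type) [Field F] [Field E] [Algebra F E] (s : E[X]) (c : E)
  (T : Finset E) (u : Localization.Away s), c ≠ 0 → IsUnit u →
  ∃ χ : {a // a ∈ T ∧ s.eval a ≠ 0} → Localization.Away s →ₐ[F] E,
    (∀ a, Function.Surjective (χ a) ∧ ∀ p : E[X], χ a (algebraMap E[X] _ p) = p.eval a.1) ∧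
    Nonempty ((Localization.Away s ⧸ Ideal.span {algebraMap E[X] (Localization.Away s)
      (C c * ∏ a ∈ T, (X - C a)) * u}) ≃ₗ[Localization.Away s]
        ∀ a, Localization.Away s ⧸ RingHom.ker (χ a))

-- deps: FM
def S_CE3 : Prop := ∀ (F E : Type) [Field F] [Field E] [Algebra F E] (n : ℕ)
  (κ : Fin (n + 2) → E) (S : Fin (n + 2) → Finset E) (j : Fin (n + 2)) (a : E), a ∈ S j →
  ∑ i, (pp κ S (j.succAbove i)).eval a = (ss κ S).eval a ∧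
  ∀ (h : ∑ i, (pp κ S (j.succAbove i)).eval a ≠ 0) (χ : Localization.Away (ss κ S) →ₐ[F] E),
    (∀ p : E[X], χ (algebraMap E[X] _ p) = p.eval a) →
    (RingHom.ker χ).comap (thB F κ S) = (pt F _ h).asIdeal.comap (fm F j.succAbove)

-- deps: FM LMA LRES LS CE2 CE3
def S_CE4 : Prop := ∀ (F E : Type) [Field F] [Field E] [Algebra F E] [FiniteDimensional F E] (n : ℕ)
  (κ : Fin (n + 2) → E) (S : Fin (n + 2) → Finset E) (j : Fin (n + 2))
  (φ : PrimeSpectrum (AS F n) → ℚ) (Z : Finset (PrimeSpectrum (AS F n))), κ j ≠ 0 →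
  (∀ z : PrimeSpectrum (AS F n),
    (RingHom.ker (thB F κ S)).map (fm F j.succAbove) ≤ z.asIdeal → z ∈ Z) →
  letI := (thB F κ S).toRingHom.toAlgebra
  ∑ z ∈ Z, φ z * (LL (AS F (n + 1)) (Localization.Away (ss κ S) ⧸
      Ideal.span {thB F κ S (tt F j)}) (PrimeSpectrum.comap (fm F j.succAbove).toRingHom z)).toNat =
    Module.finrank F E * ∑ a ∈ S j, phb φ fun i => (pp κ S (j.succAbove i)).eval a

-- deps: FM ADM GFIN LS CE0 CE1 CE3 CE4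
def S_CE : Prop := ∀ (F E : Type) [Field F] [Field E] [Algebra F E] [FiniteDimensional F E] (n : ℕ)
  (φ : PrimeSpectrum (AS F n) → ℚ), KillA φ → CR (phb φ : (Fin (n + 1) → E) → ℚ)

-- deps: CE
def S_CURVE : Prop := ∀ (F Ω : Type) [Field F] [Field Ω] [Algebra F Ω] [Algebra.IsAlgebraic F Ω]
  (n : ℕ) (φ : PrimeSpectrum (AS F n) → ℚ), KillA φ → CR (phb φ : (Fin (n + 1) → Ω) → ℚ)

-- deps:
def S_MUL0 : Prop := ∀ (E : Type) [Field E] (n : ℕ) (Φ : (Fin (n + 1) → E) → ℚ) (j : Fin (n + 1))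
  (c : Fin (n + 1) → E) (x y x' y' : E), CR Φ → (∀ i, c i ≠ 0) → x * y = x' * y' → x * y ≠ 0 →
  x ≠ y → x' ≠ y' → x + y ≠ x' + y' →
  Φ (update c j x) + Φ (update c j y) = Φ (update c j x') + Φ (update c j y')

-- deps: MUL0
def S_MUL : Prop := ∀ (E : Type) [Field E] [Infinite E] (n : ℕ) (Φ : (Fin (n + 1) → E) → ℚ),
  CR Φ → Aff Φ

-- deps:
def S_ALT0 : Prop := ∀ (E : Type) [Field E] (n : ℕ) (Φ : (Fin (n + 2) → E) → ℚ) (j : Fin (n + 1))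
  (c : Fin (n + 2) → E) (α β γ x y z : E), CR Φ → (∀ i, c i ≠ 0) → α ≠ 0 → β ≠ 0 → γ ≠ 0 →
  α + β + γ = 0 → x ≠ y → y ≠ z → x ≠ z →
  Φ (update (update c j.castSucc (β * (x - y))) j.succ (γ * (x - z))) -
    Φ (update (update c j.castSucc (α * (y - x))) j.succ (γ * (y - z))) +
    Φ (update (update c j.castSucc (α * (z - x))) j.succ (β * (z - y))) = 0

-- deps: KO ALT0
def S_ALT : Prop := ∀ (E : Type) [Field E] (k : Subfield E) (d n : ℕ)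
  (Φ : (Fin (n + 2) → E) → ℚ), Cst k d → CR Φ → Aff Φ → ∀ (j : Fin (n + 1)) (x : Fin (n + 2) → E),
  (∀ i, x i ≠ 0) → x j.castSucc = x j.succ → Φ x = 0

-- deps:
def S_SWAP : Prop := ∀ (E : Type) [Field E] (n : ℕ) (Φ : (Fin (n + 2) → E) → ℚ), Aff Φ →
  (∀ (j : Fin (n + 1)) (x : Fin (n + 2) → E), (∀ i, x i ≠ 0) → x j.castSucc = x j.succ → Φ x = 0) →
  ∀ (i j : Fin (n + 2)) (x : Fin (n + 2) → E), (∀ i, x i ≠ 0) → i ≠ j → x i = x j → Φ x = 0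

-- deps:
def S_MKW : Prop := ∀ (E : Type) [Field E] (n : ℕ) (Φ : (Fin (n + 1) → E) → ℚ), Aff Φ →
  (∀ (i j : Fin (n + 1)) (x : Fin (n + 1) → E), (∀ i, x i ≠ 0) → i ≠ j → x i = x j → Φ x = 0) →
  ∃ ω : Alt (MM E) n, ∀ z : Fin n → E, (∀ i, z i ≠ 0) →
    ω (fun i => lg (z i)) = Φ (Fin.cons 1 z)

-- deps:
def S_PHB : Prop := ∀ (F Ω : Type) [Field F] [Field Ω] [Algebra F Ω] [IsAlgClosed Ω] (n : ℕ)
  (φ : PrimeSpectrum (AS F n) → ℚ),
  (∀ (c : Ω) (x : Fin (n + 1) → Ω), c ≠ 0 → phb φ (fun i => c * x i) = phb φ x) ∧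
  ∀ z : PrimeSpectrum (AS F n), z.asIdeal.IsMaximal → (∀ i, tt F i ∉ z.asIdeal) →
    ∃ x : Fin (n + 1) → Ω, (∀ i, x i ≠ 0) ∧ (phb φ x = 0 → φ z = 0)

-- deps:
def S_CST : Prop := ∀ (p : ℕ) [Fact p.Prime] (F : Type) [Field F] [Algebra (ZMod p) F] (d : ℕ),
  Algebra.trdeg (ZMod p) F ≤ d → ∃ k : Subfield (AlgebraicClosure F), Cst k d

-- deps: CORE SPEC CURVE MUL ALT SWAP MKW PHB CST KO
def S_MAIN : Prop := ∀ (p : ℕ) [Fact p.Prime] (F : Type) [Field F] [Algebra (ZMod p) F] (d n : ℕ),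
  Algebra.trdeg (ZMod p) F ≤ d → 4 * ((d + 1) ^ (d + 1) * (4 * d + 1)) ≤ n →
  Module.rank ℚ (ℚ ⊗[ℤ] CH (Spec (CommRingCat.of F)) n n) = 0

end Pool.Agent.P.MP_12d50c_ag.BT
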