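import Pool.Agent.P.MP_12d50c_ag.BT.IfaceA

/-! Step BAD. -/

set_option autoImplicit false
set_option linter.unusedSectionVars false

namespace Pool.Agent.P.MP_12d50c_ag.BT

open Finset Function

theorem union_bad {α κ : Type} [Fintype κ] (s : κ → Set α) (q c : ℕ)
    (h : ∀ k, q * (s k).ncard ≤ c) : q * (⋃ k, s k).ncard ≤ Fintype.card κ * c := by
  refine (Nat.mul_le_mul_left q (Set.ncard_iUnion_le_of_fintype s)).trans ?_
  rw [mul_sum, ← card_univ, ← smul_eq_mul]
  exact sum_le_card_nsmul _ _ _ fun k _ => h k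

theorem shift_bad {K X V : Type} [Field K] [AddCommGroup X] [Module K X] [Finite X]
    [AddCommGroup V] [Module K V] (L : X →ₗ[K] V) {a₀ : X} {v₀ : V} (h : L a₀ = v₀)
    (P : X → Prop) (Q : LinearMap.ker L → Prop) (e : ∀ y : LinearMap.ker L, P (a₀ + y) → Q y) :
    {x | L x = v₀ ∧ P x}.ncard ≤ {y | Q y}.ncard := by
  refine le_trans (Set.ncard_le_ncard (t := (fun y : LinearMap.ker L => a₀ + y) '' {y | Q y})
    fun x hx => ?_) (Set.ncard_image_le (Set.toFinite _))
  refine ⟨⟨x - a₀, by rw [LinearMap.mem_ker, map_sub, hx.1, h, sub_self]⟩, e _ ?_,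
    add_sub_cancel _ _⟩
  rw [add_sub_cancel]
  exact hx.2

theorem p_BAD (hSZ : S_SZ) (hCL : S_CL) :
    S_BAD := by
  intro ι _ _ K _ _ W _ _ _ V _ _ _ β v₀ m a h1 h2 ha
  have hYV : Nat.card (LinearMap.ker (bb β a)) * Fintype.card V = Fintype.card (∀ i, W i) := by
    have hs : Surjective (bb β a) := fun v =>
      let ⟨y, _, e⟩ := ha.gn β (T := univ) h1.le v; ⟨y, e⟩
    rw [← Nat.card_eq_fintype_card, ← Nat.card_eq_fintype_card,
      Submodule.card_eq_card_quotient_mul_card (LinearMap.ker (bb β a)),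
      Nat.card_congr (LinearMap.quotKerEquivOfSurjective _ hs).toEquiv]
  have h0 : ∀ T : Finset ι, m ≤ Tᶜ.card → ∃ a₀, bb β a a₀ = v₀ ∧ ∀ i ∈ T, a₀ i = a i :=
    fun T hT => by
      obtain ⟨y, hy, e⟩ := ha.gn β hT (v₀ - bb β a a)
      exact ⟨a + y, by rw [map_add, e, add_sub_cancel], fun i hi => by
        rw [Pi.add_apply, mem_XT.1 hy i (by simpa using hi), add_zero]⟩
  let PJ : Finset ι → (∀ i, W i) →ₗ[K] ∀ i, W i := fun J =>
    LinearMap.pi fun i => if i ∈ J then LinearMap.proj i else 0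
  have hP : ∀ (J : Finset ι) (x y : ∀ i, W i),
      J.piecewise (x + y) a = J.piecewise x a + PJ J y := fun J x y => funext fun i => by
    by_cases e : i ∈ J <;> simp [PJ, piecewise, e]
  have hA : ∀ (J : Finset ι) (x : ∀ i, W i) i, x i = a i → a i = J.piecewise x a i :=
    fun J x i e => by by_cases c : i ∈ J <;> simp [piecewise, c, e]
  have fin : ∀ (s : Set (∀ i, W i)) (n c : ℕ), s.ncard ≤ n →
      (Nat.card K - 1) * n ≤ c * Nat.card (LinearMap.ker (bb β a)) →
      (Nat.card K - 1) * Fintype.card V * s.ncard ≤ c * Fintype.card (∀ i, W i) :=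
    fun s n c e1 e2 => by
      rw [← hYV, ← mul_assoc, mul_right_comm]
      exact Nat.mul_le_mul_right _ ((Nat.mul_le_mul_left _ e1).trans e2)
  have b1 : ∀ J T : Finset ι, (Nat.card K - 1) * Fintype.card V *
      {a' | bb β a a' = v₀ ∧ T.card = m ∧ ¬ Gn β T (J.piecewise a' a)}.ncard ≤
        Module.finrank K V * Fintype.card (∀ i, W i) := fun J T => by
    by_cases hT : T.card = m
    · obtain ⟨a₀, e1, e2⟩ := h0 T (by rw [card_compl]; omega)
      have z1 := (hSZ K (LinearMap.ker (bb β a)) (XT K W T) V).1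
        ((bb β (J.piecewise a₀ a)).domRestrict (XT K W T))
        (((bb β).compl₂ (XT K W T).subtype) ∘ₗ PJ J ∘ₗ (LinearMap.ker (bb β a)).subtype)
        fun v => by
          obtain ⟨z, hz, e⟩ := ((ha.2 T hT).congr β fun i hi => hA J a₀ i (e2 i hi)) v
          exact ⟨⟨z, hz⟩, e⟩
      refine fin _ _ _ ?_ z1
      refine shift_bad _ e1 _ _ fun y hy hs => hy.2 fun v => ?_
      obtain ⟨z, hz⟩ := hs v
      exact ⟨z, z.2, by rw [hP, map_add]; exact hz⟩
    · simp [hT]
  have b2 : ∀ (J : Finset ι) (i : ι), (Nat.card K - 1) * Fintype.card V *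
      {a' | bb β a a' = v₀ ∧ J.piecewise a' a i = 0}.ncard ≤ 1 * Fintype.card (∀ i, W i) :=
    fun J i => by
      obtain ⟨a₀, e1, e2⟩ := h0 {i} (by rw [card_compl, card_singleton]; omega)
      have z1 := (hSZ K (LinearMap.ker (bb β a)) (W i) (W i)).2 (J.piecewise a₀ a i)
        (LinearMap.proj i ∘ₗ PJ J ∘ₗ (LinearMap.ker (bb β a)).subtype)
        (hA J a₀ i (e2 i (mem_singleton_self i)) ▸ ha.1 i)
      refine fin _ _ _ ?_ (z1.trans (one_mul _).ge)
      refine shift_bad _ e1 _ _ fun y hy => ?_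
      rw [hP] at hy
      exact hy
  have sub : {a' | bb β a a' = v₀ ∧ ∃ J : Finset ι, ¬ Good β m (J.piecewise a' a)} ⊆
      ⋃ J : Finset ι, (⋃ T : Finset ι,
        {a' | bb β a a' = v₀ ∧ T.card = m ∧ ¬ Gn β T (J.piecewise a' a)}) ∪
        ⋃ i, {a' | bb β a a' = v₀ ∧ J.piecewise a' a i = 0} := by
    rintro a' ⟨e, J, hJ⟩
    simp only [Set.mem_iUnion, Set.mem_union, Set.mem_ofPred_eq]
    refine ⟨J, by_contra fun c => hJ ⟨fun i hi => c (Or.inr ⟨i, e, hi⟩),
      fun T hT => by_contra fun d => c (Or.inl ⟨T, e, hT, d⟩)⟩⟩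
  refine (Nat.mul_le_mul_left _ (Set.ncard_le_ncard sub)).trans ((union_bad _ _
    ((2 ^ Fintype.card ι * Module.finrank K V + Fintype.card ι) * Fintype.card (∀ i, W i))
    fun J => ?_).trans (by rw [Fintype.card_finset, mul_assoc]))
  refine (Nat.mul_le_mul_left _ (Set.ncard_union_le _ _)).trans ?_
  rw [mul_add, add_mul]
  refine add_le_add ((union_bad _ _ _ (b1 J)).trans ?_) ((union_bad _ _ _ (b2 J)).trans ?_)
  · rw [Fintype.card_finset, mul_assoc]
  · rw [one_mul]

end Pool.Agent.P.MP_12d50c_ag.BT
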