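import Pool.Agent.P.MP_12d50c_ag.BT.IfaceD

/-! Step CURVE. -/

set_option autoImplicit false
set_option linter.unusedSectionVars false

namespace Pool.Agent.P.MP_12d50c_ag.BT

open Finset Function Polynomial CategoryTheory AlgebraicGeometry
open scoped TensorProduct

theorem pt_map_curve {F E Ω : Type} [Field F] [Field E] [Field Ω] [Algebra F E] [Algebra F Ω]
    (f : E →ₐ[F] Ω) {n : ℕ} (x : Fin (n + 1) → E) (h : ∑ i, x i ≠ 0)
    (h' : ∑ i, f (x i) ≠ 0) : pt F (fun i => f (x i)) h' = pt F x h := by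
  apply PrimeSpectrum.ext
  have e : evA F (fun i => f (x i) / ∑ i, f (x i)) (by rw [← sum_div, div_self h']) =
      f.comp (evA F (fun i => x i / ∑ i, x i) (by rw [← sum_div, div_self h])) := by
    apply as_ext
    intro j
    rw [AlgHom.comp_apply, evA_tt, evA_tt, map_div₀, map_sum]
  ext a
  simp only [pt, RingHom.mem_ker]
  rw [e, AlgHom.comp_apply, map_eq_zero]

theorem phb_map_curve {F E Ω : Type} [Field F] [Field E] [Field Ω] [Algebra F E] [Algebra F Ω]
    (f : E →ₐ[F] Ω) {n : ℕ} (φ : PrimeSpectrum (AS F n) → ℚ) (x : Fin (n + 1) → E) :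
    phb φ (fun i => f (x i)) = phb φ x := by
  by_cases h : ∑ i, x i = 0
  · have h' : ∑ i, f (x i) = 0 := by rw [← map_sum, h, map_zero]
    rw [phb, phb, dif_pos h, dif_pos h']
  · have h' : ∑ i, f (x i) ≠ 0 := by rwa [← map_sum, _root_.map_ne_zero]
    rw [phb, phb, dif_neg h, dif_neg h', pt_map_curve f x h h']

theorem pp_map_curve {E Ω : Type} [Field E] [Field Ω] (f : E →+* Ω) {n : ℕ}
    (κ : Fin (n + 2) → E) (S : Fin (n + 2) → Finset E) (j : Fin (n + 2)) :
    pp (fun j => f (κ j)) (fun j => (S j).map ⟨f, f.injective⟩) j = (pp κ S j).map f := by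
  simp only [pp, Polynomial.map_mul, Polynomial.map_prod, map_C, Polynomial.map_sub, map_X,
    prod_map, Function.Embedding.coeFn_mk]

theorem cr_map_curve {F E Ω : Type} [Field F] [Field E] [Field Ω] [Algebra F E] [Algebra F Ω]
    (f : E →ₐ[F] Ω) {n : ℕ} (φ : PrimeSpectrum (AS F n) → ℚ)
    (H : CR (phb φ : (Fin (n + 1) → E) → ℚ))
    (κ : Fin (n + 2) → E) (S : Fin (n + 2) → Finset E)
    (hc : Cur (fun j => (f : E →+* Ω) (κ j))
      (fun j => (S j).map ⟨(f : E →+* Ω), (f : E →+* Ω).injective⟩)) :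
    ∑ j : Fin (n + 2), (-1) ^ (j : ℕ) *
      ∑ a ∈ (S j).map ⟨(f : E →+* Ω), (f : E →+* Ω).injective⟩,
        phb φ (fun i => (pp (fun j => (f : E →+* Ω) (κ j))
          (fun j => (S j).map ⟨(f : E →+* Ω), (f : E →+* Ω).injective⟩)
            (j.succAbove i)).eval a) = 0 := by
  have hc' : Cur κ S := by
    refine ⟨fun j hj => hc.ne j (by simp only [hj, map_zero]), fun j j' hj => ?_, ?_⟩
    · exact (disjoint_map _).1 (hc.disj j j' hj)
    · obtain ⟨j, hj⟩ := hc.deg
      refine ⟨j, ?_⟩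
      simp only [ss, pp_map_curve, card_map] at hj
      rwa [← Polynomial.map_sum, degree_map] at hj
  rw [← H κ S hc']
  refine sum_congr rfl fun j _ => ?_
  rw [sum_map]
  congr 1
  refine sum_congr rfl fun a _ => ?_
  rw [← phb_map_curve f φ]
  congr 1
  funext i
  rw [pp_map_curve, Function.Embedding.coeFn_mk, eval_map_apply]
  rfl

theorem p_CURVE (hCE : S_CE) :
    S_CURVE := by
  classical
  intro F Ω _ _ _ _ n φ hφ κ S hc
  let T : Finset Ω := univ.image κ ∪ univ.biUnion S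
  let E : IntermediateField F Ω := IntermediateField.adjoin F (T : Set Ω)
  have : FiniteDimensional F E :=
    IntermediateField.finiteDimensional_adjoin fun x _ => Algebra.IsIntegral.isIntegral x
  have hT : ∀ x ∈ T, x ∈ E := fun x hx => IntermediateField.subset_adjoin F _ (mem_coe.2 hx)
  have hκ : ∀ j, κ j ∈ E := fun j =>
    hT _ (mem_union_left _ (mem_image_of_mem _ (mem_univ j)))
  have hS : ∀ j, ∀ a ∈ S j, a ∈ E := fun j a ha =>
    hT _ (mem_union_right _ (mem_biUnion.2 ⟨j, mem_univ j, ha⟩))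
  have e1 : κ = fun j => (E.val : E →+* Ω) ⟨κ j, hκ j⟩ := rfl
  have e2 : S = fun j => ((S j).subtype (· ∈ E)).map
      ⟨(E.val : E →+* Ω), (E.val : E →+* Ω).injective⟩ := by
    funext j
    exact (subtype_map_of_mem (hS j)).symm
  have := cr_map_curve E.val φ (hCE F E n φ hφ) (fun j => ⟨κ j, hκ j⟩)
    (fun j => (S j).subtype (· ∈ E)) (by rw [← e1, ← e2]; exact hc)
  rw [← e1, ← e2] at this
  have e3 : ∀ j, ((S j).subtype (· ∈ E)).map
      ⟨(E.val : E →+* Ω), (E.val : E →+* Ω).injective⟩ = S j := fun j =>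
    subtype_map_of_mem (hS j)
  simp only [e3] at this
  exact this

end Pool.Agent.P.MP_12d50c_ag.BT
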