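import Pool.Agent.P.MP_12d50c_ag.BT.IfaceB

/-! Step DEP. -/

set_option autoImplicit false
set_option linter.unusedSectionVars false

namespace Pool.Agent.P.MP_12d50c_ag.BT

open Finset Function Filter

theorem coe_sum_dep {Ω : Type} [Field Ω] {n : ℕ} (μ : Fin n → MM Ω) (a : Fin n → ℕ) :
    ((Additive.toMul (∑ j, a j • μ j) : Ωˣ) : Ω) =
      ∏ j, ((Additive.toMul (μ j) : Ωˣ) : Ω) ^ a j := by
  rw [toMul_sum, Units.coe_prod]
  exact prod_congr rfl fun j _ => by rw [toMul_nsmul, Units.val_pow_eq_pow_val]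

theorem rel_dep {M : Type} [AddCommGroup M] {n : ℕ} (Y : VS M) (v : Y.J)
    (μ : Fin n → M) (a b : Fin n → ℕ)
    (h : Y.val v (∑ j, b j • μ j) = Y.val v (∑ j, a j • μ j)) :
    ∑ j, ((b j : ℤ) - a j) • Y.val v (μ j) = 0 := by
  rw [map_sum, map_sum] at h
  simp only [map_nsmul] at h
  simp only [sub_smul, natCast_zsmul, sum_sub_distrib, h, sub_self]

theorem p_DEP (hKO : S_KO) :
    S_DEP := by
  classical
  intro Ω _ k d hk μ
  let x : Fin (d + 1) → Ω := fun j => ((Additive.toMul (μ j) : Ωˣ) : Ω)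
  have hx : ∀ j, x j ≠ 0 := fun j => Units.ne_zero _
  have hdep : ¬ AlgebraicIndependent k x := fun h => by
    have h1 := h.cardinalMk_le_trdeg.trans hk.tr
    rw [Cardinal.mk_fin, Nat.cast_le] at h1
    omega
  rw [algebraicIndependent_iff] at hdep
  push Not at hdep
  obtain ⟨Φ, hΦ, hΦ0⟩ := hdep
  refine ⟨((Φ.support ×ˢ Φ.support).filter fun q => q.1 ≠ q.2).image
    fun q j => (q.1 j : ℤ) - q.2 j, ?_, fun O => ?_⟩
  · intro c hc h0
    obtain ⟨q, hq, rfl⟩ := mem_image.1 hc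
    refine (mem_filter.1 hq).2 (Finsupp.ext fun j => ?_)
    have := congrFun h0 j
    simp only [Pi.zero_apply] at this
    omega
  · change ValuationSubring Ω at O
    let t : (Fin (d + 1) →₀ ℕ) → Ω := fun a =>
      algebraMap k Ω (MvPolynomial.coeff a Φ) * ∏ j, x j ^ a j
    have ht : ∀ a ∈ Φ.support, O.valuation (t a) = O.valuation (∏ j, x j ^ a j) := by
      intro a ha
      have h1 : O.valuation (algebraMap k Ω (MvPolynomial.coeff a Φ)) = 1 :=
        ((hKO Ω k d hk).2 _ (MvPolynomial.coeff a Φ).2 fun h =>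
          MvPolynomial.mem_support_iff.1 ha (Subtype.ext h)).2 O
      rw [map_mul, h1, one_mul]
    have hs : ∑ a ∈ Φ.support, t a = 0 := by
      rw [← hΦ, MvPolynomial.aeval_def, MvPolynomial.eval₂_eq']
    obtain ⟨a, ha, hmax⟩ := exists_max_image Φ.support (fun a => O.valuation (t a))
      (MvPolynomial.support_nonempty.2 hΦ0)
    obtain ⟨b, hb, hab⟩ : ∃ b ∈ Φ.support \ {a}, O.valuation (t b) = O.valuation (t a) := by
      by_contra h
      push Not at h
      have h1 := O.valuation.map_sum_eq_of_lt ha fun b hb =>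
        lt_of_le_of_ne (hmax b (mem_sdiff.1 hb).1) (h b hb)
      rw [hs, map_zero, ht a ha, eq_comm, map_eq_zero] at h1
      exact prod_ne_zero_iff.2 (fun j _ => pow_ne_zero _ (hx j)) h1
    obtain ⟨hb1, hb2⟩ := mem_sdiff.1 hb
    refine ⟨fun j => (b j : ℤ) - a j, mem_image.2 ⟨(b, a), mem_filter.2
      ⟨mem_product.2 ⟨hb1, ha⟩, fun h => hb2 (mem_singleton.2 h)⟩, rfl⟩, ?_⟩
    have h2 : (vs Ω).val O (∑ j, b j • μ j) = (vs Ω).val O (∑ j, a j • μ j) := by
      rw [vs_eq, coe_sum_dep, coe_sum_dep, ← ht a ha, ← ht b hb1, hab]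
    exact rel_dep (vs Ω) O μ a b h2

end Pool.Agent.P.MP_12d50c_ag.BT
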