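import Pool.Agent.P.MP_12d50c_ag.BT.IfaceB

/-! Step GEN. -/

set_option autoImplicit false
set_option linter.unusedSectionVars false

namespace Pool.Agent.P.MP_12d50c_ag.BT

open Finset Function Filter

theorem p_GEN (hGEN0 : S_GEN0) :
    S_GEN := by
  intro Ω _ k d ι _ A hk hA
  obtain ⟨G, hG, hO⟩ := hGEN0 Ω k d (ι × Fin (d + 1)) (fun s => A s.1) hk fun s => (hA s.1).2
  have h1 : ∀ s, ∃ t, G (s, t) ≠ 0 := by
    intro s
    by_contra h
    simp only [not_exists, not_not] at h
    obtain ⟨a, ha⟩ := (hA s).1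
    have h2 := Set.ncard_le_ncard_of_injOn (s := (Set.univ : Set (Fin (d + 1))))
      (t := {x : ι × Fin (d + 1) | ∃ a ∈ A x.1, (⊤ : ValuationSubring Ω).valuation (G x) <
        (⊤ : ValuationSubring Ω).valuation a}) (fun t => (s, t))
      (fun t _ => ⟨a, ha, by
        rw [h t, map_zero]
        exact zero_lt_iff.2 ((Valuation.ne_zero_iff _).2 ((hA s).2 a ha))⟩)
      (fun t _ t' _ e => (Prod.ext_iff.1 e).2) (Set.toFinite _)
    have h3 := h2.trans (hO ⊤)
    rw [Set.ncard_univ, Nat.card_eq_fintype_card, Fintype.card_fin] at h3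
    omega
  choose t ht using h1
  refine ⟨fun s => G (s, t s), fun s => ⟨hG (s, t s), ht s⟩, fun O => le_trans ?_ (hO O)⟩
  exact Set.ncard_le_ncard_of_injOn (fun s => (s, t s)) (fun s hs => hs)
    (fun s _ s' _ e => (Prod.ext_iff.1 e).1) (Set.toFinite _)

end Pool.Agent.P.MP_12d50c_ag.BT
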