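import Pool.Agent.P.MP_12d50c_ag.BT.IfaceD

/-! Step HB. -/

set_option autoImplicit false
set_option linter.unusedSectionVars false

namespace Pool.Agent.P.MP_12d50c_ag.BT

open Finset Function Polynomial CategoryTheory AlgebraicGeometry
open scoped TensorProduct

theorem chain_hb (hLMA : S_LMA) (R : Type) [CommRing R] (q : PrimeSpectrum R) (N : Type)
    [AddCommGroup N] [Module R N] (S T : Submodule R N) (h : S ≤ T) :
    LL R (N ⧸ S) q = LL R (T ⧸ S.comap T.subtype) q + LL R (N ⧸ T) q := by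
  obtain ⟨h1, h2, -, -⟩ := hLMA R q
  have hk : S.comap T.subtype = LinearMap.ker (S.mkQ ∘ₗ T.subtype) := by
    rw [LinearMap.ker_comp, Submodule.ker_mkQ]
  have hr : LinearMap.range (S.mkQ ∘ₗ T.subtype) = T.map S.mkQ := by
    rw [LinearMap.range_comp, Submodule.range_subtype]
  have e1 : (T ⧸ S.comap T.subtype) ≃ₗ[R] T.map S.mkQ :=
    (Submodule.quotEquivOfEq _ _ hk).trans
      ((LinearMap.quotKerEquivRange (S.mkQ ∘ₗ T.subtype)).trans (LinearEquiv.ofEq _ _ hr))
  rw [h2 (N ⧸ S) (T.map S.mkQ), h1 _ _ e1, h1 _ _ (Submodule.quotientQuotientEquivQuotient S T h)]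

theorem p_HB (hLMA : S_LMA) :
    S_HB := by
  intro R _ q N _ _ P τ hτ hfin
  have hinj : Function.Injective (LinearMap.lsmul R N τ) :=
    (injective_iff_map_eq_zero _).2 hτ
  have a1 : P.map (LinearMap.lsmul R N τ) ≤ P := by
    rintro _ ⟨y, hy, rfl⟩
    exact P.smul_mem τ hy
  have a2 : P.map (LinearMap.lsmul R N τ) ≤ LinearMap.range (LinearMap.lsmul R N τ) :=
    LinearMap.map_le_range
  have b1 : (P.map (LinearMap.lsmul R N τ)).comap P.subtype =
      LinearMap.range (LinearMap.lsmul R P τ) := by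
    ext x
    constructor
    · rintro ⟨y, hy, he⟩
      exact ⟨⟨y, hy⟩, Subtype.ext he⟩
    · rintro ⟨y, rfl⟩
      exact ⟨y.1, y.2, rfl⟩
  have b2 : P.map (LinearEquiv.ofInjective (LinearMap.lsmul R N τ) hinj).toLinearMap =
      (P.map (LinearMap.lsmul R N τ)).comap (LinearMap.range (LinearMap.lsmul R N τ)).subtype := by
    ext x
    constructor
    · rintro ⟨y, hy, rfl⟩
      exact ⟨y, hy, rfl⟩
    · rintro ⟨y, hy, he⟩
      exact ⟨y, hy, Subtype.ext he⟩
  have c1 := chain_hb hLMA R q N _ _ a1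
  have c2 := chain_hb hLMA R q N _ _ a2
  have d1 := (hLMA R q).1 _ _ (Submodule.quotEquivOfEq _ _ b1)
  have d2 := (hLMA R q).1 _ _ (Submodule.Quotient.equiv P _
    (LinearEquiv.ofInjective (LinearMap.lsmul R N τ) hinj) b2)
  rw [c1, d1, ← d2, add_comm] at c2
  exact (WithTop.add_left_cancel hfin c2).symm

end Pool.Agent.P.MP_12d50c_ag.BT
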