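import Pool.Agent.P.MP_12d50c_ag.BT.IfaceD

/-! Step ISO. -/

set_option autoImplicit false
set_option linter.unusedSectionVars false

namespace Pool.Agent.P.MP_12d50c_ag.BT

open Finset Function Polynomial CategoryTheory AlgebraicGeometry
open scoped TensorProduct

namespace ISOx

open Limits

variable (F : Type) [Field F]

/-- The coordinates of the integral simplex. -/
noncomputable def tz {n : ℕ} (j : Fin (n + 1)) : SimplexRing n :=
  Ideal.Quotient.mk _ (MvPolynomial.X j)

theorem sum_tz {n : ℕ} : ∑ j, (tz j : SimplexRing n) = 1 := by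
  simp only [tz, ← map_sum]
  rw [← sub_eq_zero, ← map_one (Ideal.Quotient.mk _), ← map_sub, Ideal.Quotient.eq_zero_iff_mem]
  exact Ideal.subset_span rfl

theorem z_ext {n : ℕ} {B : Type} [CommRing B] {f g : SimplexRing n →+* B}
    (h : ∀ j, f (tz j) = g (tz j)) : f = g :=
  Ideal.Quotient.ringHom_ext (MvPolynomial.ringHom_ext' (RingHom.ext_int _ _) h)

/-- Extension of scalars. -/
noncomputable def io (n : ℕ) : SimplexRing n →+* AS F n :=
  Ideal.Quotient.lift _ (MvPolynomial.aeval (tt F)).toRingHom fun a ha => by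
    obtain ⟨c, rfl⟩ := Ideal.mem_span_singleton'.1 ha
    simp [sum_tt]

theorem io_tz {n : ℕ} (j : Fin (n + 1)) : io F n (tz j) = tt F j := by
  simp [io, tz]

/-- The simplex over `F` is a coproduct of rings. -/
noncomputable def colim (n : ℕ) : IsColimit (BinaryCofan.mk
    (CommRingCat.ofHom (algebraMap F (AS F n))) (CommRingCat.ofHom (io F n))) :=
  BinaryCofan.IsColimit.mk _
    (fun {T} f g => letI := f.hom.toAlgebra
      CommRingCat.ofHom (evA F (fun j => g.hom (tz j)) (by
        rw [← map_sum, sum_tz, map_one])).toRingHom)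
    (fun {T} f g => by
      let := f.hom.toAlgebra
      ext a
      exact AlgHom.commutes (evA F (fun j => g.hom (tz j)) (by
        rw [← map_sum, sum_tz, map_one])) a)
    (fun {T} f g => by
      let := f.hom.toAlgebra
      refine CommRingCat.hom_ext (z_ext fun j => ?_)
      change evA F (fun j => g.hom (tz j)) (by
        rw [← map_sum, sum_tz, map_one]) (io F n (tz j)) = g.hom (tz j)
      rw [io_tz, evA_tt])
    (fun {T} f g m h1 h2 => by
      let := f.hom.toAlgebra
      let m' : AS F n →ₐ[F] T := ⟨m.hom, fun a => DFunLike.congr_fun (congrArg (·.hom) h1) a⟩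
      have : m' = evA F (fun j => g.hom (tz j)) (by rw [← map_sum, sum_tz, map_one]) :=
        as_ext fun j => by
          rw [evA_tt, ← h2, ← io_tz]
          rfl
      exact CommRingCat.hom_ext (congrArg AlgHom.toRingHom this))

theorem ex (n : ℕ) : ∃ e : XD (Spec (CommRingCat.of F)) n ≅ Spec (CommRingCat.of (AS F n)),
    e.inv ≫ prod.fst = Spec.map (CommRingCat.ofHom (algebraMap F (AS F n))) ∧
    e.inv ≫ prod.snd = Spec.map (CommRingCat.ofHom (io F n)) := by
  have h := mapIsLimitOfPreservesOfIsLimit Scheme.Spec _ _ (BinaryCofan.IsColimit.op (colim F n))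
  exact ⟨(prodIsProd _ _).conePointUniqueUpToIso h,
    (prodIsProd _ _).conePointUniqueUpToIso_inv_comp h ⟨WalkingPair.left⟩,
    (prodIsProd _ _).conePointUniqueUpToIso_inv_comp h ⟨WalkingPair.right⟩⟩

end ISOx

open Limits ISOx in
theorem p_ISO :
    S_ISO := by
  intro F _
  choose e h1 h2 using ex F
  refine ⟨e, fun m n g => ?_⟩
  rw [← Iso.inv_comp_eq, ← Category.assoc, ← Iso.eq_comp_inv]
  refine prod.hom_ext ?_ ?_
  · erw [Category.assoc, Category.assoc, h1, prod.map_fst]
    rw [Category.comp_id, ← Spec.map_comp]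
    refine (h1 m).trans ?_
    congr 1
    ext a
    exact ((fm F g).commutes a).symm
  · erw [Category.assoc, Category.assoc, h2, prod.map_snd]
    erw [← Category.assoc, h2 m]
    rw [← Spec.map_comp, ← Spec.map_comp]
    congr 1
    refine CommRingCat.hom_ext (z_ext fun j => ?_)
    change io F m (simplexMap g (tz j)) = fm F g (io F n (tz j))
    rw [io_tz, fm_tt]
    simp [simplexMap, tz, io]

end Pool.Agent.P.MP_12d50c_ag.BT
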