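import Pool.Agent.P.MP_12d50c_ag.BT.IfaceA

/-! Step LINE. -/

set_option autoImplicit false
set_option linter.unusedSectionVars false

namespace Pool.Agent.P.MP_12d50c_ag.BT

open Finset Function

theorem p_LINE :
    S_LINE := by
  intro K Y _ _ _ _ _ B c hc
  classical
  have : Fintype K := Fintype.ofFinite K
  have : Fintype Y := Fintype.ofFinite Y
  have h1 : ∀ t ∈ (univ.erase 0 : Finset K),
      B.ncard ≤ #((univ : Finset Y).bipartiteAbove (fun (t : K) (y : Y) => t • y ∈ B) t) := by
    intro t ht
    have ht0 : t ≠ 0 := ne_of_mem_erase ht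
    rw [← Set.ncard_coe_finset]
    refine Set.ncard_le_ncard_of_injOn (fun y => t⁻¹ • y) (fun y hy => ?_) (fun a _ b _ hab => ?_)
    · simp only [coe_bipartiteAbove, Set.mem_ofPred_eq, mem_univ, true_and, smul_inv_smul₀ ht0]
      exact hy
    · exact smul_right_injective Y (inv_ne_zero ht0) hab
  have h2 : ∀ y ∈ (univ : Finset Y),
      #((univ.erase 0 : Finset K).bipartiteBelow (fun (t : K) (y : Y) => t • y ∈ B) y) ≤ c := by
    intro y _
    refine le_trans (le_of_eq ?_) (hc y)
    rw [← Set.ncard_coe_finset]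
    congr 1
    ext t
    simp only [coe_bipartiteBelow, Set.mem_ofPred_eq, mem_erase, mem_univ, and_true]
  have h3 := card_mul_le_card_mul (fun (t : K) (y : Y) => t • y ∈ B) h1 h2
  rw [card_erase_of_mem (mem_univ _), card_univ, card_univ] at h3
  rw [Nat.card_eq_fintype_card, Nat.card_eq_fintype_card, mul_comm c]
  exact h3

end Pool.Agent.P.MP_12d50c_ag.BT
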